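import Pool.Agent.Lib.MP_ae5b4e_an_NB5.Root

/-! # MT: roots depending on several parameters -/

noncomputable section

namespace Pool.Agent.MP_ae5b4e_an_MT

open Complex Set Filter Topology Metric

/-- `x - g x` is `1/2`-Lipschitz -/
private theorem root_lip {g g' : ℂ → ℂ} {a : ℂ} {r : ℝ}
    (hd : ∀ x ∈ closedBall a r, HasDerivAt g (g' x) x ∧ ‖g' x - 1‖ ≤ 1 / 2) {x y : ℂ}
    (hx : x ∈ closedBall a r) (hy : y ∈ closedBall a r) :
    ‖(y - g y) - (x - g x)‖ ≤ 1 / 2 * ‖y - x‖ := by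
  refine (convex_closedBall a r).norm_image_sub_le_of_norm_hasDerivWithin_le
    (f := fun x => x - g x) (f' := fun x => 1 - g' x) (fun z hz => ?_) (fun z hz => ?_) hx hy
  · exact ((hasDerivAt_id z).sub (hd z hz).1).hasDerivWithinAt
  · rw [norm_sub_rev]
    exact (hd z hz).2

private theorem root_unique {g g' : ℂ → ℂ} {a : ℂ} {r : ℝ}
    (hd : ∀ x ∈ closedBall a r, HasDerivAt g (g' x) x ∧ ‖g' x - 1‖ ≤ 1 / 2) {x y : ℂ}
    (hx : x ∈ closedBall a r) (hy : y ∈ closedBall a r) (hgx : g x = 0) (hgy : g y = 0) :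
    x = y := by
  have h := root_lip hd hx hy
  rw [hgx, hgy, sub_zero, sub_zero] at h
  have h1 : ‖y - x‖ ≤ 0 := by linarith [norm_nonneg (y - x)]
  exact (sub_eq_zero.1 (norm_le_zero_iff.1 h1)).symm

private theorem root_exists {g g' : ℂ → ℂ} {a : ℂ} {r : ℝ} (hr : 0 < r)
    (hd : ∀ x ∈ closedBall a r, HasDerivAt g (g' x) x ∧ ‖g' x - 1‖ ≤ 1 / 2)
    (h0 : ‖g a‖ < r / 2) : ∃ x ∈ closedBall a r, g x = 0 ∧ ‖x - a‖ ≤ 2 * ‖g a‖ := by
  have ha : a ∈ closedBall a r := mem_closedBall_self hr.le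
  have hmaps : MapsTo (fun x => x - g x) (closedBall a r) (closedBall a r) := by
    intro x hx
    have h1 := root_lip hd ha hx
    rw [mem_closedBall, dist_eq_norm] at hx ⊢
    have h2 : (x - g x) - a = ((x - g x) - (a - g a)) - g a := by ring
    rw [h2]
    have h3 := norm_sub_le ((x - g x) - (a - g a)) (g a)
    linarith
  have hcon : ContractingWith (1 / 2 : NNReal)
      (hmaps.restrict (fun x => x - g x) (closedBall a r) (closedBall a r)) := by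
    refine ⟨by rw [← NNReal.coe_lt_coe]; norm_num, LipschitzWith.of_dist_le_mul ?_⟩
    rintro ⟨x, hx⟩ ⟨y, hy⟩
    have h1 := root_lip hd hy hx
    rw [Subtype.dist_eq, Subtype.dist_eq, dist_eq_norm, dist_eq_norm]
    have e : ((1 / 2 : NNReal) : ℝ) = 1 / 2 := by norm_num
    rw [e]
    exact h1
  obtain ⟨x, hx, hfix, -⟩ := hcon.exists_fixedPoint' isClosed_closedBall.isComplete hmaps ha
    (edist_ne_top _ _)
  have hgx : g x = 0 := by
    have h1 : x - g x = x := hfix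
    have h2 : g x = x - (x - g x) := by ring
    rw [h2, h1, sub_self]
  refine ⟨x, hx, hgx, ?_⟩
  have h1 := root_lip hd ha hx
  rw [hgx, sub_zero] at h1
  have h2 : x - a = (x - (a - g a)) - g a := by ring
  have h3 : ‖x - a‖ ≤ ‖x - (a - g a)‖ + ‖g a‖ := by
    conv_lhs => rw [h2]
    exact norm_sub_le _ _
  linarith

/-- `root_an` (NB5/Root) with a parameter `u` in a complex Banach space. The same proof
(the private lemmas `root_exists`, `root_unique` there have to be copied). -/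
theorem rootE {E : Type*} [NormedAddCommGroup E] [NormedSpace ℂ E] [CompleteSpace E]
    {P P' : E × ℂ → ℂ} {G : Set E} {a : E → ℂ} {r : ℝ} (hr : 0 < r) (hG : IsOpen G)
    (ha : ContinuousOn a G) (hP : ∀ u ∈ G, ∀ x ∈ closedBall (a u) r, AnalyticAt ℂ P (u, x))
    (hd : ∀ u ∈ G, ∀ x ∈ closedBall (a u) r, HasDerivAt (fun x => P (u, x)) (P' (u, x)) x ∧
      ‖P' (u, x) - 1‖ ≤ 1 / 2)
    (h0 : ∀ u ∈ G, ‖P (u, a u)‖ < r / 2) :
    ∃ ξ : E → ℂ, AnalyticOnNhd ℂ ξ G ∧ ∀ u ∈ G, ‖ξ u - a u‖ ≤ 2 * ‖P (u, a u)‖ ∧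
      P (u, ξ u) = 0 ∧ ∀ x ∈ closedBall (a u) r, P (u, x) = 0 → x = ξ u := by
  classical
  have hex : ∀ u : E, ∃ x : ℂ, u ∈ G → x ∈ closedBall (a u) r ∧ P (u, x) = 0 ∧
      ‖x - a u‖ ≤ 2 * ‖P (u, a u)‖ := by
    intro u
    by_cases hu : u ∈ G
    · obtain ⟨x, hx, hx0, hxa⟩ := root_exists (g := fun x => P (u, x))
        (g' := fun x => P' (u, x)) hr (hd u hu) (h0 u hu)
      exact ⟨x, fun _ => ⟨hx, hx0, hxa⟩⟩
    · exact ⟨0, fun h => absurd h hu⟩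
  choose ξ hξ using hex
  have huniq : ∀ u ∈ G, ∀ x ∈ closedBall (a u) r, P (u, x) = 0 → x = ξ u := fun u hu x hx hx0 =>
    root_unique (g := fun x => P (u, x)) (g' := fun x => P' (u, x)) (hd u hu) hx (hξ u hu).1 hx0
      (hξ u hu).2.1
  refine ⟨ξ, fun u₀ hu₀ => ?_, fun u hu => ⟨(hξ u hu).2.2, (hξ u hu).2.1, huniq u hu⟩⟩
  obtain ⟨hx₀, hP₀, hb₀⟩ := hξ u₀ hu₀
  have hlt : ‖ξ u₀ - a u₀‖ < r := by
    have := h0 u₀ hu₀
    linarith
  have hPan := hP u₀ hu₀ (ξ u₀) hx₀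
  have hdP := (hd u₀ hu₀ (ξ u₀) hx₀).1
  have hne : P' (u₀, ξ u₀) ≠ 0 := by
    intro h
    have h1 := (hd u₀ hu₀ (ξ u₀) hx₀).2
    rw [h, zero_sub, norm_neg, norm_one] at h1
    norm_num at h1
  have cdf : ContDiffAt ℂ ⊤ P (u₀, ξ u₀) := hPan.contDiffAt
  have hinv : (fderiv ℂ P (u₀, ξ u₀) ∘L ContinuousLinearMap.inr ℂ E ℂ).IsInvertible := by
    refine ⟨ContinuousLinearEquiv.unitsEquivAut ℂ (Units.mk0 _ hne), ?_⟩
    refine ContinuousLinearMap.ext_ring ?_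
    have h1 : HasFDerivAt (fun x : ℂ => P (u₀, x))
        (fderiv ℂ P (u₀, ξ u₀) ∘L ContinuousLinearMap.inr ℂ E ℂ) (ξ u₀) :=
      HasFDerivAt.comp (ξ u₀) (f := fun x : ℂ => (u₀, x)) hPan.differentiableAt.hasFDerivAt
        (hasFDerivAt_prodMk_right u₀ (ξ u₀))
    have h2 := h1.hasDerivAt.unique hdP
    rw [h2]
    simp
  have hn : (⊤ : WithTop ℕ∞) ≠ 0 := by simp
  set ψ : E → ℂ := cdf.implicitFunction hn hinv with hψ
  have hψan : AnalyticAt ℂ ψ u₀ := (cdf.contDiffAt_implicitFunction hn hinv).analyticAt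
  have hψ0 : ψ u₀ = ξ u₀ := cdf.implicitFunction_apply_self hn hinv
  have hψe : ∀ᶠ u in 𝓝 u₀, P (u, ψ u) = P (u₀, ξ u₀) :=
    cdf.eventually_apply_implicitFunction hn hinv
  have hac : ContinuousAt a u₀ := ha.continuousAt (hG.mem_nhds hu₀)
  have hcb : ∀ᶠ u in 𝓝 u₀, ‖ψ u - a u‖ < r := by
    have h1 : ContinuousAt (fun u => ‖ψ u - a u‖) u₀ := (hψan.continuousAt.sub hac).norm
    refine h1.eventually_lt_const ?_
    change ‖ψ u₀ - a u₀‖ < r
    rw [hψ0]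
    exact hlt
  have heq : ξ =ᶠ[𝓝 u₀] ψ := by
    filter_upwards [hψe, hcb, hG.mem_nhds hu₀] with u h1 h2 h3
    refine (huniq u h3 (ψ u) ?_ ?_).symm
    · rw [mem_closedBall, dist_eq_norm]
      exact h2.le
    · rw [h1, hP₀]
  exact hψan.congr heq.symm

end Pool.Agent.MP_ae5b4e_an_MT
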