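import Pool.Agent.Lib.MP_ae5b4e_an_MT.Defs

/-! # MT: the system in the inner coordinate -/

noncomputable section

namespace Pool.Agent.MP_ae5b4e_an_MT

open Complex Set Filter Topology Metric
open Pool.Agent.MP_ae5b4e_an_NB2 (Sys)
open Pool.Agent.MP_ae5b4e_an_NB5 (Pn Pn')

/-- the system in the coordinate `ζ`, `z = l + ε ζ` -/
def sc (Z : Sys) (l : ℂ) (ε : ℝ) : Sys where
  Q ζ := (ε:ℂ) ^ 2 * Z.Q (l + ε * ζ)
  y1 ζ := Z.y1 (l + ε * ζ)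
  y1' ζ := ε * Z.y1' (l + ε * ζ)
  y2 ζ := Z.y2 (l + ε * ζ) / ε
  y2' ζ := Z.y2' (l + ε * ζ)

/-- chain rule -/
theorem sc_on {Z : Sys} {l : ℂ} {ε ρ : ℝ} (hε : 0 < ε) (hZ : Z.On (ball l (ε * ρ))) :
    (sc Z l ε).On (ball 0 ρ) := by
  have hε0 : (ε:ℂ) ≠ 0 := by exact_mod_cast hε.ne'
  have hin : ∀ z ∈ ball (0:ℂ) ρ, l + ε * z ∈ ball l (ε * ρ) := by
    intro z hz
    rw [mem_ball_zero_iff] at hz
    rw [mem_ball, dist_eq_norm, add_sub_cancel_left, norm_mul, Complex.norm_real,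
      Real.norm_of_nonneg hε.le]
    exact mul_lt_mul_of_pos_left hz hε
  have hd : ∀ z : ℂ, HasDerivAt (fun z : ℂ => l + ε * z) (ε:ℂ) z := by
    intro z
    simpa using ((hasDerivAt_id z).const_mul (ε:ℂ)).const_add l
  constructor
  · intro z hz
    refine ((hZ.d1 _ (hin z hz)).comp z (hd z)).congr_deriv ?_
    simp only [sc]
    ring
  · intro z hz
    refine (((hZ.d1' _ (hin z hz)).comp z (hd z)).const_mul (ε:ℂ)).congr_deriv ?_
    simp only [sc]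
    ring
  · intro z hz
    refine (((hZ.d2 _ (hin z hz)).comp z (hd z)).div_const (ε:ℂ)).congr_deriv ?_
    simp only [sc]
    field_simp
  · intro z hz
    refine ((hZ.d2' _ (hin z hz)).comp z (hd z)).congr_deriv ?_
    simp only [sc]
    field_simp
  · intro z hz
    have h := hZ.wr _ (hin z hz)
    simp only [sc]
    rw [← h]
    field_simp

/-- the node function in the two coordinates: `Z.c (l + ε ζ) l = (sc Z l ε).c ζ 0`,
`Z.s (l + ε ζ) l = ε (sc Z l ε).s ζ 0`. -/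
theorem Pn_sc (Z : Sys) (l : ℂ) {ε : ℝ} (hε : 0 < ε) (m x : ℂ) :
    Pn Z l (l + ε * m) (ε * x) = ε * Pn (sc Z l ε) 0 m x := by
  have hε0 : (ε:ℂ) ≠ 0 := by exact_mod_cast hε.ne'
  simp only [Pn, Sys.c, Sys.s, sc, zero_add, mul_zero, add_zero]
  field_simp

/-- the node relation and the node function -/
theorem node_iff (Z : Sys) (l : ℂ) {ε : ℝ} (hε : 0 < ε) (m x : ℂ) :
    Z.node l (l + ε * x) (l + ε * m) ↔ Pn (sc Z l ε) 0 m x = 0 := by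
  have h : Z.node l (l + ε * x) (l + ε * m) ↔ Pn Z l (l + ε * m) (ε * x) = 0 := by
    unfold Sys.node Pn
    rfl
  rw [h, Pn_sc Z l hε]
  have hε' : (ε:ℂ) ≠ 0 := by exact_mod_cast hε.ne'
  constructor
  · intro h1
    exact (mul_eq_zero.1 h1).resolve_left hε'
  · intro h1
    rw [h1, mul_zero]

private theorem Sc_Q_an {Z : Sys} {S : Set ℂ} (hS : IsOpen S) (hZ : Z.On S) :
    AnalyticOnNhd ℂ Z.Q S := by
  have e1 : DifferentiableOn ℂ Z.y1' S := fun z hz =>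
    (hZ.d1' z hz).differentiableAt.differentiableWithinAt
  have e2 : DifferentiableOn ℂ Z.y2' S := fun z hz =>
    (hZ.d2' z hz).differentiableAt.differentiableWithinAt
  have e3 : DifferentiableOn ℂ (deriv Z.y1') S := e1.deriv hS
  have e4 : DifferentiableOn ℂ (deriv Z.y2') S := e2.deriv hS
  refine DifferentiableOn.analyticOnNhd ?_ hS
  refine ((e3.neg.mul e2).add (e4.mul e1)).congr fun w hw => ?_
  have h1 : Z.Q w = -deriv Z.y1' w * Z.y2' w + deriv Z.y2' w * Z.y1' w := by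
    rw [(hZ.d1' w hw).deriv, (hZ.d2' w hw).deriv]
    have := hZ.wr w hw
    linear_combination (-Z.Q w) * this
  exact h1

/-- The potential in the inner coordinate: bounds from a bound on a larger disc.

Proof. `Q` is analytic on the disc (`Q = - y1'' y2' + y2'' y1'`, see `RokZ_diff` in NB5/RokZ; or the
formula `Q = y1' ...`: `y1' y2'' - ...` from the two equations and the Wronskian). The function
`w ↦ ε² Q (l + w)` is bounded by `M` on `ball 0 (2 ρ' )`, `ρ' = d / 2`; for `‖ζ‖ < ρ`, `ε ρ ≤ d / 8`,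
`lip_of_bdd` (M/Mont, centre `l`, radius `d`, so Lipschitz constant `4 M / d` on `ball l (d / 4)`):
`‖ε² Q (l + ε ζ) - ε² Q (l - ε ζ)‖ ≤ (4 M / d) 2 ε ρ`. -/
theorem sc_bd {Z : Sys} {l : ℂ} {ε ρ M d : ℝ} (hε : 0 < ε) (hρ : 0 < ρ) (hd : 0 < d)
    (hZ : Z.On (ball l d)) (hM : ∀ z ∈ ball l d, ‖Z.Q z‖ * ε ^ 2 ≤ M) (h : 8 * (ε * ρ) ≤ d) :
    (∀ ζ ∈ ball (0:ℂ) ρ, ‖(sc Z l ε).Q ζ‖ ≤ M) ∧
      ∀ ζ ∈ ball (0:ℂ) ρ, ‖(sc Z l ε).Q ζ - (sc Z l ε).Q (-ζ)‖ ≤ 8 * M * ρ / d * ε := by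
  have hQ : AnalyticOnNhd ℂ Z.Q (ball l d) := Sc_Q_an isOpen_ball hZ
  have hin : ∀ z ∈ ball (0:ℂ) ρ, l + ε * z ∈ ball l (d / 4) := by
    intro z hz
    rw [mem_ball_zero_iff] at hz
    rw [mem_ball, dist_eq_norm, add_sub_cancel_left, norm_mul, Complex.norm_real,
      Real.norm_of_nonneg hε.le]
    have h1 : ε * ‖z‖ < ε * ρ := mul_lt_mul_of_pos_left hz hε
    linarith
  have hsub : ball l (d / 4) ⊆ ball l d := ball_subset_ball (by linarith)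
  have hf : AnalyticOnNhd ℂ (fun w => (ε:ℂ) ^ 2 * Z.Q w) (ball l d) :=
    fun w hw => analyticAt_const.mul (hQ w hw)
  have hfM : ∀ w ∈ ball l d, ‖(ε:ℂ) ^ 2 * Z.Q w‖ ≤ M := by
    intro w hw
    have h1 := hM w hw
    rw [norm_mul, norm_pow, Complex.norm_real, Real.norm_of_nonneg hε.le, mul_comm]
    exact h1
  refine ⟨fun z hz => hfM _ (hsub (hin z hz)), fun z hz => ?_⟩
  have hz' : -z ∈ ball (0:ℂ) ρ := by
    rw [mem_ball_zero_iff] at hz ⊢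
    rwa [norm_neg]
  have h1 := Pool.Agent.MP_ae5b4e_an_M.lip_of_bdd hd hf hfM (hin (-z) hz') (hin z hz)
  have hM0 : 0 ≤ M := (norm_nonneg _).trans (hfM _ (hsub (hin z hz)))
  have h2 : ‖(l + ε * z) - (l + ε * -z)‖ ≤ 2 * (ε * ρ) := by
    have h3 : (l + ε * z) - (l + ε * -z) = 2 * (ε * z) := by ring
    rw [h3, norm_mul, norm_mul, Complex.norm_real, Real.norm_of_nonneg hε.le, Complex.norm_ofNat]
    rw [mem_ball_zero_iff] at hz
    have h4 : ε * ‖z‖ ≤ ε * ρ := mul_le_mul_of_nonneg_left hz.le hε.le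
    linarith
  calc ‖(sc Z l ε).Q z - (sc Z l ε).Q (-z)‖ ≤ 4 * M / d * ‖(l + ε * z) - (l + ε * -z)‖ := h1
    _ ≤ 4 * M / d * (2 * (ε * ρ)) := mul_le_mul_of_nonneg_left h2 (by positivity)
    _ = 8 * M * ρ / d * ε := by ring

/-- joint analyticity of the node function: `(u, x) ↦ Pn Z (u.1 + ε u.2) u.1 (ε x)` -/
theorem Pn_an {Z : Sys} {S : Set ℂ} (hS : IsOpen S) (hZ : Z.On S) (ε : ℝ) {u : ℂ × ℂ} {x : ℂ}
    (h1 : u.1 ∈ S) (h2 : u.1 + ε * u.2 ∈ S) (h3 : u.1 + ε * u.2 + ε * x ∈ S) :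
    AnalyticAt ℂ (fun q : (ℂ × ℂ) × ℂ => Pn Z (q.1.1 + ε * q.1.2) q.1.1 (ε * q.2)) (u, x) := by
  have a1 : AnalyticOnNhd ℂ Z.y1 S :=
    DifferentiableOn.analyticOnNhd
      (fun z hz => (hZ.d1 z hz).differentiableAt.differentiableWithinAt) hS
  have a1' : AnalyticOnNhd ℂ Z.y1' S :=
    DifferentiableOn.analyticOnNhd
      (fun z hz => (hZ.d1' z hz).differentiableAt.differentiableWithinAt) hS
  have a2 : AnalyticOnNhd ℂ Z.y2 S :=
    DifferentiableOn.analyticOnNhd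
      (fun z hz => (hZ.d2 z hz).differentiableAt.differentiableWithinAt) hS
  have a2' : AnalyticOnNhd ℂ Z.y2' S :=
    DifferentiableOn.analyticOnNhd
      (fun z hz => (hZ.d2' z hz).differentiableAt.differentiableWithinAt) hS
  have f1 : AnalyticAt ℂ (fun q : (ℂ × ℂ) × ℂ => q.1.1) (u, x) := analyticAt_fst.fun_comp analyticAt_fst
  have f2 : AnalyticAt ℂ (fun q : (ℂ × ℂ) × ℂ => q.1.2) (u, x) := analyticAt_snd.fun_comp analyticAt_fst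
  have f3 : AnalyticAt ℂ (fun q : (ℂ × ℂ) × ℂ => q.1.1 + ε * q.1.2) (u, x) :=
    f1.add (analyticAt_const.mul f2)
  have f4 : AnalyticAt ℂ (fun q : (ℂ × ℂ) × ℂ => q.1.1 + ε * q.1.2 + ε * q.2) (u, x) :=
    f3.add (analyticAt_const.mul analyticAt_snd)
  have g1 : ∀ F : ℂ → ℂ, AnalyticOnNhd ℂ F S →
      AnalyticAt ℂ (fun q : (ℂ × ℂ) × ℂ => F q.1.1) (u, x) := fun F hF =>
    AnalyticAt.fun_comp (g := F) (hF _ h1) f1
  have g3 : ∀ F : ℂ → ℂ, AnalyticOnNhd ℂ F S →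
      AnalyticAt ℂ (fun q : (ℂ × ℂ) × ℂ => F (q.1.1 + ε * q.1.2)) (u, x) := fun F hF =>
    AnalyticAt.fun_comp (g := F) (hF _ h2) f3
  have g4 : ∀ F : ℂ → ℂ, AnalyticOnNhd ℂ F S →
      AnalyticAt ℂ (fun q : (ℂ × ℂ) × ℂ => F (q.1.1 + ε * q.1.2 + ε * q.2)) (u, x) := fun F hF =>
    AnalyticAt.fun_comp (g := F) (hF _ h3) f4
  have c4 : AnalyticAt ℂ (fun q : (ℂ × ℂ) × ℂ =>
      Z.c (q.1.1 + ε * q.1.2 + ε * q.2) (q.1.1 + ε * q.1.2)) (u, x) :=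
    ((g3 _ a2').mul (g4 _ a1)).sub ((g3 _ a1').mul (g4 _ a2))
  have c1 : AnalyticAt ℂ (fun q : (ℂ × ℂ) × ℂ => Z.c q.1.1 (q.1.1 + ε * q.1.2)) (u, x) :=
    ((g3 _ a2').mul (g1 _ a1)).sub ((g3 _ a1').mul (g1 _ a2))
  have s4 : AnalyticAt ℂ (fun q : (ℂ × ℂ) × ℂ =>
      Z.s (q.1.1 + ε * q.1.2 + ε * q.2) (q.1.1 + ε * q.1.2)) (u, x) :=
    ((g3 _ a1).mul (g4 _ a2)).sub ((g3 _ a2).mul (g4 _ a1))
  have s1 : AnalyticAt ℂ (fun q : (ℂ × ℂ) × ℂ => Z.s q.1.1 (q.1.1 + ε * q.1.2)) (u, x) :=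
    ((g3 _ a1).mul (g1 _ a2)).sub ((g3 _ a2).mul (g1 _ a1))
  exact (c4.mul s1).add (c1.mul s4)

end Pool.Agent.MP_ae5b4e_an_MT
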