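import Pool.Agent.Lib.MP_ae5b4e_an_MT.Rok
import Pool.Agent.Lib.MP_ae5b4e_an_MT.Sc
import Pool.Agent.Lib.MP_ae5b4e_an_MT.RootE

/-! # MT: the step function -/

noncomputable section

namespace Pool.Agent.MP_ae5b4e_an_MT

open Complex Set Filter Topology Metric
open Pool.Agent.MP_ae5b4e_an_NB2 (Sys)
open Pool.Agent.MP_ae5b4e_an_NB5 (Pn Pn')

variable {U : Ultrafilter ℕ} {Z : ℕ → Sys} {ε : ℕ → ℝ} {D : ℕ → Set (ℂ × ℂ)}
  {L : ℕ → ℂ × ℂ → ℂ} {DI : Set (ℂ × ℂ)} {LI : ℂ × ℂ → ℂ}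

private theorem Stp_on_mono {Y : Sys} {S T : Set ℂ} (h : Y.On S) (hT : T ⊆ S) : Y.On T :=
  ⟨fun z hz => h.d1 z (hT hz), fun z hz => h.d1' z (hT hz), fun z hz => h.d2 z (hT hz),
    fun z hz => h.d2' z (hT hz), fun z hz => h.wr z (hT hz)⟩

/-- points near the label are in the box -/
private theorem Stp_near {d R A A₀ : ℝ} (hd : 0 < d) (hA₀ : 0 ≤ A₀) {u : ℂ × ℂ}
    (hu : u ∈ GG d R A) {z : ℂ} (hz : ‖z - u.1‖ < d / 2) : z ∈ Bx (d / 2) (R + A₀ + d) := by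
  obtain ⟨h1, h2, -⟩ := hu
  have e : z = u.1 + (z - u.1) := by ring
  constructor
  · have h3 : z.im = u.1.im + (z - u.1).im := by
      rw [← add_im, ← e]
    have h4 := (le_abs_self (z - u.1).im).trans (abs_im_le_norm (z - u.1))
    rw [h3]
    linarith
  · have h5 : ‖z‖ ≤ ‖u.1‖ + ‖z - u.1‖ := by
      conv_lhs => rw [e]
      exact norm_add_le _ _
    linarith

/-- for one system -/
private theorem Stp_one {Z : Sys} {e d R A A₀ M r C ω₀ : ℝ} (he : 0 < e) (hd : 0 < d)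
    (hA₀ : 0 ≤ A₀) (hAA : A ≤ A₀) (hM : 0 ≤ M) (hr : 0 < r) (hr1 : r ≤ 1)
    (H : ∀ (Y : Sys) (ω : ℝ), 0 ≤ ω → ω ≤ ω₀ → Y.On (ball 0 (A₀ + 2)) →
      (∀ ζ ∈ ball (0:ℂ) (A₀ + 2), ‖Y.Q ζ‖ ≤ M) →
      (∀ ζ ∈ ball (0:ℂ) (A₀ + 2), ‖Y.Q ζ - Y.Q (-ζ)‖ ≤ ω) → ∀ α : ℂ, ‖α‖ ≤ A₀ →
        (∀ x ∈ closedBall α r, HasDerivAt (fun x => Pn Y 0 (-α) x) (Pn' Y 0 (-α) x) x ∧
          ‖Pn' Y 0 (-α) x - 1‖ ≤ 1 / 2) ∧ ‖Pn Y 0 (-α) α‖ ≤ C * ω ∧ C * ω < r / 2)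
    (hon : Z.On (Bx (d / 2) (R + A₀ + d)))
    (hQ : ∀ z ∈ Bx (d / 2) (R + A₀ + d), ‖Z.Q z‖ * e ^ 2 ≤ M)
    (h1 : e * (A₀ + 2) ≤ d / 32) (h3 : 8 * M * (A₀ + 2) / (d / 4) * e ≤ ω₀) :
    ∃ ξ, Stp Z e d R A r (2 * C * (8 * M * (A₀ + 2) / (d / 4))) ξ := by
  have he' : (e:ℂ) ≠ 0 := by exact_mod_cast he.ne'
  -- the geometry
  have hl : ∀ u ∈ GG d R A, ‖(u.1 + e * u.2) - u.1‖ ≤ d / 32 := by
    intro u hu
    have e1 : (u.1 + e * u.2) - u.1 = e * u.2 := by ring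
    rw [e1, norm_mul, norm_real, Real.norm_of_nonneg he.le]
    have h4 : ‖u.2‖ < A := hu.2.2
    have h5 : e * ‖u.2‖ ≤ e * (A₀ + 2) := mul_le_mul_of_nonneg_left (by linarith) he.le
    linarith
  have hlb : ∀ u ∈ GG d R A, ball (u.1 + e * u.2) (d / 4) ⊆ Bx (d / 2) (R + A₀ + d) := by
    intro u hu z hz
    rw [mem_ball, dist_eq_norm] at hz
    refine Stp_near hd hA₀ hu ?_
    have e1 : z - u.1 = (z - (u.1 + e * u.2)) + ((u.1 + e * u.2) - u.1) := by ring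
    have h4 : ‖z - u.1‖ ≤ ‖z - (u.1 + e * u.2)‖ + ‖(u.1 + e * u.2) - u.1‖ := by
      rw [e1]
      exact norm_add_le _ _
    have h5 := hl u hu
    linarith
  have hP : ∀ (u : ℂ × ℂ) (x : ℂ), Pn Z (u.1 + e * u.2) u.1 (e * x) / e =
      Pn (sc Z (u.1 + e * u.2) e) 0 (-u.2) x := by
    intro u x
    have h4 := Pn_sc Z (u.1 + e * u.2) he (-u.2) x
    have e1 : u.1 + (e:ℂ) * u.2 + e * (-u.2) = u.1 := by ring
    rw [e1] at h4
    rw [h4, mul_div_cancel_left₀ _ he']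
  have hω : 0 ≤ 8 * M * (A₀ + 2) / (d / 4) * e := by positivity
  have hstep : ∀ u ∈ GG d R A,
      (∀ x ∈ closedBall u.2 r,
        HasDerivAt (fun x => Pn (sc Z (u.1 + e * u.2) e) 0 (-u.2) x)
          (Pn' (sc Z (u.1 + e * u.2) e) 0 (-u.2) x) x ∧
        ‖Pn' (sc Z (u.1 + e * u.2) e) 0 (-u.2) x - 1‖ ≤ 1 / 2) ∧
      ‖Pn (sc Z (u.1 + e * u.2) e) 0 (-u.2) u.2‖ ≤ C * (8 * M * (A₀ + 2) / (d / 4) * e) ∧
      C * (8 * M * (A₀ + 2) / (d / 4) * e) < r / 2 := by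
    intro u hu
    have hb := hlb u hu
    obtain ⟨b1, b2⟩ := sc_bd (ρ := A₀ + 2) he (by linarith) (by linarith : (0:ℝ) < d / 4)
      (Stp_on_mono hon hb) (fun z hz => hQ z (hb hz)) (by linarith)
    refine H (sc Z (u.1 + e * u.2) e) _ hω h3 ?_ b1 b2 u.2 (hu.2.2.le.trans hAA)
    refine sc_on he (Stp_on_mono hon ((ball_subset_ball ?_).trans hb))
    linarith
  have hPan : ∀ u ∈ GG d R A, ∀ x ∈ closedBall u.2 r, AnalyticAt ℂ
      (fun q : (ℂ × ℂ) × ℂ => Pn Z (q.1.1 + e * q.1.2) q.1.1 (e * q.2) / e) (u, x) := by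
    intro u hu x hx
    rw [mem_closedBall, dist_eq_norm] at hx
    have h4 : ‖u.2‖ < A := hu.2.2
    refine AnalyticAt.div_const (Pn_an (isOpen_Bx _ _) hon e ?_ ?_ ?_)
    · refine Stp_near hd hA₀ hu ?_
      rw [sub_self, norm_zero]
      linarith
    · refine Stp_near hd hA₀ hu ?_
      have := hl u hu
      linarith
    · refine Stp_near hd hA₀ hu ?_
      have e1 : u.1 + (e:ℂ) * u.2 + e * x - u.1 = e * (2 * u.2 + (x - u.2)) := by ring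
      rw [e1, norm_mul, norm_real, Real.norm_of_nonneg he.le]
      have h5 : ‖2 * u.2 + (x - u.2)‖ ≤ 2 * (A₀ + 2) := by
        have h6 := norm_add_le (2 * u.2) (x - u.2)
        rw [norm_mul] at h6
        have h7 : ‖(2:ℂ)‖ = 2 := by simp
        rw [h7] at h6
        linarith
      have h6 : e * ‖2 * u.2 + (x - u.2)‖ ≤ e * (2 * (A₀ + 2)) :=
        mul_le_mul_of_nonneg_left h5 he.le
      linarith
  obtain ⟨ξ, hξ, hξ'⟩ := rootE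
    (P := fun q : (ℂ × ℂ) × ℂ => Pn Z (q.1.1 + e * q.1.2) q.1.1 (e * q.2) / e)
    (P' := fun q : (ℂ × ℂ) × ℂ => Pn' (sc Z (q.1.1 + e * q.1.2) e) 0 (-q.1.2) q.2)
    (G := GG d R A) (a := fun u => u.2) hr (isOpen_GG d R A) continuous_snd.continuousOn hPan
    (by
      intro u hu x hx
      have h4 := (hstep u hu).1 x hx
      have e1 : (fun x => Pn Z (u.1 + e * u.2) u.1 (e * x) / e) =
          fun x => Pn (sc Z (u.1 + e * u.2) e) 0 (-u.2) x := funext (hP u)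
      refine ⟨?_, h4.2⟩
      change HasDerivAt (fun x => Pn Z (u.1 + e * u.2) u.1 (e * x) / e) _ x
      rw [e1]
      exact h4.1)
    (by
      intro u hu
      have h4 := (hstep u hu).2
      change ‖Pn Z (u.1 + e * u.2) u.1 (e * u.2) / e‖ < r / 2
      rw [hP]
      exact h4.1.trans_lt h4.2)
  refine ⟨ξ, hξ, ?_, ?_, ?_⟩
  · intro u hu
    have h4 : ‖ξ u - u.2‖ ≤ 2 * ‖Pn Z (u.1 + e * u.2) u.1 (e * u.2) / e‖ := (hξ' u hu).1
    rw [hP] at h4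
    have h5 := (hstep u hu).2.1
    calc ‖ξ u - u.2‖ ≤ 2 * ‖Pn (sc Z (u.1 + e * u.2) e) 0 (-u.2) u.2‖ := h4
      _ ≤ 2 * (C * (8 * M * (A₀ + 2) / (d / 4) * e)) := by linarith
      _ = 2 * C * (8 * M * (A₀ + 2) / (d / 4)) * e := by ring
  · intro u hu
    have h4 : Pn Z (u.1 + e * u.2) u.1 (e * ξ u) / e = 0 := (hξ' u hu).2.1
    rw [hP] at h4
    have h5 := (node_iff Z (u.1 + e * u.2) he (-u.2) (ξ u)).2 h4
    have e1 : u.1 + (e:ℂ) * u.2 + e * (-u.2) = u.1 := by ring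
    rw [e1] at h5
    exact h5
  · intro u hu x hx hn
    have e1 : u.1 + (e:ℂ) * u.2 + e * (-u.2) = u.1 := by ring
    have h4 := (node_iff Z (u.1 + e * u.2) he (-u.2) x).1 (by rw [e1]; exact hn)
    rw [← hP] at h4
    exact (hξ' u hu).2.2 x (by rw [mem_closedBall, dist_eq_norm]; exact hx) h4

/-- The step function exists for almost all `n`.

Proof. `M` from `bd (d / 2) (R + A + d)`; `r, C, ω₀` from `step_rok A M` (`A ≥ 0`, else `GG` is empty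
and everything is trivial; take `max M 0`). Let `n` be such that `ε (A + 2) ≤ d / 32`, `ε ≤ 1` and
`8 M (A + 2) / (d / 4) ε ≤ ω₀`. For `u ∈ GG d R A`, `l := u.1 + ε u.2`: `ball l (d / 4)` lies in
`Bx (d / 2) (R + A + d)`. `sc_bd` (disc of radius `d / 4`) gives the hypotheses of `step_rok` for
`sc (Z n) l ε` with `ω = 32 M (A + 2) / d ε`. `rootE` for
`P (u, x) := Pn Z (u.1 + ε u.2) u.1 (ε x) / ε = Pn (sc Z l ε) 0 (- u.2) x` (`Pn_sc`,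
`u.1 = l + ε (- u.2)`), `a u = u.2`. `‖ξ - u.2‖ ≤ 2 C ω = C' ε`; the node relation is
`node_iff`. -/
theorem LS.exists_stp (h : LS U Z ε D L DI LI) {d : ℝ} (hd : 0 < d) (R A : ℝ) :
    ∃ r C : ℝ, 0 < r ∧ 0 ≤ C ∧ ∀ᶠ n in (U : Filter ℕ), ∃ ξ, Stp (Z n) (ε n) d R A r C ξ := by
  set A₀ : ℝ := max A 0 with hA₀
  have hA0 : 0 ≤ A₀ := le_max_right _ _
  have hAA : A ≤ A₀ := le_max_left _ _
  obtain ⟨M', hM'⟩ := h.bd (d / 2) (R + A₀ + d) (half_pos hd)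
  set M : ℝ := max M' 0 with hMdef
  have hM : 0 ≤ M := le_max_right _ _
  obtain ⟨r, C, ω₀, hr, hr1, hC, hω₀, H⟩ := step_rok hA0 hM
  set K : ℝ := 8 * M * (A₀ + 2) / (d / 4) with hK
  have hK0 : 0 ≤ K := by positivity
  refine ⟨r, 2 * C * K, hr, by positivity, ?_⟩
  have hp : 0 < min (d / 32 / (A₀ + 2)) (ω₀ / (K + 1)) := lt_min (by positivity) (by positivity)
  filter_upwards [hM', h.ε_lim.eventually_lt_const hp] with n hn hen
  have he := h.ε_pos n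
  have h1 : ε n * (A₀ + 2) ≤ d / 32 := by
    have h2 : ε n ≤ d / 32 / (A₀ + 2) := hen.le.trans (min_le_left _ _)
    have h3 : ε n * (A₀ + 2) ≤ d / 32 / (A₀ + 2) * (A₀ + 2) :=
      mul_le_mul_of_nonneg_right h2 (by linarith)
    rwa [div_mul_cancel₀ _ (by linarith : A₀ + 2 ≠ 0)] at h3
  have h4 : K * ε n ≤ ω₀ := by
    have h2 : ε n ≤ ω₀ / (K + 1) := hen.le.trans (min_le_right _ _)
    have h3 : (K + 1) * ε n ≤ (K + 1) * (ω₀ / (K + 1)) :=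
      mul_le_mul_of_nonneg_left h2 (by linarith)
    rw [mul_div_cancel₀ _ (by linarith : K + 1 ≠ 0)] at h3
    nlinarith
  exact Stp_one he hd hA0 hAA hM hr hr1 H hn.1
    (fun z hz => (hn.2 z hz).trans (le_max_left _ _)) h1 h4

end Pool.Agent.MP_ae5b4e_an_MT
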