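import Pool.Agent.Lib.MP_ae5b4e_an_MT.Defs

/-! # MT: discrete Gronwall, and the Lipschitz constant of one step -/

noncomputable section

namespace Pool.Agent.MP_ae5b4e_an_MT

open Complex Set Filter Topology Metric
open Pool.Agent.MP_ae5b4e_an_NB2 (Sys)

/-- Proof. `‖y j - x j‖ ≤ κ (1 + j ε) (1 + L ε) ^ j` by induction, and
`(1 + L ε) ^ j ≤ exp (L ε j) ≤ exp (L s₀)`, `j ε ≤ s₀`. -/
theorem gron {E : Type*} [NormedAddCommGroup E] {Φ : E → E} {x y : ℕ → E}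
    {ε L κ ρ s₀ : ℝ} {J : ℕ} (hε : 0 < ε) (hL : 0 ≤ L) (hκ : 0 ≤ κ) (hJ : J * ε ≤ s₀)
    (hx : ∀ j < J, ‖Φ (x j) - x (j + 1)‖ ≤ κ * ε)
    (hΦ : ∀ j < J, ∀ u, ‖u - x j‖ ≤ ρ → ‖Φ u - Φ (x j)‖ ≤ (1 + L * ε) * ‖u - x j‖)
    (h0 : ‖y 0 - x 0‖ ≤ κ) (hy : ∀ j < J, ‖y j - x j‖ ≤ ρ → y (j + 1) = Φ (y j))
    (hρ : κ * (1 + s₀) * Real.exp (L * s₀) ≤ ρ) :
    ∀ j ≤ J, ‖y j - x j‖ ≤ κ * (1 + s₀) * Real.exp (L * s₀) := by
  have hLε : 0 ≤ L * ε := mul_nonneg hL hε.le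
  have hb : ∀ j ≤ J, κ * (1 + j * ε) * (1 + L * ε) ^ j ≤
      κ * (1 + s₀) * Real.exp (L * s₀) := by
    intro j hj
    have h1 : (j : ℝ) * ε ≤ s₀ := by
      have : (j : ℝ) ≤ J := by exact_mod_cast hj
      exact (mul_le_mul_of_nonneg_right this hε.le).trans hJ
    have hj0 : 0 ≤ (j : ℝ) * ε := by positivity
    have h2 : (1 + L * ε) ^ j ≤ Real.exp (L * s₀) := by
      have h3 : 1 + L * ε ≤ Real.exp (L * ε) := by
        have := Real.add_one_le_exp (L * ε)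
        linarith
      calc (1 + L * ε) ^ j ≤ Real.exp (L * ε) ^ j :=
            pow_le_pow_left₀ (by linarith) h3 j
        _ = Real.exp (j * (L * ε)) := (Real.exp_nat_mul _ j).symm
        _ ≤ Real.exp (L * s₀) := by
          apply Real.exp_le_exp.mpr
          have := mul_le_mul_of_nonneg_left h1 hL
          linarith
    have h4 : 0 ≤ (1 + L * ε) ^ j := pow_nonneg (by linarith) j
    have h5 : κ * (1 + j * ε) ≤ κ * (1 + s₀) := mul_le_mul_of_nonneg_left (by linarith) hκ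
    have h6 : 0 ≤ κ * (1 + s₀) := mul_nonneg hκ (by linarith)
    exact mul_le_mul h5 h2 h4 h6
  have key : ∀ j ≤ J, ‖y j - x j‖ ≤ κ * (1 + j * ε) * (1 + L * ε) ^ j := by
    intro j
    induction j with
    | zero =>
      intro _
      simpa using h0
    | succ j ih =>
      intro hj
      have hj' : j < J := hj
      have h1 := ih hj'.le
      have h2 : ‖y j - x j‖ ≤ ρ := (h1.trans (hb j hj'.le)).trans hρ
      rw [hy j hj' h2]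
      have h3 : ‖Φ (y j) - x (j + 1)‖ ≤ ‖Φ (y j) - Φ (x j)‖ + ‖Φ (x j) - x (j + 1)‖ := by
        have : Φ (y j) - x (j + 1) = (Φ (y j) - Φ (x j)) + (Φ (x j) - x (j + 1)) := by abel
        rw [this]
        exact norm_add_le _ _
      have h4 := hΦ j hj' (y j) h2
      have h5 := hx j hj'
      have h6 : (1 : ℝ) ≤ (1 + L * ε) ^ (j + 1) := one_le_pow₀ (by linarith)
      have h7 : (1 + L * ε) * ‖y j - x j‖ ≤
          (1 + L * ε) * (κ * (1 + j * ε) * (1 + L * ε) ^ j) :=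
        mul_le_mul_of_nonneg_left h1 (by linarith)
      have h8 : κ * ε ≤ κ * ε * (1 + L * ε) ^ (j + 1) :=
        le_mul_of_one_le_right (mul_nonneg hκ hε.le) h6
      calc ‖Φ (y j) - x (j + 1)‖ ≤ (1 + L * ε) * (κ * (1 + j * ε) * (1 + L * ε) ^ j) +
            κ * ε * (1 + L * ε) ^ (j + 1) := by linarith
        _ = κ * (1 + ((j + 1 : ℕ) : ℝ) * ε) * (1 + L * ε) ^ (j + 1) := by
          push_cast
          rw [pow_succ]
          ring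
  exact fun j hj => (key j hj).trans (hb j hj)

private theorem gro_sub {d R A δ : ℝ} {w : ℂ × ℂ} (hw : w ∈ GG (d + δ) (R - δ) (A - δ)) :
    ball w δ ⊆ GG d R A := by
  intro q hq
  obtain ⟨h1, h2, h3⟩ := hw
  rw [mem_ball, dist_eq_norm] at hq
  have h4 : ‖q.1 - w.1‖ ≤ ‖q - w‖ := norm_fst_le (q - w)
  have h5 : ‖q.2 - w.2‖ ≤ ‖q - w‖ := norm_snd_le (q - w)
  have h6 : (q.1 - w.1).im ≤ ‖q.1 - w.1‖ := (le_abs_self _).trans (abs_im_le_norm _)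
  rw [sub_im] at h6
  have h7 : ‖q.1‖ ≤ ‖q.1 - w.1‖ + ‖w.1‖ := by
    have := norm_add_le (q.1 - w.1) w.1
    rwa [sub_add_cancel] at this
  have h8 : ‖q.2‖ ≤ ‖q.2 - w.2‖ + ‖w.2‖ := by
    have := norm_add_le (q.2 - w.2) w.2
    rwa [sub_add_cancel] at this
  exact ⟨by linarith, by linarith, by linarith⟩

/-- Proof. `‖u - w‖ < δ / 4`; `ball w δ ⊆ GG d R A` (sup norm). `ξ u - u.2` is analytic and bounded by
`C ε` on `ball w δ`: `lip_of_bdd`: `‖(ξ u - u.2) - (ξ w - w.2)‖ ≤ 4 C ε / δ ‖u - w‖`. -/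
theorem Stp.lip {Z : Sys} {ε d R A r C : ℝ} {ξ : ℂ × ℂ → ℂ} (h : Stp Z ε d R A r C ξ)
    {δ : ℝ} (hδ : 0 < δ) {w u : ℂ × ℂ} (hw : w ∈ GG (d + δ) (R - δ) (A - δ))
    (hu : ‖u - w‖ < δ / 4) :
    ‖(ξ u - u.2) - (ξ w - w.2)‖ ≤ 4 * (C * ε) / δ * ‖u - w‖ := by
  have hsub := gro_sub hw
  have hf : AnalyticOnNhd ℂ (fun q : ℂ × ℂ => ξ q - q.2) (ball w δ) := fun q hq =>
    (h.an q (hsub hq)).sub analyticAt_snd
  exact Pool.Agent.MP_ae5b4e_an_M.lip_of_bdd hδ hf (fun q hq => h.bd q (hsub hq))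
    (mem_ball_self (by linarith)) (by rwa [mem_ball, dist_eq_norm])

/-- Proof. First component: `‖u.1 - w.1‖ + ε ‖u.2 - w.2‖ ≤ (1 + ε) ‖u - w‖`; second:
`‖ξ u - ξ w‖ ≤ ‖u.2 - w.2‖ + 4 C ε / δ ‖u - w‖` (`Stp.lip`). -/
theorem Stp.lip' {Z : Sys} {ε d R A r C : ℝ} {ξ : ℂ × ℂ → ℂ} (h : Stp Z ε d R A r C ξ)
    (hε : 0 < ε) (hC : 0 ≤ C) {δ : ℝ} (hδ : 0 < δ) {w u : ℂ × ℂ}
    (hw : w ∈ GG (d + δ) (R - δ) (A - δ)) (hu : ‖u - w‖ < δ / 4) :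
    ‖Ph ε ξ u - Ph ε ξ w‖ ≤ (1 + max 1 (4 * C / δ) * ε) * ‖u - w‖ := by
  have h1 := Stp.lip h hδ hw hu
  have h4 : ‖u.1 - w.1‖ ≤ ‖u - w‖ := norm_fst_le (u - w)
  have h5 : ‖u.2 - w.2‖ ≤ ‖u - w‖ := norm_snd_le (u - w)
  have hn : 0 ≤ ‖u - w‖ := norm_nonneg _
  have hm1 : 1 * (ε * ‖u - w‖) ≤ max 1 (4 * C / δ) * (ε * ‖u - w‖) :=
    mul_le_mul_of_nonneg_right (le_max_left _ _) (by positivity)
  have hm2 : 4 * C / δ * (ε * ‖u - w‖) ≤ max 1 (4 * C / δ) * (ε * ‖u - w‖) :=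
    mul_le_mul_of_nonneg_right (le_max_right _ _) (by positivity)
  refine max_le ?_ ?_
  · have e : (Ph ε ξ u - Ph ε ξ w).1 = (u.1 - w.1) + ε * (u.2 - w.2) := by
      simp only [Ph, Prod.mk_sub_mk]
      ring
    rw [e]
    refine (norm_add_le _ _).trans ?_
    rw [norm_mul, norm_real, Real.norm_eq_abs, abs_of_pos hε]
    have := mul_le_mul_of_nonneg_left h5 hε.le
    linarith
  · have e : (Ph ε ξ u - Ph ε ξ w).2 = ((ξ u - u.2) - (ξ w - w.2)) + (u.2 - w.2) := by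
      simp only [Ph, Prod.mk_sub_mk]
      ring
    rw [e]
    refine (norm_add_le _ _).trans ?_
    have e2 : 4 * (C * ε) / δ * ‖u - w‖ = 4 * C / δ * (ε * ‖u - w‖) := by
      field_simp
    rw [e2] at h1
    linarith

end Pool.Agent.MP_ae5b4e_an_MT
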