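import Pool.Agent.Lib.MP_ae5b4e_an_MT.Dif
import Pool.Agent.Lib.MP_ae5b4e_an_MT.Gro

/-! # MT: the true chain on compact sets of the limit domain -/

noncomputable section

namespace Pool.Agent.MP_ae5b4e_an_MT

open Complex Set Filter Topology Metric
open Pool.Agent.MP_ae5b4e_an_NB2 (Sys)

variable {U : Ultrafilter ℕ} {Z : ℕ → Sys} {ε : ℕ → ℝ} {D : ℕ → Set (ℂ × ℂ)}
  {L : ℕ → ℂ × ℂ → ℂ} {DI : Set (ℂ × ℂ)} {LI : ℂ × ℂ → ℂ}

/-- geometry around a compact set -/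
private theorem Chn_geo {Ω K : Set (ℂ × ℂ)} (hΩ : IsOpen Ω) (hK : IsCompact K) (hKΩ : K ⊆ Ω) :
    ∃ (ρ G : ℝ) (K₁ : Set (ℂ × ℂ)), 0 < ρ ∧ 0 ≤ G ∧ IsCompact K₁ ∧ K₁ ⊆ Ω ∧
      (∀ p ∈ K, ball p ρ ⊆ K₁) ∧ ∀ p ∈ K, ‖p.2‖ ≤ G := by
  obtain ⟨δ, hδ, hδK⟩ := hK.exists_cthickening_subset_open hΩ hKΩ
  obtain ⟨G, hG⟩ := hK.exists_bound_of_continuousOn (f := fun p : ℂ × ℂ => p.2)
    continuous_snd.continuousOn
  refine ⟨δ, max G 0, cthickening δ K, hδ, le_max_right _ _, hK.cthickening, hδK, ?_, ?_⟩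
  · intro p hp
    exact (ball_subset_thickening hp δ).trans (thickening_subset_cthickening δ K)
  · intro p hp
    exact (hG p hp).trans (le_max_left _ _)

private theorem Chn_small (hlim : Tendsto ε U (𝓝 0)) {ρ G : ℝ} (hρ : 0 < ρ) :
    ∀ᶠ n in (U : Filter ℕ), 8 * (ε n * (G + ρ)) < ρ := by
  have h1 : Tendsto (fun n => 8 * (ε n * (G + ρ))) U (𝓝 (8 * (0 * (G + ρ)))) :=
    (hlim.mul_const _).const_mul _
  rw [zero_mul, mul_zero] at h1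
  exact h1.eventually (gt_mem_nhds hρ)

private theorem Chn_Sh {s ρ : ℝ} {p : ℂ × ℂ} (hs : 0 < s) (h : s * ‖p.2‖ < ρ) :
    Sh s p ∈ ball p ρ := by
  rw [mem_ball, dist_eq_norm]
  have h1 : Sh s p - p = ((s : ℂ) * p.2, 0) := by
    ext <;> simp [Sh]
  rw [h1, Prod.norm_mk, norm_zero, norm_mul, Complex.norm_real, Real.norm_of_nonneg hs.le]
  exact max_lt h (lt_of_le_of_lt (mul_nonneg hs.le (norm_nonneg _)) h)

private theorem Chn_Sh2 {s ρ : ℝ} {p : ℂ × ℂ} (hs : 0 < s) (h : 2 * (s * ‖p.2‖) < ρ) :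
    Sh s (Sh s p) ∈ ball p ρ := by
  rw [Sh_Sh]
  refine Chn_Sh (by positivity) ?_
  have : (s + s) * ‖p.2‖ = 2 * (s * ‖p.2‖) := by ring
  rw [this]
  exact h

/-- Bounds for the difference quotients of a fixed analytic function on a compact set, and the state
is in a fixed compact set of states with negative imaginary part.

Proof. `K₁ := cthickening (2 ρ) K ⊆ Ω` compact (`IsCompact.exists_cthickening_subset_open`), `ρ ≤ 1`;
`Λ` is bounded by `B` on `K₁` (continuous), `Im Λ ≤ - 2 d' < 0` on `K`, `‖p.2‖ ≤ G` on `K`. For `n` with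
`8 ε (G + ρ) < ρ`: `dq_bd`, `dq_dq_bd` with radius `ρ`. `d := d'`, `δ := min (d' / 2) 1`,
`R := B + 2`, `A := 4 B / ρ G + 2`, `C := max ..`. -/
theorem exists_box (hε : ∀ n, 0 < ε n) (hlim : Tendsto ε U (𝓝 0)) {Ω K : Set (ℂ × ℂ)}
    (hΩ : IsOpen Ω) {Λ : ℂ × ℂ → ℂ} (hΛ : AnalyticOnNhd ℂ Λ Ω) (hm : ∀ p ∈ Ω, (Λ p).im < 0)
    (hK : IsCompact K) (hKΩ : K ⊆ Ω) :
    ∃ d R A δ C : ℝ, 0 < d ∧ 0 < δ ∧ 0 ≤ C ∧ ∀ᶠ n in (U : Filter ℕ), ∀ p ∈ K,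
      stt Λ (ε n) p ∈ GG (d + δ) (R - δ) (A - δ) ∧ ‖dq (ε n) (dq (ε n) Λ) p‖ ≤ C ∧
      Sh (ε n) p ∈ Ω ∧ Sh (ε n) (Sh (ε n) p) ∈ Ω := by
  obtain ⟨ρ, G, K₁, hρ, hG0, hK₁, hK₁Ω, hball, hG⟩ := Chn_geo hΩ hK hKΩ
  obtain ⟨B, hB⟩ := hK₁.exists_bound_of_continuousOn (hΛ.continuousOn.mono hK₁Ω)
  have hKK : ∀ p ∈ K, p ∈ K₁ := fun p hp => hball p hp (mem_ball_self hρ)
  obtain ⟨c, hc, hcK⟩ : ∃ c : ℝ, 0 < c ∧ ∀ p ∈ K, (Λ p).im ≤ -c := by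
    rcases K.eq_empty_or_nonempty with h0 | h0
    · exact ⟨1, one_pos, fun p hp => by rw [h0] at hp; exact absurd hp (notMem_empty p)⟩
    · obtain ⟨p0, hp0, hmax⟩ := hK.exists_isMaxOn h0
        (f := fun p => (Λ p).im) (continuous_im.comp_continuousOn (hΛ.continuousOn.mono hKΩ))
      refine ⟨-(Λ p0).im, neg_pos.2 (hm p0 (hKΩ hp0)), fun p hp => ?_⟩
      rw [neg_neg]
      exact hmax hp
  have hB0 : ∀ p ∈ K, 0 ≤ B := fun p hp => (norm_nonneg _).trans (hB p (hKK p hp))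
  refine ⟨c / 4, B + 2, 4 * |B| / ρ * G + 2, min (c / 4) 1, 64 * |B| * (G + ρ) ^ 2 / ρ ^ 2,
    by positivity, lt_min (by positivity) one_pos, by positivity, ?_⟩
  filter_upwards [Chn_small hlim (G := G) hρ] with n hn p hp
  have hB' : 0 ≤ B := hB0 p hp
  have hεn := hε n
  have hpG := hG p hp
  have hp0 : 0 ≤ ‖p.2‖ := norm_nonneg _
  have e1 : ε n * ‖p.2‖ ≤ ε n * (G + ρ) := mul_le_mul_of_nonneg_left (by linarith) hεn.le
  have e0 : 0 ≤ ε n * ‖p.2‖ := mul_nonneg hεn.le hp0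
  have han : AnalyticOnNhd ℂ Λ (ball p ρ) := hΛ.mono ((hball p hp).trans hK₁Ω)
  have hbd : ∀ q ∈ ball p ρ, ‖Λ q‖ ≤ |B| := fun q hq =>
    (hB q (hball p hp hq)).trans (le_abs_self B)
  have h1 := dq_bd hρ han hbd hεn (by linarith)
  have e2 : 8 * (ε n * (‖p.2‖ + ρ)) < ρ := by
    have : ε n * (‖p.2‖ + ρ) ≤ ε n * (G + ρ) := mul_le_mul_of_nonneg_left (by linarith) hεn.le
    linarith
  have h2 := dq_dq_bd hρ han hbd hεn e2
  have hδ1 : min (c / 4) 1 ≤ 1 := min_le_right _ _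
  have hδ2 : min (c / 4) 1 ≤ c / 4 := min_le_left _ _
  refine ⟨⟨?_, ?_, ?_⟩, h2.trans ?_, ?_, ?_⟩
  · have := hcK p hp
    change (Λ p).im < _
    linarith
  · have := hB p (hKK p hp)
    change ‖Λ p‖ < _
    linarith
  · have h3 : 4 * |B| / ρ * ‖p.2‖ ≤ 4 * |B| / ρ * G := by gcongr
    change ‖dq (ε n) Λ p‖ < _
    linarith
  · gcongr
  · exact hK₁Ω (hball p hp (Chn_Sh hεn (by linarith)))
  · exact hK₁Ω (hball p hp (Chn_Sh2 hεn (by linarith)))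

/-- The labels are close to the limit, with their first and second difference quotients.

Proof. `K₁ := cthickening (2 ρ) K ⊆ DI` compact, `ρ ≤ 1`, `‖p.2‖ ≤ G` on `K`. For almost all `n`:
`K₁ ⊆ D n`, `‖L n - LI‖ ≤ η` on `K₁`, `8 ε (G + ρ) < ρ`. For `p ∈ K` the function `f = L n - LI` is
analytic on `ball p ρ` and bounded by `η`; `dq` is linear; `dq_bd`, `dq_dq_bd`. The norm of
`ℂ × ℂ` is the maximum. -/
theorem LS.near (h : LS U Z ε D L DI LI) {K : Set (ℂ × ℂ)} (hK : IsCompact K) (hKD : K ⊆ DI)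
    {κ : ℝ} (hκ : 0 < κ) : ∀ᶠ n in (U : Filter ℕ), ∀ p ∈ K,
      p ∈ D n ∧ Sh (ε n) p ∈ D n ∧ Sh (ε n) (Sh (ε n) p) ∈ D n ∧
      ‖stt (L n) (ε n) p - stt LI (ε n) p‖ ≤ κ ∧
      ‖dq (ε n) (dq (ε n) (L n)) p - dq (ε n) (dq (ε n) LI) p‖ ≤ κ := by
  obtain ⟨ρ, G, K₁, hρ, hG0, hK₁, hK₁Ω, hball, hG⟩ := Chn_geo h.DI_open hK hKD
  obtain ⟨T, hT⟩ : ∃ T : ℝ, T = 1 + 4 / ρ * G + 64 * (G + ρ) ^ 2 / ρ ^ 2 := ⟨_, rfl⟩
  have hT1 : 1 ≤ T := by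
    have h1 : 0 ≤ 4 / ρ * G := by positivity
    have h2 : 0 ≤ 64 * (G + ρ) ^ 2 / ρ ^ 2 := by positivity
    linarith
  have hT0 : 0 < T := by linarith
  filter_upwards [Chn_small h.ε_lim (G := G) hρ, h.sub K₁ hK₁Ω hK₁,
    h.conv K₁ hK₁Ω hK₁ (κ / T) (by positivity)] with n hn hsub hconv p hp
  have hεn := h.ε_pos n
  have hpG := hG p hp
  have hp0 : 0 ≤ ‖p.2‖ := norm_nonneg _
  have e1 : ε n * ‖p.2‖ ≤ ε n * (G + ρ) := mul_le_mul_of_nonneg_left (by linarith) hεn.le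
  have e0 : 0 ≤ ε n * ‖p.2‖ := mul_nonneg hεn.le hp0
  have e2 : 8 * (ε n * (‖p.2‖ + ρ)) < ρ := by
    have : ε n * (‖p.2‖ + ρ) ≤ ε n * (G + ρ) := mul_le_mul_of_nonneg_left (by linarith) hεn.le
    linarith
  have hpK : p ∈ K₁ := hball p hp (mem_ball_self hρ)
  have han : AnalyticOnNhd ℂ (fun q => L n q - LI q) (ball p ρ) :=
    ((h.an n).mono ((hball p hp).trans hsub)).sub (h.LI_an.mono ((hball p hp).trans hK₁Ω))
  have hbd : ∀ q ∈ ball p ρ, ‖L n q - LI q‖ ≤ κ / T := fun q hq => hconv q (hball p hp hq)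
  have h1 := dq_bd hρ han hbd hεn (by linarith)
  have h2 := dq_dq_bd hρ han hbd hεn e2
  have hκT : 0 < κ / T := by positivity
  have hTκ : κ / T * T = κ := by field_simp
  have l1 : ∀ f g : ℂ × ℂ → ℂ, dq (ε n) (fun q => f q - g q) =
      fun q => dq (ε n) f q - dq (ε n) g q := by
    intro f g
    funext q
    unfold dq
    ring
  refine ⟨hsub hpK, hsub (hball p hp (Chn_Sh hεn (by linarith))),
    hsub (hball p hp (Chn_Sh2 hεn (by linarith))), ?_, ?_⟩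
  · have e3 : stt (L n) (ε n) p - stt LI (ε n) p =
        (L n p - LI p, dq (ε n) (fun q => L n q - LI q) p) := by
      rw [l1]
      rfl
    rw [e3, Prod.norm_mk]
    refine max_le ?_ (h1.trans ?_)
    · refine (hconv p hpK).trans ?_
      calc κ / T = κ / T * 1 := (mul_one _).symm
        _ ≤ κ / T * T := by gcongr
        _ = κ := hTκ
    · calc 4 * (κ / T) / ρ * ‖p.2‖ = κ / T * (4 / ρ * ‖p.2‖) := by ring
        _ ≤ κ / T * T := by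
          refine mul_le_mul_of_nonneg_left ?_ hκT.le
          have h3 : 4 / ρ * ‖p.2‖ ≤ 4 / ρ * G := by gcongr
          have h4 : 0 ≤ 64 * (G + ρ) ^ 2 / ρ ^ 2 := by positivity
          linarith
        _ = κ := hTκ
  · rw [l1, l1] at h2
    refine h2.trans ?_
    calc 64 * (κ / T) * (‖p.2‖ + ρ) ^ 2 / ρ ^ 2 = κ / T * (64 * (‖p.2‖ + ρ) ^ 2 / ρ ^ 2) := by
          ring
      _ ≤ κ / T * T := by
        refine mul_le_mul_of_nonneg_left ?_ hκT.le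
        have h3 : 64 * (‖p.2‖ + ρ) ^ 2 / ρ ^ 2 ≤ 64 * (G + ρ) ^ 2 / ρ ^ 2 := by gcongr
        have h4 : 0 ≤ 4 / ρ * G := by positivity
        linarith
      _ = κ := hTκ

/-- The true chain.

Proof. `LS.near` with `κ = δ / 2`, so `stt (L n) ∈ GG d R A`; `‖dq (dq LI)‖ ≤ C` on `K` by
`exists_box` (for `Ω = DI`, `Λ = LI`), so `‖dq (dq (L n))‖ ≤ C + δ`. First components:
`L p + ε ((L (Sh ε p) - L p) / ε) = L (Sh ε p)`. Second: `x := (L (Sh ε (Sh ε p)) - L (Sh ε p)) / ε`,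
`‖x - u.2‖ = ε ‖dq (dq L) p‖ ≤ ε (C + δ) ≤ r`; `Stp.uniq`, the node relation of `LS.node` at
`Sh ε p` (`Sh (-ε) (Sh ε p) = p`). -/
theorem LS.chain (h : LS U Z ε D L DI LI) {K : Set (ℂ × ℂ)} (hK : IsCompact K) (hKD : K ⊆ DI)
    {d R A δ r : ℝ} (hδ : 0 < δ) (hr : 0 < r)
    (hG : ∀ᶠ n in (U : Filter ℕ), ∀ p ∈ K, stt LI (ε n) p ∈ GG (d + δ) (R - δ) (A - δ)) :
    ∀ᶠ n in (U : Filter ℕ), ∀ p ∈ K, stt (L n) (ε n) p ∈ GG d R A ∧
      ∀ (C : ℝ) (ξ : ℂ × ℂ → ℂ), Stp (Z n) (ε n) d R A r C ξ →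
        stt (L n) (ε n) (Sh (ε n) p) = Ph (ε n) ξ (stt (L n) (ε n) p) := by
  obtain ⟨_, _, _, _, C₀, _, _, hC₀, hbox⟩ :=
    exists_box h.ε_pos h.ε_lim h.DI_open h.LI_an h.LI_im hK hKD
  have hsm : ∀ᶠ n in (U : Filter ℕ), ε n * (C₀ + δ) < r := by
    have h1 : Tendsto (fun n => ε n * (C₀ + δ)) U (𝓝 (0 * (C₀ + δ))) := h.ε_lim.mul_const _
    rw [zero_mul] at h1
    exact h1.eventually (gt_mem_nhds hr)
  filter_upwards [hG, hbox, hsm, h.near hK hKD (half_pos hδ)] with n hn hb hs hnear p hp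
  obtain ⟨d1, d2, d3, k1, k2⟩ := hnear p hp
  obtain ⟨g1, g2, g3⟩ := hn p hp
  have hεn := h.ε_pos n
  have hεc : (ε n : ℂ) ≠ 0 := by exact_mod_cast hεn.ne'
  obtain ⟨u, hu⟩ : ∃ u, u = stt (L n) (ε n) p := ⟨_, rfl⟩
  obtain ⟨v, hv⟩ : ∃ v, v = stt LI (ε n) p := ⟨_, rfl⟩
  rw [← hu, ← hv] at k1
  rw [← hv] at g1 g2 g3
  have k3 : ‖u.1 - v.1‖ ≤ δ / 2 := (norm_fst_le (u - v)).trans k1
  have k4 : ‖u.2 - v.2‖ ≤ δ / 2 := (norm_snd_le (u - v)).trans k1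
  have hGG : u ∈ GG d R A := by
    refine ⟨?_, ?_, ?_⟩
    · have h1 : (u.1 - v.1).im ≤ δ / 2 := ((le_abs_self _).trans (abs_im_le_norm _)).trans k3
      rw [sub_im] at h1
      linarith
    · have h1 : ‖u.1‖ ≤ ‖u.1 - v.1‖ + ‖v.1‖ := by
        have := norm_add_le (u.1 - v.1) v.1
        rwa [sub_add_cancel] at this
      linarith
    · have h1 : ‖u.2‖ ≤ ‖u.2 - v.2‖ + ‖v.2‖ := by
        have := norm_add_le (u.2 - v.2) v.2
        rwa [sub_add_cancel] at this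
      linarith
  rw [← hu]
  refine ⟨hGG, fun C ξ hξ => ?_⟩
  have a1 : u.1 + ε n * u.2 = L n (Sh (ε n) p) := by
    rw [hu]
    change L n p + ε n * ((L n (Sh (ε n) p) - L n p) / ε n) = L n (Sh (ε n) p)
    rw [mul_div_cancel₀ _ hεc]
    ring
  obtain ⟨x, hx⟩ : ∃ x, x = (L n (Sh (ε n) (Sh (ε n) p)) - L n (Sh (ε n) p)) / ε n := ⟨_, rfl⟩
  have a2 : u.1 + ε n * u.2 + ε n * x = L n (Sh (ε n) (Sh (ε n) p)) := by
    rw [a1, hx, mul_div_cancel₀ _ hεc]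
    ring
  have a3 : x - u.2 = ε n * dq (ε n) (dq (ε n) (L n)) p := by
    rw [hx, hu]
    change _ = ε n * ((dq (ε n) (L n) (Sh (ε n) p) - dq (ε n) (L n) p) / ε n)
    rw [mul_div_cancel₀ _ hεc]
    rfl
  have a4 : ‖x - u.2‖ ≤ r := by
    rw [a3, norm_mul, Complex.norm_real, Real.norm_of_nonneg hεn.le]
    have h1 : ‖dq (ε n) (dq (ε n) (L n)) p‖ ≤ C₀ + δ := by
      have h2 := norm_add_le (dq (ε n) (dq (ε n) (L n)) p - dq (ε n) (dq (ε n) LI) p)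
        (dq (ε n) (dq (ε n) LI) p)
      rw [sub_add_cancel] at h2
      have h3 := (hb p hp).2.1
      linarith
    exact (mul_le_mul_of_nonneg_left h1 hεn.le).trans hs.le
  have a5 : Sh (-ε n) (Sh (ε n) p) = p := by
    rw [Sh_Sh, neg_add_cancel, Sh_zero]
  have a6 := h.node n (Sh (ε n) p) d2 d3 (by rw [a5]; exact d1)
  rw [a5] at a6
  have a7 : (Z n).node (u.1 + ε n * u.2) (u.1 + ε n * u.2 + ε n * x) u.1 := by
    rw [a2, a1, hu]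
    exact a6
  have a8 := hξ.uniq u hGG x a4 a7
  have a9 : Ph (ε n) ξ u = (u.1 + ε n * u.2, ξ u) := rfl
  rw [a9, a1, ← a8, hx]
  rfl

end Pool.Agent.MP_ae5b4e_an_MT
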