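import Pool.Agent.Lib.MP_ae5b4e_an_MT.M9A

/-! # MT: macro-regular points (M9), (M10) -/

noncomputable section

namespace Pool.Agent.MP_ae5b4e_an_MT

open Complex Set Filter Topology Metric
open Pool.Agent.MP_ae5b4e_an_NBT (St Mer EqM)
open Pool.Agent.MP_ae5b4e_an_NB2 (Sys)
open Pool.Agent.MP_ae5b4e_an_N5 (NV)
open Pool.Agent.MP_ae5b4e_an_PB
open Pool.Agent.MP_ae5b4e_an_M
open PorTR (Hm)

variable {Y : Sys} {h R C0 : ℝ} {v : ℂ → ℝ} {G L : ℂ × ℂ → ℂ} {U : Ultrafilter ℕ} {β C1 : ℝ}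
  {c V : ℕ → ℝ}

theorem m9_wp_down (h : ℝ) (x c V : ℕ → ℝ) (n : ℕ) (p : ℂ × ℂ) (s : ℝ) :
    wp h x c V n (p.1 - s * I, p.2) =
      ((wp h x c V n p).1 + ((-(V n * s) : ℝ) : ℂ) * I, (wp h x c V n p).2) := by
  unfold wp pt
  ext
  · push_cast
    ring
  · rfl

theorem m9_wp_cont (h : ℝ) (x c V : ℕ → ℝ) (n : ℕ) : Continuous (wp h x c V n) := by
  unfold wp pt
  fun_prop

theorem m9_wq_cont (h : ℝ) (x c V : ℕ → ℝ) (n : ℕ) : Continuous (wq h x c V n) := by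
  unfold wq
  fun_prop

theorem m9_wq_an (h : ℝ) (x c V : ℕ → ℝ) (n : ℕ) (p : ℂ × ℂ) :
    AnalyticAt ℂ (wq h x c V n) p := by
  unfold wq
  exact ((analyticAt_fst.sub analyticAt_const).div_const).prod (analyticAt_snd.div_const)

theorem m9_L_wp (HW : Win v U β C1 c V) (h : ℝ) (x : ℕ → ℝ) (n : ℕ) (p : ℂ × ℂ) :
    pt h x V n (Ln L h x c V n p) = L (wp h x c V n p) := by
  have hV : (V n : ℂ) ≠ 0 := by exact_mod_cast (HW.V_pos n).ne'
  unfold Ln wp pt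
  field_simp
  ring

theorem m9_eq (HW : Win v U β C1 c V) (h : ℝ) (x : ℕ → ℝ) (n : ℕ) {M : ℂ × ℂ → ℂ} {q : ℂ × ℂ}
    (hM : M =ᶠ[𝓝 (wq h x c V n q)] Ln L h x c V n) :
    (fun q => pt h x V n (M (wq h x c V n q))) =ᶠ[𝓝 q] L := by
  have h1 := (m9_wq_cont h x c V n).continuousAt (x := q) |>.eventually hM
  filter_upwards [h1] with w hw
  rw [hw, m9_L_wp HW, wp_wq HW]

/-- Regularity in window coordinates.

Proof. `regF_of` with `B = wp '' B₁` (open, connected: `wp` is a homeomorphism with inverse `wq`),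
`B' = wp '' B₁'`, and the function `q ↦ pt (M (wq q))`; `L (wp p) = pt (Ln p)`. If `B' ∩ DFU` is empty then
`RegF` holds with `g = 0`, `N = B'`. Otherwise `hd` at one of its points gives `hne`. -/
theorem regF_win (hB : Base Y h R C0 v G L) (HW : Win v U β C1 c V) (x : ℕ → ℝ) (n : ℕ)
    {B B' : Set (ℂ × ℂ)} (hBo : IsOpen B) (hBc : IsPreconnected B) (hB' : IsOpen B')
    (hBB : B' ⊆ B) {M : ℂ × ℂ → ℂ} (hM : AnalyticOnNhd ℂ M B)
    (hm : ∀ p ∈ B, pt h x V n (M p) ∈ St (-h) h)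
    (hd : ∀ p ∈ B', wp h x c V n p ∈ DFU v h R → ∃ s : ℝ, 0 ≤ s ∧
      (∀ s' ∈ Icc 0 s, (p.1 - s' * I, p.2) ∈ B ∧ 0 < h + V n * (p.1.im - s')) ∧
        (p.1 - s * I, p.2) ∈ Dn v h R x c V n ∧
        M =ᶠ[𝓝 (p.1 - s * I, p.2)] Ln L h x c V n) :
    ∀ p ∈ B', RegF v h R G (wp h x c V n p) := by
  have hV := HW.V_pos n
  have hcq := m9_wq_cont h x c V n
  have hcp := m9_wp_cont h x c V n
  have hpre : wq h x c V n ⁻¹' B = wp h x c V n '' B := by
    ext q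
    constructor
    · intro hq
      exact ⟨_, hq, wp_wq HW h x n q⟩
    · rintro ⟨p, hp, rfl⟩
      show wq h x c V n (wp h x c V n p) ∈ B
      rw [wq_wp HW]
      exact hp
  by_cases hex : ∃ p ∈ B', wp h x c V n p ∈ DFU v h R
  · have key := regF_of hB (B := wq h x c V n ⁻¹' B) (B' := wq h x c V n ⁻¹' B')
      (M := fun q => pt h x V n (M (wq h x c V n q))) (hBo.preimage hcq)
      (by rw [hpre]; exact hBc.image _ hcp.continuousOn) (hB'.preimage hcq)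
      (preimage_mono hBB) ?_ ?_ ?_ ?_
    · intro p hp
      apply key
      show wq h x c V n (wp h x c V n p) ∈ B'
      rw [wq_wp HW]
      exact hp
    · intro q hq
      have h1 : AnalyticAt ℂ (fun q => M (wq h x c V n q)) q :=
        AnalyticAt.comp (g := M) (f := wq h x c V n) (hM _ hq) (m9_wq_an h x c V n q)
      unfold pt
      exact analyticAt_const.add (analyticAt_const.mul h1)
    · intro q hq
      exact hm _ hq
    · obtain ⟨p, hp1, hp2⟩ := hex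
      obtain ⟨s, hs, h1, h2, h3⟩ := hd p hp1 hp2
      refine ⟨wp h x c V n (p.1 - s * I, p.2), ⟨?_, h2⟩, ?_⟩
      · show wq h x c V n (wp h x c V n _) ∈ B
        rw [wq_wp HW]
        exact (h1 s ⟨hs, le_rfl⟩).1
      · apply m9_eq HW h x n
        rw [wq_wp HW]
        exact h3
    · rintro q ⟨hq1, hq2⟩
      have e1 := wp_wq HW h x n q
      obtain ⟨s, hs, h1, h2, h3⟩ := hd (wq h x c V n q) hq1 (by rw [e1]; exact hq2)
      have e2 : ∀ s' : ℝ, ((q.1 - ((V n * s' : ℝ) : ℂ) * I, q.2) : ℂ × ℂ) =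
          wp h x c V n ((wq h x c V n q).1 - s' * I, (wq h x c V n q).2) := by
        intro s'
        rw [m9_wp_down, e1]
        ext
        · push_cast; ring
        · rfl
      refine ⟨V n * s, by positivity, ?_, ?_, ?_⟩
      · intro s' hs'
        have hs2 : s' / V n ∈ Icc 0 s := by
          constructor
          · exact div_nonneg hs'.1 hV.le
          · rw [div_le_iff₀ hV, mul_comm]
            exact hs'.2
        have hs3 : V n * (s' / V n) = s' := by field_simp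
        obtain ⟨h4, h5⟩ := h1 _ hs2
        constructor
        · show wq h x c V n (q.1 - s' * I, q.2) ∈ B
          have h6 := e2 (s' / V n)
          rw [hs3] at h6
          rw [h6, wq_wp HW]
          exact h4
        · have h6 : ((q.1 - s' * I, q.2) : ℂ × ℂ) = (q.1 + (-(s' * I)), q.2) := by
            rw [sub_eq_add_neg]
          rw [h6]
          apply DFU_down hq2
          · simp
            exact hs'.1
          · have h7 : q.1.im = h + V n * (wq h x c V n q).1.im := by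
              conv_lhs => rw [← e1]
              exact pt_im h x V n _
            have h8 : (-((s':ℂ) * I)).im = -s' := by simp
            rw [h7, h8]
            have h9 : V n * ((wq h x c V n q).1.im - s' / V n) =
                V n * (wq h x c V n q).1.im - s' := by
              rw [mul_sub, hs3]
            rw [h9] at h5
            linarith
      · rw [e2]
        exact h2
      · rw [e2]
        apply m9_eq HW h x n
        rw [wq_wp HW]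
        exact h3
  · push Not at hex
    intro p hp
    refine ⟨wq h x c V n ⁻¹' B', (hB'.preimage hcq).mem_nhds ?_, fun _ => 0, ?_, ?_⟩
    · show wq h x c V n (wp h x c V n p) ∈ B'
      rw [wq_wp HW]
      exact hp
    · intro q _
      exact Pool.Agent.MP_ae5b4e_an_NBT.merAt_of_analyticAt analyticAt_const
    · rintro q ⟨hq1, hq2⟩
      exfalso
      apply hex _ hq1
      rw [wp_wq HW]
      exact hq2

/-- (M9) TRANSPORT = STABILITY.

Proof. `mreg_tube` gives `δ₁`; `δ := δ₁ / 2`. `Im Λ ≤ - 2 κ₀ < 0` and `‖Λ‖ ≤ B₀` on the compact set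
`closedBall p₀ (3 δ / 2)`; use `mreg_tube` with `min κ κ₀`. `regF_win` with `B = ball p₀ (3 δ / 2)`, `B' = ball p₀ δ`:
values in the strip: `Im M < 0`, `- Im M ≤ B₀ + κ₀ < 2 h / V n`. `hd`: let `p = (τ, γ) ∈ B'`, `wp p ∈ DFU`; go down
by `s = 2 Im γ c n / V n < δ / 2`: `V n s = 2 |Im (c n γ)|`, so
`Im (pt τ) - V n s < h - v (c n γ) - |Im (c n γ)|`; `Dn` is open (`isOpen_DKU`) and `M = Ln` on
`Dn ∩ ball p₀ (2 δ)`. -/
theorem mreg (hB : Base Y h R C0 v G L) (HW : Win v U β C1 c V) (x : ℕ → ℝ) {p₀ : ℂ × ℂ}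
    {Λ : ℂ × ℂ → ℂ} {s₀ : ℝ} {Ω : Set (ℂ × ℂ)}
    (hm : MR (LI L h U x c V) (DI v U c V) p₀ Λ s₀ Ω) :
    ∃ δ : ℝ, 0 < δ ∧ ball p₀ δ ⊆ Ω ∧ ∀ κ : ℝ, 0 < κ → ∀ᶠ n in (U : Filter ℕ), ∃ M : ℂ × ℂ → ℂ,
      AnalyticOnNhd ℂ M (ball p₀ δ) ∧ (∀ p ∈ ball p₀ δ, ‖M p - Λ p‖ ≤ κ) ∧
      (∀ p ∈ ball p₀ δ, p ∈ Dn v h R x c V n → M p = Ln L h x c V n p) ∧
      ∀ p ∈ ball p₀ δ, RegF v h R G (wp h x c V n p) := by
  obtain ⟨δ₁, hδ₁, hδi, hδΩ, hM⟩ := mreg_tube hB HW x hm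
  set δ := δ₁ / 2 with hδd
  have hδ : 0 < δ := by positivity
  have hKsub : closedBall p₀ (3 * δ / 2) ⊆ ball p₀ δ₁ :=
    closedBall_subset_ball (by rw [hδd]; linarith)
  have hK : IsCompact (closedBall p₀ (3 * δ / 2)) := isCompact_closedBall _ _
  have hcΛ : ContinuousOn Λ (closedBall p₀ (3 * δ / 2)) :=
    hm.an.continuousOn.mono (hKsub.trans hδΩ)
  obtain ⟨B₀, hB₀⟩ := hK.exists_bound_of_continuousOn hcΛ
  obtain ⟨z, hz, hzm⟩ := hK.exists_isMaxOn ⟨p₀, mem_closedBall_self (by positivity)⟩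
    (continuous_im.comp_continuousOn hcΛ)
  have hz0 : (Λ z).im < 0 := hm.neg z (hδΩ (hKsub hz))
  set κ₀ := -(Λ z).im / 2 with hκd
  have hκ₀ : 0 < κ₀ := by rw [hκd]; linarith
  refine ⟨δ, hδ, (ball_subset_ball (by rw [hδd]; linarith)).trans hδΩ, fun κ hκ => ?_⟩
  have hh := hB.h_pos
  have hV1 : ∀ᶠ n in (U : Filter ℕ), V n * (B₀ + κ₀ + ‖p₀‖ + 2 * δ₁ + 1) < h :=
    lim_lt HW.V_lim _ hh
  have hV2 : ∀ᶠ n in (U : Filter ℕ), c n / V n * (2 * (‖p₀‖ + δ₁)) < δ / 2 :=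
    lim_lt (cV_lim HW) _ (by positivity)
  filter_upwards [hM (min κ κ₀) (lt_min hκ hκ₀), hV1, hV2] with n hn hn1 hn2
  obtain ⟨M, hMan, hMe, hML⟩ := hn
  have hsub1 : ball p₀ δ ⊆ ball p₀ δ₁ := ball_subset_ball (by rw [hδd]; linarith)
  have hsub2 : ball p₀ (3 * δ / 2) ⊆ ball p₀ δ₁ := ball_subset_ball (by rw [hδd]; linarith)
  have hB0 : 0 ≤ B₀ := (norm_nonneg _).trans (hB₀ p₀ (mem_closedBall_self (by positivity)))
  have hV := HW.V_pos n
  have hcn := HW.c_pos n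
  refine ⟨M, hMan.mono hsub1, fun p hp => (hMe p (hsub1 hp)).trans (min_le_left _ _),
    fun p hp => hML p (hsub1 hp), ?_⟩
  have hDo : IsOpen (Dn v h R x c V n) := (isOpen_DKU hB).preimage (m9_wp_cont h x c V n)
  apply regF_win hB HW x n (B := ball p₀ (3 * δ / 2)) (B' := ball p₀ δ) isOpen_ball
    (convex_ball _ _).isPreconnected isOpen_ball (ball_subset_ball (by linarith))
    (hMan.mono hsub2)
  · intro p hp
    have hp' := ball_subset_closedBall hp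
    have h1 := (hMe p (hsub2 hp)).trans (min_le_right _ _)
    have h2 : (Λ p).im ≤ (Λ z).im := hzm hp'
    have h3 : |(M p - Λ p).im| ≤ κ₀ := (abs_im_le_norm _).trans h1
    rw [sub_im, abs_le] at h3
    have h4 : (M p).im ≤ -κ₀ := by rw [hκd] at h3 ⊢; linarith [h3.2]
    have h5 : ‖M p‖ ≤ B₀ + κ₀ := by
      have := norm_le_norm_add_norm_sub' (M p) (Λ p)
      linarith [hB₀ p hp']
    have h6 := (abs_le.1 ((abs_im_le_norm (M p)).trans h5)).1
    have h7 : (pt h x V n (M p)).im = h + V n * (M p).im := pt_im h x V n _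
    have hn0 := norm_nonneg p₀
    constructor
    · rw [h7]
      nlinarith
    · rw [h7]
      nlinarith
  · intro p hp hpF
    have hd1 : dist p p₀ < δ := hp
    have hp2 : ‖p‖ < ‖p₀‖ + δ := by
      have := norm_le_norm_add_norm_sub' p p₀
      rw [dist_eq_norm] at hd1
      linarith
    have hp2i : 0 < p.2.im := by
      have h1 : ‖(p - p₀).2‖ ≤ ‖p - p₀‖ := norm_snd_le _
      have h2 := (abs_im_le_norm (p - p₀).2).trans h1
      rw [dist_eq_norm] at hd1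
      have h3 := (abs_le.1 h2).1
      simp only [Prod.snd_sub, sub_im] at h3
      have h4 := hm.im
      linarith
    have hp2n : p.2.im ≤ ‖p₀‖ + δ₁ := by
      have h1 : ‖p.2‖ ≤ ‖p‖ := norm_snd_le _
      have h2 := (abs_le.1 (abs_im_le_norm p.2)).2
      linarith
    have hp1n : -(‖p₀‖ + δ₁) ≤ p.1.im := by
      have h1 : ‖p.1‖ ≤ ‖p‖ := norm_fst_le _
      have h2 := (abs_le.1 (abs_im_le_norm p.1)).1
      linarith
    have hcV : 0 < c n / V n := div_pos hcn hV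
    have hs0 : 0 ≤ 2 * p.2.im * (c n / V n) := by positivity
    have hs1 : 2 * p.2.im * (c n / V n) < δ / 2 := by
      refine lt_of_le_of_lt ?_ hn2
      nlinarith
    have hVs : V n * (2 * p.2.im * (c n / V n)) = 2 * (c n * p.2.im) := by
      field_simp
    have hball : ∀ s' ∈ Icc 0 (2 * p.2.im * (c n / V n)), (p.1 - s' * I, p.2) ∈
        ball p₀ (3 * δ / 2) := by
      intro s' hs'
      rw [mem_ball]
      have h1 : dist ((p.1 - s' * I, p.2) : ℂ × ℂ) p ≤ s' := by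
        rw [Prod.dist_eq, dist_self, dist_eq_norm]
        have : (p.1 - s' * I - p.1 : ℂ) = -(s' * I) := by ring
        rw [this, norm_neg, norm_mul, norm_I, mul_one, Complex.norm_real, Real.norm_eq_abs,
          abs_of_nonneg hs'.1]
        exact max_le le_rfl hs'.1
      have h2 := dist_triangle ((p.1 - s' * I, p.2) : ℂ × ℂ) p p₀
      linarith [hs'.2]
    have hpos : ∀ s' ∈ Icc 0 (2 * p.2.im * (c n / V n)), 0 < h + V n * (p.1.im - s') := by
      intro s' hs'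
      have h1 : V n * s' ≤ V n * (δ / 2) :=
        mul_le_mul_of_nonneg_left (hs'.2.trans hs1.le) hV.le
      have h2 : V n * (-(‖p₀‖ + δ₁)) ≤ V n * p.1.im := mul_le_mul_of_nonneg_left hp1n hV.le
      have h3 : 0 ≤ V n * (B₀ + κ₀ + 1) := by positivity
      have h4 : V n * (δ / 2) ≤ V n * δ₁ :=
        mul_le_mul_of_nonneg_left (by rw [hδd]; linarith) hV.le
      have h5 : V n * (B₀ + κ₀ + ‖p₀‖ + 2 * δ₁ + 1) =
          V n * (B₀ + κ₀ + 1) - V n * (-(‖p₀‖ + δ₁)) + V n * δ₁ := by ring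
      rw [h5] at hn1
      rw [mul_sub]
      linarith
    refine ⟨2 * p.2.im * (c n / V n), hs0, fun s' hs' => ⟨hball s' hs', hpos s' hs'⟩, ?_⟩
    have hmemD : ((p.1 - ((2 * p.2.im * (c n / V n) : ℝ) : ℂ) * I, p.2) : ℂ × ℂ) ∈
        Dn v h R x c V n := by
      show wp h x c V n _ ∈ DKU v h R
      obtain ⟨h1, h2, h3⟩ := hpF
      have h4 : (wp h x c V n p).1.im = h + V n * p.1.im := pt_im h x V n _
      have h5 := hpos _ ⟨hs0, le_rfl⟩
      rw [mul_sub, hVs] at h5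
      have h6 : ((wp h x c V n (p.1 - ((2 * p.2.im * (c n / V n) : ℝ) : ℂ) * I, p.2))).1.im =
          h + V n * p.1.im - 2 * (c n * p.2.im) := by
        show (pt h x V n _).im = _
        rw [pt_im, sub_im]
        simp only [mul_im, ofReal_re, I_im, mul_one, ofReal_im, I_re, mul_zero, add_zero]
        rw [mul_sub, hVs]
        ring
      have h7 : (wp h x c V n p).2.im = c n * p.2.im := by simp [wp]
      refine ⟨h1, ?_, ?_⟩
      · rw [h6]; linarith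
      · rw [h6]
        have h8 : (wp h x c V n (p.1 - ((2 * p.2.im * (c n / V n) : ℝ) : ℂ) * I, p.2)).2 =
            (wp h x c V n p).2 := rfl
        rw [h8, h7, abs_of_pos (by positivity)]
        rw [h4] at h3
        have h9 : 0 < c n * p.2.im := by positivity
        linarith
    refine ⟨hmemD, ?_⟩
    filter_upwards [hDo.mem_nhds hmemD, isOpen_ball.mem_nhds (hsub2 (hball _ ⟨hs0, le_rfl⟩))]
      with q hq1 hq2
    exact hML q hq2 hq1

/-- `Im γ₀ < 0`: the same with `- γ₀`.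

Proof. `mreg` at `(p₀.1, - p₀.2)` for `Λ' p := Λ (p.1, - p.2)`, `Ω' := {p | (p.1, - p.2) ∈ Ω}`:
`Sh (-s) (p.1, - p.2) = ((Sh s p).1, - p.2)`, `DI_even`, `LI` even (`Ln` even by `hB.even`); `regF_neg`. -/
theorem mreg_neg (hB : Base Y h R C0 v G L) (HW : Win v U β C1 c V) (x : ℕ → ℝ) {p₀ : ℂ × ℂ}
    {Λ : ℂ × ℂ → ℂ} {s₀ : ℝ} {Ω : Set (ℂ × ℂ)} (hi : p₀.2.im < 0) (hs : 0 ≤ s₀) (hΩ : IsOpen Ω)
    (hΛ : AnalyticOnNhd ℂ Λ Ω) (hneg : ∀ p ∈ Ω, (Λ p).im < 0)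
    (hseg : ∀ s ∈ Icc 0 s₀, Sh s p₀ ∈ Ω) (hmem : Sh s₀ p₀ ∈ DI v U c V)
    (heq : Λ =ᶠ[𝓝 (Sh s₀ p₀)] LI L h U x c V) :
    ∃ δ : ℝ, 0 < δ ∧ ball p₀ δ ⊆ Ω ∧ ∀ κ : ℝ, 0 < κ → ∀ᶠ n in (U : Filter ℕ), ∃ M : ℂ × ℂ → ℂ,
      AnalyticOnNhd ℂ M (ball p₀ δ) ∧ (∀ p ∈ ball p₀ δ, ‖M p - Λ p‖ ≤ κ) ∧
      (∀ p ∈ ball p₀ δ, p ∈ Dn v h R x c V n → M p = Ln L h x c V n p) ∧
      ∀ p ∈ ball p₀ δ, RegF v h R G (wp h x c V n p) := by
  have hN : Continuous (fun p : ℂ × ℂ => ((p.1, -p.2) : ℂ × ℂ)) := by fun_prop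
  have hNan : ∀ p : ℂ × ℂ, AnalyticAt ℂ (fun p : ℂ × ℂ => ((p.1, -p.2) : ℂ × ℂ)) p :=
    fun p => analyticAt_fst.prod analyticAt_snd.neg
  have hNN : ∀ p : ℂ × ℂ, ((((p.1, -p.2) : ℂ × ℂ).1, -((p.1, -p.2) : ℂ × ℂ).2) : ℂ × ℂ) = p := by
    intro p; simp
  have hSh : ∀ s : ℝ, Sh (-s) ((p₀.1, -p₀.2) : ℂ × ℂ) = ((Sh s p₀).1, -(Sh s p₀).2) := by
    intro s
    ext
    · simp [Sh]
    · simp [Sh]
  have hmr : MR (LI L h U x c V) (DI v U c V) (p₀.1, -p₀.2)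
      (fun p => Λ (p.1, -p.2)) s₀ {p | ((p.1, -p.2) : ℂ × ℂ) ∈ Ω} := by
    refine ⟨by simpa using hi, hs, hΩ.preimage hN, ?_, ?_, ?_, ?_, ?_⟩
    · intro p hp
      exact AnalyticAt.comp (g := Λ) (f := fun p : ℂ × ℂ => ((p.1, -p.2) : ℂ × ℂ))
        (hΛ _ hp) (hNan p)
    · intro p hp
      exact hneg _ hp
    · intro s hs'
      show (((Sh (-s) ((p₀.1, -p₀.2) : ℂ × ℂ)).1, -(Sh (-s) ((p₀.1, -p₀.2) : ℂ × ℂ)).2) : ℂ × ℂ) ∈ Ω
      rw [hSh, hNN]
      exact hseg s hs'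
    · rw [hSh]
      exact DI_even hB.nv hB.R_pos HW hmem
    · rw [hSh]
      have h1 : Tendsto (fun p : ℂ × ℂ => ((p.1, -p.2) : ℂ × ℂ))
          (𝓝 ((Sh s₀ p₀).1, -(Sh s₀ p₀).2)) (𝓝 (Sh s₀ p₀)) := by
        have := hN.tendsto ((Sh s₀ p₀).1, -(Sh s₀ p₀).2)
        rwa [hNN] at this
      have h2 : DI v U c V ∈ 𝓝 ((((Sh s₀ p₀).1, -(Sh s₀ p₀).2)) : ℂ × ℂ) :=
        (DI_open hB.nv hB.R_pos HW).mem_nhds (DI_even hB.nv hB.R_pos HW hmem)
      filter_upwards [h1.eventually heq, h2] with q hq1 hq2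
      rw [hq1]
      exact LI_even hB HW x hq2
  obtain ⟨δ, hδ, hsub, hev⟩ := mreg hB HW x hmr
  have hball : ∀ p : ℂ × ℂ, p ∈ ball p₀ δ → ((p.1, -p.2) : ℂ × ℂ) ∈
      ball ((p₀.1, -p₀.2) : ℂ × ℂ) δ := by
    intro p hp
    rw [mem_ball, Prod.dist_eq] at hp ⊢
    simpa using hp
  refine ⟨δ, hδ, ?_, fun κ hκ => ?_⟩
  · intro p hp
    have h1 := hsub (hball p hp)
    have h2 : ((((p.1, -p.2) : ℂ × ℂ).1, -((p.1, -p.2) : ℂ × ℂ).2) : ℂ × ℂ) ∈ Ω := h1
    rwa [hNN] at h2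
  · filter_upwards [hev κ hκ] with n hn
    obtain ⟨M, h1, h2, h3, h4⟩ := hn
    have hDn : ∀ p : ℂ × ℂ, p ∈ Dn v h R x c V n → ((p.1, -p.2) : ℂ × ℂ) ∈ Dn v h R x c V n ∧
        Ln L h x c V n (p.1, -p.2) = Ln L h x c V n p := by
      intro p hp
      obtain ⟨h5, h6, h7⟩ := hp
      have h8 : (wp h x c V n (p.1, -p.2)).2 = -(wp h x c V n p).2 := by simp [wp]
      have h9 : (wp h x c V n (p.1, -p.2)).1 = (wp h x c V n p).1 := rfl
      have h10 : v (-(wp h x c V n p).2) = v (wp h x c V n p).2 :=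
        hB.nv.even _ (by rw [mem_ball_zero_iff]; exact h5)
      refine ⟨⟨?_, ?_, ?_⟩, ?_⟩
      · rw [h8, norm_neg]; exact h5
      · rw [h9]; exact h6
      · rw [h8, h9, h10, neg_im, abs_neg]; exact h7
      · have h11 := hB.even (wp h x c V n p) ⟨h5, h6, h7⟩
        unfold Ln
        have h12 : ((pt h x V n ((p.1, -p.2) : ℂ × ℂ).1, (c n : ℂ) * ((p.1, -p.2) : ℂ × ℂ).2) : ℂ × ℂ) =
            ((wp h x c V n p).1, -(wp h x c V n p).2) := by simp [wp]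
        rw [h12, h11]
        rfl
    refine ⟨fun p => M (p.1, -p.2), ?_, ?_, ?_, ?_⟩
    · intro p hp
      exact AnalyticAt.comp (g := M) (f := fun p : ℂ × ℂ => ((p.1, -p.2) : ℂ × ℂ))
        (h1 _ (hball p hp)) (hNan p)
    · intro p hp
      have h5 := h2 _ (hball p hp)
      have h6 : Λ ((((p.1, -p.2) : ℂ × ℂ).1, -((p.1, -p.2) : ℂ × ℂ).2)) = Λ p := by rw [hNN]
      rw [← h6]
      exact h5
    · intro p hp hpD
      obtain ⟨h5, h6⟩ := hDn p hpD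
      show M (p.1, -p.2) = _
      rw [h3 _ (hball p hp) h5, h6]
    · intro p hp
      have h5 := regF_neg hB (h4 _ (hball p hp))
      have h6 : (((wp h x c V n (p.1, -p.2)).1, -(wp h x c V n (p.1, -p.2)).2) : ℂ × ℂ) =
          wp h x c V n p := by
        ext <;> simp [wp]
      rwa [h6] at h5

/-- (M10) Limits of singular points are not macro-regular. Proof. `mreg`. -/
theorem m10 (hB : Base Y h R C0 v G L) (HW : Win v U β C1 c V) (x : ℕ → ℝ) {p₀ : ℂ × ℂ}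
    {Λ : ℂ × ℂ → ℂ} {s₀ : ℝ} {Ω : Set (ℂ × ℂ)} {p : ℕ → ℂ × ℂ} (hp : Tendsto p U (𝓝 p₀))
    (hs : ∀ᶠ n in (U : Filter ℕ), ¬ RegF v h R G (wp h x c V n (p n))) :
    ¬ MR (LI L h U x c V) (DI v U c V) p₀ Λ s₀ Ω := by
  intro hm
  obtain ⟨δ, hδ, _, hev⟩ := mreg hB HW x hm
  obtain ⟨n, hn1, hn2, hn3⟩ := ((hev 1 one_pos).and (hs.and
    (hp.eventually (ball_mem_nhds p₀ hδ)))).exists
  obtain ⟨M, _, _, _, h4⟩ := hn1
  exact hn2 (h4 _ hn3)

end Pool.Agent.MP_ae5b4e_an_MT
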