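import Pool.Agent.Lib.MP_ae5b4e_an_LL.Two

/-! # MT, SAT: two constants on a rectangle -/

noncomputable section

namespace Pool.Agent.MP_ae5b4e_an_MT

open Complex Set Filter Topology Metric
open Pool.Agent.Lib.MP_ae5b4e_an_LL

/-- a rectangle in the lower half plane -/
def Rc (R d X : ℝ) : Set ℂ := {z | |z.re| < R ∧ d < -z.im ∧ -z.im < X}

theorem isOpen_Rc (R d X : ℝ) : IsOpen (Rc R d X) := by
  have h1 : IsOpen {z : ℂ | |z.re| < R} := isOpen_lt Complex.continuous_re.abs continuous_const
  have h2 : IsOpen {z : ℂ | d < -z.im} := isOpen_lt continuous_const Complex.continuous_im.neg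
  have h3 : IsOpen {z : ℂ | -z.im < X} := isOpen_lt Complex.continuous_im.neg continuous_const
  exact h1.inter (h2.inter h3)

theorem convex_Rc (R d X : ℝ) : Convex ℝ (Rc R d X) := by
  have h : Rc R d X = ({z : ℂ | -R < z.re} ∩ {z : ℂ | z.re < R}) ∩
      ({z : ℂ | -X < z.im} ∩ {z : ℂ | z.im < -d}) := by
    ext z
    constructor
    · rintro ⟨h1, h2, h3⟩
      rw [abs_lt] at h1
      exact ⟨⟨h1.1, h1.2⟩, by change -X < z.im; linarith, by change z.im < -d; linarith⟩
    · rintro ⟨⟨h1, h2⟩, h3, h4⟩
      have h3' : -X < z.im := h3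
      have h4' : z.im < -d := h4
      exact ⟨abs_lt.2 ⟨h1, h2⟩, by linarith, by linarith⟩
  rw [h]
  exact ((convex_halfSpace_re_gt _).inter (convex_halfSpace_re_lt _)).inter
    ((convex_halfSpace_im_gt _).inter (convex_halfSpace_im_lt _))

private theorem SatA_re_sin (w : ℂ) : (sin w).re = Real.sin w.re * Real.cosh w.im := by
  have h := Complex.sin_eq w
  rw [h, ← ofReal_sin, ← ofReal_cosh, ← ofReal_cos, ← ofReal_sinh]
  simp only [add_re, mul_re, ofReal_re, ofReal_im, mul_zero, sub_zero, I_re, I_im, mul_im,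
    zero_mul, add_zero, mul_one, sub_self]

private theorem SatA_exists_cosh {k : ℝ} (hk : 0 < k) (c : ℝ) :
    ∃ R : ℝ, 1 < R ∧ c ≤ Real.cosh (k * R) := by
  refine ⟨2 + 2 * |c| / k, ?_, ?_⟩
  · have : 0 ≤ 2 * |c| / k := by positivity
    linarith
  · have h1 : k * (2 + 2 * |c| / k) = 2 * k + 2 * |c| := by
      field_simp
    rw [h1, Real.cosh_eq]
    have h2 := Real.add_one_le_exp (2 * k + 2 * |c|)
    have h3 := Real.exp_pos (-(2 * k + 2 * |c|))
    have h4 := le_abs_self c
    linarith

private theorem SatA_sin_le {k x : ℝ} (hk : 0 < k) (h1 : k ≤ x) (h2 : x ≤ Real.pi - k) :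
    Real.sin k ≤ Real.sin x := by
  rcases le_total x (Real.pi / 2) with h | h
  · exact Real.sin_le_sin_of_le_of_le_pi_div_two (by linarith [Real.pi_pos]) h h1
  · rw [← Real.sin_pi_sub x]
    exact Real.sin_le_sin_of_le_of_le_pi_div_two (by linarith [Real.pi_pos]) (by linarith)
      (by linarith)

/-- the comparison function -/
private def SatA_u (A B k d X K : ℝ) (z : ℂ) : ℝ :=
  A - (A + B) * ((-z.im - d) / (X - d)) +
    (A + B) * (Real.cosh (k * z.re) * Real.sin (k * (-z.im - d + 1)) / K)

private theorem SatA_u_harm (A B k d X K : ℝ) (V : Set ℂ) :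
    InnerProductSpace.HarmonicOnNhd (SatA_u A B k d X K) V := by
  have e : SatA_u A B k d X K = ((fun _ => A + (A + B) * (d / (X - d))) +
      ((A + B) / (X - d)) • (fun z : ℂ => z.im)) +
      ((A + B) / K) • (fun z : ℂ => (sin (((k * (1 - d) : ℝ) : ℂ) + I * k * z)).re) := by
    funext z
    simp only [SatA_u, Pi.add_apply, Pi.smul_apply, smul_eq_mul, SatA_re_sin]
    have h1 : (((k * (1 - d) : ℝ) : ℂ) + I * k * z).re = k * (-z.im - d + 1) := by
      simp
      ring
    have h2 : (((k * (1 - d) : ℝ) : ℂ) + I * k * z).im = k * z.re := by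
      simp
    rw [h1, h2]
    ring
  rw [e]
  refine ((InnerProductSpace.harmonicOnNhd_const _).add
    (InnerProductSpace.HarmonicOnNhd.const_smul fun z _ =>
      AnalyticAt.harmonicAt_im analyticAt_id)).add
    (InnerProductSpace.HarmonicOnNhd.const_smul fun z _ => ?_)
  refine AnalyticAt.harmonicAt_re (f := fun z : ℂ => sin (((k * (1 - d) : ℝ) : ℂ) + I * k * z)) ?_
  have h1 : Differentiable ℂ (fun z : ℂ => sin (((k * (1 - d) : ℝ) : ℂ) + I * k * z)) := by
    fun_prop
  exact h1.analyticAt z

private theorem SatA_u_cont (A B k d X K : ℝ) : Continuous (SatA_u A B k d X K) := by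
  have h1 := Complex.continuous_re
  have h2 := Complex.continuous_im
  unfold SatA_u
  have h3 : Continuous fun z : ℂ => Real.cosh (k * z.re) :=
    Real.continuous_cosh.comp (continuous_const.mul h1)
  have h4 : Continuous fun z : ℂ => Real.sin (k * (-z.im - d + 1)) := by fun_prop
  exact (continuous_const.sub (continuous_const.mul (by fun_prop))).add
    (continuous_const.mul ((h3.mul h4).div_const _))

/-- TWO CONSTANTS on a rectangle, bottom side against the three other sides.

Proof. `k := π / (X - d + 2)`, `θ₁ := (y - d) / (X - d)`, `θ := θ₁ / 2`; `R` so large that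
`cosh k / (cosh (k R) sin k) ≤ θ₁ / 2` (`0 < k < π / 2`). With `S := - Im z - d ∈ (0, X - d)`:
`u z := A - (A + B) S / (X - d) + (A + B) cosh (k Re z) sin (k (S + 1)) / (cosh (k R) sin k)` is harmonic on
the plane (`cosh (k x) sin (k (y + a))` is the imaginary or real part of an entire function), continuous.
`sin (k (S + 1)) ≥ sin k` for `0 ≤ S ≤ X - d`. On the boundary of `Rc R d X`:
`|Re z| = R`: `u ≥ A - (A + B) + (A + B) = A`; `S = 0`: `u ≥ A`; `S = X - d`: `u ≥ - B`. So `f ≤ u` on `Rc R d X`
(`SubH.le_harmonic`: near the bottom side `f ≤ - B`, elsewhere `f ≤ A`). For `|Re z| ≤ 1`, `S ≥ y - d`: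
`u ≤ A - (A + B) θ₁ + (A + B) θ₁ / 2`. -/
theorem rect_two {d y X : ℝ} (hdy : d < y) (hyX : y < X) :
    ∃ R θ : ℝ, 1 < R ∧ 0 < θ ∧ θ < 1 ∧ ∀ (σ : ℝ) (f : ℂ → ℝ) (A B : ℝ), 0 < σ → 0 ≤ A + B →
      SubH f (Rc R d (X + σ)) → (∀ z ∈ Rc R d (X + σ), f z ≤ A) →
      (∀ z ∈ Rc R d (X + σ), X - σ < -z.im → f z ≤ -B) →
      ∀ z ∈ Rc R d (X + σ), |z.re| ≤ 1 → y ≤ -z.im → -z.im ≤ X → f z ≤ A - (A + B) * θ := by
  have hX : 0 < X - d := by linarith
  obtain ⟨k, hk⟩ : ∃ k : ℝ, k = Real.pi / (X - d + 2) := ⟨_, rfl⟩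
  have hk0 : 0 < k := by
    rw [hk]
    exact div_pos Real.pi_pos (by linarith)
  have hk1 : k * (X - d + 2) = Real.pi := by
    rw [hk]
    exact div_mul_cancel₀ _ (by linarith)
  have hkpi : k < Real.pi := by nlinarith
  have hsk : 0 < Real.sin k := Real.sin_pos_of_pos_of_lt_pi hk0 hkpi
  obtain ⟨θ1, hθ1⟩ : ∃ θ1 : ℝ, θ1 = (y - d) / (X - d) := ⟨_, rfl⟩
  have hθ0 : 0 < θ1 := by
    rw [hθ1]
    exact div_pos (by linarith) hX
  have hθ1' : θ1 < 1 := by
    rw [hθ1, div_lt_one hX]
    linarith
  obtain ⟨R, hR1, hR⟩ := SatA_exists_cosh hk0 (2 * Real.cosh k / (θ1 * Real.sin k))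
  refine ⟨R, θ1 / 2, hR1, by linarith, by linarith, ?_⟩
  intro σ f A B hσ hAB hf hfA hfB z hz hz1 hzy hzX
  obtain ⟨K, hK⟩ : ∃ K : ℝ, K = Real.cosh (k * R) * Real.sin k := ⟨_, rfl⟩
  have hcR : 0 < Real.cosh (k * R) := Real.cosh_pos _
  have hK0 : 0 < K := by
    rw [hK]
    positivity
  have hVs : Rc R d X ⊆ Rc R d (X + σ) := fun w hw => ⟨hw.1, hw.2.1, by linarith [hw.2.2]⟩
  have hsin : ∀ S : ℝ, 0 ≤ S → S ≤ X - d → Real.sin k ≤ Real.sin (k * (S + 1)) := by
    intro S h1 h2
    refine SatA_sin_le hk0 (by nlinarith) ?_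
    rw [← hk1]
    nlinarith
  rcases hzX.lt_or_eq with hlt | heq
  · -- interior
    have hzV : z ∈ Rc R d X := ⟨hz.1, hz.2.1, hlt⟩
    have hbdd : Bornology.IsBounded (Rc R d X) := by
      refine (isBounded_iff_forall_norm_le.2 ⟨|R| + (|d| + |X|), fun w hw => ?_⟩)
      have h1 := Complex.norm_le_abs_re_add_abs_im w
      have h2 : |w.re| < R := hw.1
      have h3 : |w.im| ≤ |d| + |X| := by
        have h4 := neg_abs_le d
        have h5 := le_abs_self X
        have h6 := abs_nonneg d
        have h7 := abs_nonneg X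
        have h8 : d < -w.im := hw.2.1
        have h9 : -w.im < X := hw.2.2
        rw [abs_le]
        constructor <;> linarith
      have h4 := le_abs_self R
      linarith
    have hcl : closure (Rc R d X) ⊆ {w : ℂ | |w.re| ≤ R ∧ d ≤ -w.im ∧ -w.im ≤ X} := by
      apply closure_minimal
      · exact fun w hw => ⟨hw.1.le, hw.2.1.le, hw.2.2.le⟩
      · exact (isClosed_le Complex.continuous_re.abs continuous_const).inter
          ((isClosed_le continuous_const Complex.continuous_im.neg).inter
            (isClosed_le Complex.continuous_im.neg continuous_const))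
    have hucont := SatA_u_cont A B k d X K
    have key := (hf.mono hVs).le_harmonic (isOpen_Rc R d X) hbdd (SatA_u_harm A B k d X K _)
      (fun ζ hζ ε hε => by
        obtain ⟨h1, h2, h3⟩ := hcl hζ.1
        have hζV : ζ ∉ Rc R d X := by
          have := hζ.2
          rwa [(isOpen_Rc R d X).interior_eq] at this
        have hnear : ∀ᶠ w in 𝓝 ζ, SatA_u A B k d X K ζ - ε < SatA_u A B k d X K w :=
          hucont.continuousAt (Ioi_mem_nhds (by linarith))
        have hS := hsin (-ζ.im - d) (by linarith) (by linarith)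
        have hcosh : 0 < Real.cosh (k * ζ.re) := Real.cosh_pos _
        have hterm : 0 ≤ Real.cosh (k * ζ.re) * Real.sin (k * (-ζ.im - d + 1)) / K := by
          have : 0 ≤ Real.sin (k * (-ζ.im - d + 1)) := hsk.le.trans hS
          positivity
        have hquot : (-ζ.im - d) / (X - d) ≤ 1 := by
          rw [div_le_one hX]
          linarith
        rcases h3.lt_or_eq with h4 | h4
        · have hA : A ≤ SatA_u A B k d X K ζ := by
            rcases h2.lt_or_eq with h5 | h5
            · have h6 : |ζ.re| = R := by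
                refine le_antisymm h1 (not_lt.1 fun h => hζV ⟨h, h5, h4⟩)
              have h7 : Real.cosh (k * ζ.re) = Real.cosh (k * R) := by
                rw [← Real.cosh_abs (k * ζ.re), abs_mul, abs_of_pos hk0, h6]
              have h8 : 1 ≤ Real.cosh (k * ζ.re) * Real.sin (k * (-ζ.im - d + 1)) / K := by
                rw [one_le_div hK0, hK, h7]
                exact mul_le_mul_of_nonneg_left hS hcR.le
              unfold SatA_u
              nlinarith
            · have h6 : -ζ.im - d = 0 := by linarith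
              have h7 : (-ζ.im - d) / (X - d) = 0 := by rw [h6, zero_div]
              unfold SatA_u
              rw [h7, mul_zero]
              have := mul_nonneg hAB hterm
              linarith
          filter_upwards [nhdsWithin_le_nhds hnear, self_mem_nhdsWithin] with w hw1 hw2
          have := hfA w (hVs hw2)
          linarith
        · have hB : -B ≤ SatA_u A B k d X K ζ := by
            unfold SatA_u
            have h5 := mul_nonneg hAB hterm
            have h6 : (A + B) * ((-ζ.im - d) / (X - d)) ≤ (A + B) * 1 :=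
              mul_le_mul_of_nonneg_left hquot hAB
            linarith
          have hσn : ∀ᶠ w : ℂ in 𝓝 ζ, X - σ < -w.im :=
            (isOpen_lt continuous_const Complex.continuous_im.neg).mem_nhds
              (by change X - σ < -ζ.im; linarith)
          filter_upwards [nhdsWithin_le_nhds hnear, nhdsWithin_le_nhds hσn,
            self_mem_nhdsWithin] with w hw1 hw2 hw3
          have := hfB w (hVs hw3) hw2
          linarith) z hzV
    refine key.trans ?_
    unfold SatA_u
    have h1 : θ1 ≤ (-z.im - d) / (X - d) := by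
      rw [hθ1]
      exact div_le_div_of_nonneg_right (by linarith) hX.le
    have h2 : Real.cosh (k * z.re) * Real.sin (k * (-z.im - d + 1)) / K ≤ θ1 / 2 := by
      rw [div_le_iff₀ hK0]
      have h3 : Real.cosh (k * z.re) ≤ Real.cosh k := by
        rw [Real.cosh_le_cosh, abs_mul, abs_of_pos hk0]
        exact mul_le_of_le_one_right hk0.le hz1
      have h4 : Real.sin (k * (-z.im - d + 1)) ≤ 1 := Real.sin_le_one _
      have h5 : Real.cosh (k * z.re) * Real.sin (k * (-z.im - d + 1)) ≤ Real.cosh k := by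
        calc Real.cosh (k * z.re) * Real.sin (k * (-z.im - d + 1)) ≤ Real.cosh (k * z.re) * 1 :=
              mul_le_mul_of_nonneg_left h4 (Real.cosh_pos _).le
          _ ≤ Real.cosh k := by rw [mul_one]; exact h3
      refine h5.trans ?_
      rw [div_le_iff₀ (by positivity)] at hR
      rw [hK]
      nlinarith
    have h3 : (A + B) * θ1 ≤ (A + B) * ((-z.im - d) / (X - d)) :=
      mul_le_mul_of_nonneg_left h1 hAB
    have h4 : (A + B) * (Real.cosh (k * z.re) * Real.sin (k * (-z.im - d + 1)) / K) ≤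
        (A + B) * (θ1 / 2) := mul_le_mul_of_nonneg_left h2 hAB
    linarith
  · have h1 := hfB z hz (by linarith)
    have h2 : (A + B) * (θ1 / 2) ≤ (A + B) * 1 :=
      mul_le_mul_of_nonneg_left (by linarith) hAB
    linarith

end Pool.Agent.MP_ae5b4e_an_MT
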