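import Pool.Agent.Lib.MP_ae5b4e_an_MT.Run

/-! # MT: the continued label on the tube -/

noncomputable section

namespace Pool.Agent.MP_ae5b4e_an_MT

open Complex Set Filter Topology Metric
open Pool.Agent.MP_ae5b4e_an_NB2 (Sys)

variable {Z : Sys} {ε : ℝ} {L Λ : ℂ × ℂ → ℂ} {E O : Set (ℂ × ℂ)} {s₀ κ d R A r C : ℝ}
  {ξ : ℂ × ℂ → ℂ}

/-- Proof. Induction on `j`: the state of `L` is analytic at `p` (`Run.an`), `Ph ε ξ` is analytic
at the
points of `GG d R A` (`Stp.an`). -/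
theorem Run.iter_an (h : Run Z ε L Λ E s₀ κ d R A r C ξ) (hε : 0 < ε) {p : ℂ × ℂ} (hp : p ∈ E)
    {j : ℕ} (hj : j * ε ≤ s₀) : AnalyticAt ℂ (fun q => (Ph ε ξ)^[j] (stt L ε q)) p := by
  induction j with
  | zero =>
    obtain ⟨h1, h2⟩ := h.an p hp
    have h3 : AnalyticAt ℂ (fun q => L (Sh ε q)) p :=
      AnalyticAt.comp_of_eq h2 (analyticAt_Sh ε p) rfl
    exact h1.prod ((h3.sub h1).div_const)
  | succ j ih =>
    have hj' : (j : ℝ) * ε ≤ s₀ := by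
      refine le_trans ?_ hj
      push_cast
      nlinarith
    have h1 := ih hj'
    have h2 := h.mem p hp j hj'
    have h3 : AnalyticAt ℂ (Ph ε ξ) ((Ph ε ξ)^[j] (stt L ε p)) :=
      (analyticAt_fst.add (analyticAt_const.mul analyticAt_snd)).prod (h.stp.an _ h2)
    have h4 := AnalyticAt.comp_of_eq h3 h1 rfl
    refine h4.congr (Eventually.of_forall fun q => ?_)
    exact (Function.iterate_succ_apply' (Ph ε ξ) j (stt L ε q)).symm

private theorem Tub_seg (hO : Convex ℝ O) {p : ℂ × ℂ} {s t : ℝ} (hp : p ∈ O)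
    (ht : Sh t p ∈ O) (h0 : 0 ≤ s) (hst : s ≤ t) : Sh s p ∈ O := by
  rcases hst.eq_or_lt with h | h
  · rw [h]
    exact ht
  · have ht0 : 0 < t := lt_of_le_of_lt h0 h
    have h1 := hO.add_smul_sub_mem hp ht (t := s / t)
      ⟨div_nonneg h0 ht0.le, (div_le_one ht0).2 hst⟩
    have h2 : p + (s / t) • (Sh t p - p) = Sh s p := by
      have htc : (t : ℂ) ≠ 0 := Complex.ofReal_ne_zero.2 ht0.ne'
      ext
      · simp only [Prod.fst_add, Prod.smul_fst, Prod.fst_sub, Sh_fst, add_sub_cancel_left,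
          Complex.real_smul, Complex.ofReal_div]
        field_simp
      · simp
    rwa [h2] at h1

/-- Consistency. Proof. `O` is convex: the points `Sh (i ε) p`, `0 ≤ i ≤ k`, are in `O ⊆ E` (they
lie on
the segment from `p` to `Sh (k ε) p`), so `stt L ε (Sh (k ε) p) = (Ph ε ξ)^[k] (stt L ε p)` by
induction
(`Run.chain`). -/
theorem Run.consist (h : Run Z ε L Λ E s₀ κ d R A r C ξ) (hε : 0 < ε) (hO : Convex ℝ O)
    (hOE : O ⊆ E) {p : ℂ × ℂ} {k j : ℕ} (hp : p ∈ O) (hk : Sh (k * ε) p ∈ O) :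
    (Ph ε ξ)^[j] (stt L ε (Sh (k * ε) p)) = (Ph ε ξ)^[j + k] (stt L ε p) := by
  have key : ∀ i : ℕ, i ≤ k → stt L ε (Sh (i * ε) p) = (Ph ε ξ)^[i] (stt L ε p) := by
    intro i
    induction i with
    | zero =>
      intro _
      rw [Nat.cast_zero, zero_mul, Sh_zero]
      rfl
    | succ i ih =>
      intro hi
      have h1 : (i : ℝ) * ε ≤ k * ε := by
        refine mul_le_mul_of_nonneg_right ?_ hε.le
        exact_mod_cast (by omega : i ≤ k)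
      have h2 : Sh (i * ε) p ∈ O := Tub_seg hO hp hk (by positivity) h1
      have h3 := h.chain _ (hOE h2)
      rw [Sh_Sh, ih (by omega)] at h3
      rw [Function.iterate_succ_apply', ← h3]
      congr 2
      push_cast
      ring
  rw [key k le_rfl, ← Function.iterate_add_apply]

/-- The tube function.

Proof. `M q := ((Ph ε ξ)^[j] (stt L ε (Sh (-(j ε)) q))).1` for the least `j` with `j ε ≤ s₀` and
`Sh (-(j ε)) q ∈ O`, `M q := 0` if there is none. By `Run.consist` every such `j` gives the same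
value:
if `j ≤ j'` are two of them, `p := Sh (-(j' ε)) q`, `Sh (-(j ε)) q = Sh ((j' - j) ε) p`. So for
`p ∈ O`,
`j ε ≤ s₀`: `M (Sh (j ε) p) = (.. (stt L ε p)).1`, and near `Sh (j ε) p` the function `M` is
`q ↦ ((Ph ε ξ)^[j] (stt L ε (Sh (-(j ε)) q))).1` (`O` open), analytic by `Run.iter_an`. The
estimate is
the first component of `Run.close` (`‖u.1‖ ≤ ‖u‖`); `(stt Λ ε q).1 = Λ q`. -/
theorem Run.tube (h : Run Z ε L Λ E s₀ κ d R A r C ξ) (hε : 0 < ε) (hO : IsOpen O)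
    (hOc : Convex ℝ O) (hOE : O ⊆ E) :
    ∃ M : ℂ × ℂ → ℂ, (∀ p ∈ O, 0 ≤ s₀ → M p = L p) ∧ ∀ p ∈ O, ∀ j : ℕ, j * ε ≤ s₀ →
      AnalyticAt ℂ M (Sh (j * ε) p) ∧ ‖M (Sh (j * ε) p) - Λ (Sh (j * ε) p)‖ ≤ κ := by
  classical
  set Va : ℕ → ℂ × ℂ → ℂ := fun j q => ((Ph ε ξ)^[j] (stt L ε (Sh (-(j * ε)) q))).1 with hVa
  have hle : ∀ (q : ℂ × ℂ) (j j' : ℕ), j ≤ j' → Sh (-(j * ε)) q ∈ O → Sh (-(j' * ε)) q ∈ O →
      Va j q = Va j' q := by
    intro q j j' hjj h1 h2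
    have e1 : Sh (-(j * ε)) q = Sh ((j' - j : ℕ) * ε) (Sh (-(j' * ε)) q) := by
      rw [Sh_Sh, Nat.cast_sub hjj]
      congr 1
      ring
    have h3 := h.consist hε hOc hOE (k := j' - j) (j := j) h2 (by rw [← e1]; exact h1)
    rw [← e1, Nat.add_sub_cancel' hjj] at h3
    simp only [hVa, h3]
  have hva : ∀ (q : ℂ × ℂ) (j j' : ℕ), Sh (-(j * ε)) q ∈ O → Sh (-(j' * ε)) q ∈ O →
      Va j q = Va j' q := by
    intro q j j' h1 h2
    rcases le_total j j' with h3 | h3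
    · exact hle q j j' h3 h1 h2
    · exact (hle q j' j h3 h2 h1).symm
  set M : ℂ × ℂ → ℂ := fun q =>
    if hq : ∃ j : ℕ, j * ε ≤ s₀ ∧ Sh (-(j * ε)) q ∈ O then Va hq.choose q else 0 with hM
  have hMv : ∀ (q : ℂ × ℂ) (j : ℕ), j * ε ≤ s₀ → Sh (-(j * ε)) q ∈ O → M q = Va j q := by
    intro q j hj hq
    have hex : ∃ j : ℕ, j * ε ≤ s₀ ∧ Sh (-(j * ε)) q ∈ O := ⟨j, hj, hq⟩
    have h1 : M q = Va hex.choose q := dif_pos hex
    rw [h1]
    exact hva q _ _ hex.choose_spec.2 hq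
  have hinv : ∀ (j : ℕ) (p : ℂ × ℂ), Sh (-(j * ε)) (Sh (j * ε) p) = p := by
    intro j p
    rw [Sh_Sh, neg_add_cancel, Sh_zero]
  refine ⟨M, fun p hp hs => ?_, fun p hp j hj => ⟨?_, ?_⟩⟩
  · have e0 : Sh (-((0 : ℕ) * ε)) p = p := by
      rw [Nat.cast_zero, zero_mul, neg_zero, Sh_zero]
    rw [hMv p 0 (by rw [Nat.cast_zero, zero_mul]; exact hs) (by rw [e0]; exact hp)]
    simp only [hVa]
    rw [e0]
    rfl
  · have h1 : AnalyticAt ℂ (Va j) (Sh (j * ε) p) := by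
      have h2 := h.iter_an hε (hOE hp) hj
      have h3 : AnalyticAt ℂ (fun q => (Ph ε ξ)^[j] (stt L ε (Sh (-(j * ε)) q)))
          (Sh (j * ε) p) :=
        AnalyticAt.comp_of_eq (g := fun q => (Ph ε ξ)^[j] (stt L ε q)) h2
          (analyticAt_Sh (-(j * ε)) _) (hinv j p)
      exact analyticAt_fst.comp h3
    refine h1.congr ?_
    have h2 : ∀ᶠ q in 𝓝 (Sh (j * ε) p), Sh (-(j * ε)) q ∈ O := by
      refine (continuous_Sh (-(j * ε))).continuousAt.eventually_mem ?_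
      rw [hinv]
      exact hO.mem_nhds hp
    filter_upwards [h2] with q hq
    exact (hMv q j hj hq).symm
  · rw [hMv _ j hj (by rw [hinv]; exact hp)]
    simp only [hVa, hinv]
    exact (norm_fst_le _).trans (h.close p (hOE hp) j hj)

/-- Identification with another analytic function along the tube.

Proof. Put `S := {Sh s p | 0 ≤ s ≤ j ε}` (preconnected: image of `Icc`). `M` is analytic at the
points of
`S`: `s = i ε + θ`, `0 ≤ θ < ε`, `i ε ≤ s₀`, `Sh θ p ∈ O`, `Sh s p = Sh (i ε) (Sh θ p)`. `L'` is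
analytic
there by hypothesis, and `M = L'` near `p`. `AnalyticOnNhd.eqOn_of_preconnected_of_eventuallyEq`. -/
theorem tube_eq {M L' : ℂ × ℂ → ℂ} {p : ℂ × ℂ} {j : ℕ} (hε : 0 < ε)
    (hM : ∀ p ∈ O, ∀ j : ℕ, j * ε ≤ s₀ → AnalyticAt ℂ M (Sh (j * ε) p)) (hO : IsOpen O)
    (hp : ∀ θ ∈ Icc (0:ℝ) ε, Sh θ p ∈ O) (hj : j * ε ≤ s₀) (hML : ∀ q ∈ O, M q = L' q)
    (hL : ∀ s ∈ Icc (0:ℝ) (j * ε), AnalyticAt ℂ L' (Sh s p)) :
    M (Sh (j * ε) p) = L' (Sh (j * ε) p) := by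
  have hjn : (0 : ℝ) ≤ j * ε := by positivity
  have hc : Continuous fun s : ℝ => Sh s p := by
    unfold Sh
    fun_prop
  have hpre : IsPreconnected ((fun s : ℝ => Sh s p) '' Icc (0 : ℝ) (j * ε)) :=
    isPreconnected_Icc.image _ hc.continuousOn
  have hMan : AnalyticOnNhd ℂ M ((fun s : ℝ => Sh s p) '' Icc (0 : ℝ) (j * ε)) := by
    rintro _ ⟨s, hs, rfl⟩
    have hs0 : 0 ≤ s / ε := div_nonneg hs.1 hε.le
    have h1 : (⌊s / ε⌋₊ : ℝ) * ε ≤ s := by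
      have h2 := Nat.floor_le hs0
      rwa [le_div_iff₀ hε] at h2
    have h2 : s < ((⌊s / ε⌋₊ : ℝ) + 1) * ε := by
      have h3 := Nat.lt_floor_add_one (s / ε)
      rwa [div_lt_iff₀ hε] at h3
    have h3 := hM (Sh (s - ⌊s / ε⌋₊ * ε) p) (hp _ ⟨by linarith, by linarith⟩) ⌊s / ε⌋₊
      (by linarith [hs.2])
    rw [Sh_Sh] at h3
    have e : (⌊s / ε⌋₊ : ℝ) * ε + (s - ⌊s / ε⌋₊ * ε) = s := by ring
    rw [e] at h3
    exact h3
  have hLan : AnalyticOnNhd ℂ L' ((fun s : ℝ => Sh s p) '' Icc (0 : ℝ) (j * ε)) := by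
    rintro _ ⟨s, hs, rfl⟩
    exact hL s hs
  have hp0 : p ∈ O := by
    have h1 := hp 0 ⟨le_rfl, hε.le⟩
    rwa [Sh_zero] at h1
  refine hMan.eqOn_of_preconnected_of_eventuallyEq hLan hpre (z₀ := p)
    ⟨0, ⟨le_rfl, hjn⟩, Sh_zero p⟩ ?_ ⟨j * ε, ⟨hjn, le_rfl⟩, rfl⟩
  filter_upwards [hO.mem_nhds hp0] with q hq
  exact hML q hq

end Pool.Agent.MP_ae5b4e_an_MT
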