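import Pool.Agent.Lib.MP_ae5b4e_an_MT.Ls
import Pool.Agent.Lib.MP_ae5b4e_an_MT.Tub
import Pool.Agent.Lib.MP_ae5b4e_an_MT.SatA
import Pool.Agent.Lib.MP_ae5b4e_an_M.EqA
import Pool.Agent.Lib.MP_ae5b4e_an_M.CoB

/-! # MT, SAT: the free label -/

noncomputable section

namespace Pool.Agent.MP_ae5b4e_an_MT

open Complex Set Filter Topology Metric
open Pool.Agent.MP_ae5b4e_an_NBT (St Mer EqM)
open Pool.Agent.MP_ae5b4e_an_NB2 (Sys)
open Pool.Agent.MP_ae5b4e_an_N5 (NV)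
open Pool.Agent.MP_ae5b4e_an_PB
open Pool.Agent.MP_ae5b4e_an_M
open PorTR (Hm)

variable {Y : Sys} {h R C0 : ℝ} {v : ℂ → ℝ} {G L : ℂ × ℂ → ℂ} {U : Ultrafilter ℕ} {β C1 : ℝ}
  {c V : ℕ → ℝ}

/-- `q = 0` gives the free label.

Proof. `γ = 0`: `LI_tendsto`, `Ln_zero_at` (or `DI_zero`). `γ ≠ 0`: `LI_unique` with
`S = {s | (s, γ) ∈ DI} = {Im s < - vI γ}` (open half plane), `l = id`: `deriv id = 1`,
`deriv (deriv id) = 0`, and `bb q l α = 0` because `qI = 0` near every point of `Hm`, so its derivative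
is `0`. -/
theorem LI_free (hB : Base Y h R C0 v G L) (HW : Win v U β C1 c V) (x : ℕ → ℝ)
    (h0 : ∀ l : ℂ, l.im < 0 → qI Y h U x c V l = 0) {p : ℂ × ℂ} (hp : p ∈ DI v U c V) :
    LI L h U x c V p = p.1 := by
  exact LI_zero_pot hB HW x (fun l hl => h0 l hl) hp

/-- `‖γ‖ ≤ B`, `2 C1 B ≤ - Im τ`: in the limit domain -/
theorem DI_deep (hB : Base Y h R C0 v G L) (HW : Win v U β C1 c V) {B : ℝ} (hB1 : 1 ≤ B)
    {p : ℂ × ℂ} (h1 : ‖p.2‖ ≤ B) (h2 : 2 * C1 * B ≤ -p.1.im) : p ∈ DI v U c V := by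
  have hC : 1 ≤ C1 := HW.C1_one
  have h3 := vI_le hB.nv hB.R_pos HW p.2
  have hB0 : 0 ≤ B := by linarith
  have h4 : ‖p.2‖ ^ β ≤ B := by
    calc ‖p.2‖ ^ β ≤ B ^ β := Real.rpow_le_rpow (norm_nonneg _) h1 HW.β_pos.le
      _ ≤ B ^ (1 : ℝ) := Real.rpow_le_rpow_of_exponent_le hB1 HW.β_le
      _ = B := Real.rpow_one B
  have h5 : C1 * max ‖p.2‖ (‖p.2‖ ^ β) ≤ C1 * B :=
    mul_le_mul_of_nonneg_left (max_le h1 h4) (by linarith)
  have h6 : 0 < C1 * B := by positivity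
  show p.1.im < -vI v U c V p.2
  linarith

/-- the parameter ball: imaginary parts and norms -/
private theorem SatC_ball {γ₀ e r : ℝ} (hγ : 0 < γ₀) (he : 0 < e) {γ : ℂ}
    (h : ‖γ - (γ₀ + e * I)‖ ≤ r) :
    e - r ≤ γ.im ∧ γ.im ≤ e + r ∧ ‖γ‖ ≤ γ₀ + e + r ∧ |γ.re| ≤ γ₀ + r := by
  have h1 := (abs_im_le_norm (γ - (γ₀ + e * I))).trans h
  have h2 := (abs_re_le_norm (γ - (γ₀ + e * I))).trans h
  have e1 : (γ - (γ₀ + e * I)).im = γ.im - e := by simp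
  have e2 : (γ - (γ₀ + e * I)).re = γ.re - γ₀ := by simp
  rw [e1, abs_le] at h1
  rw [e2, abs_le] at h2
  refine ⟨by linarith, by linarith, ?_, ?_⟩
  · have h3 : ‖(γ₀ + e * I : ℂ)‖ ≤ γ₀ + e := by
      refine (norm_add_le _ _).trans ?_
      rw [norm_mul, Complex.norm_I, mul_one, Complex.norm_real, Complex.norm_real,
        Real.norm_of_nonneg hγ.le, Real.norm_of_nonneg he.le]
    have h4 := norm_add_le (γ - (γ₀ + e * I)) (γ₀ + e * I)
    rw [sub_add_cancel] at h4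
    linarith
  · rw [abs_le]
    constructor <;> linarith

private theorem SatC_compact (a X Y' r : ℝ) (p₀ : ℂ) :
    IsCompact ({τ : ℂ | |τ.re| ≤ a ∧ X ≤ -τ.im ∧ -τ.im ≤ Y'} ×ˢ closedBall p₀ r) := by
  refine IsCompact.prod ?_ (isCompact_closedBall p₀ r)
  refine Metric.isCompact_of_isClosed_isBounded ?_ ?_
  · exact (isClosed_le Complex.continuous_re.abs continuous_const).inter
      ((isClosed_le continuous_const Complex.continuous_im.neg).inter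
        (isClosed_le Complex.continuous_im.neg continuous_const))
  · refine isBounded_iff_forall_norm_le.2 ⟨|a| + (|X| + |Y'|), fun w hw => ?_⟩
    obtain ⟨h1, h2, h3⟩ := hw
    have h4 := Complex.norm_le_abs_re_add_abs_im w
    have h5 : |w.im| ≤ |X| + |Y'| := by
      have h6 := neg_abs_le X
      have h7 := le_abs_self Y'
      have h8 := abs_nonneg X
      have h9 := abs_nonneg Y'
      rw [abs_le]
      constructor <;> linarith
    have h6 := le_abs_self a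
    linarith

private theorem SatC_convex (a X Y' r : ℝ) (p₀ : ℂ) :
    Convex ℝ ({τ : ℂ | |τ.re| ≤ a ∧ X ≤ -τ.im ∧ -τ.im ≤ Y'} ×ˢ closedBall p₀ r) := by
  refine Convex.prod ?_ (convex_closedBall p₀ r)
  have h : {τ : ℂ | |τ.re| ≤ a ∧ X ≤ -τ.im ∧ -τ.im ≤ Y'} =
      ({z : ℂ | -a ≤ z.re} ∩ {z : ℂ | z.re ≤ a}) ∩ ({z : ℂ | -Y' ≤ z.im} ∩ {z : ℂ | z.im ≤ -X}) := by
    ext z
    constructor
    · rintro ⟨h1, h2, h3⟩
      rw [abs_le] at h1
      exact ⟨⟨h1.1, h1.2⟩, by change -Y' ≤ z.im; linarith, by change z.im ≤ -X; linarith⟩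
    · rintro ⟨⟨h1, h2⟩, h3, h4⟩
      have h3' : -Y' ≤ z.im := h3
      have h4' : z.im ≤ -X := h4
      exact ⟨abs_le.2 ⟨h1, h2⟩, by linarith, by linarith⟩
  rw [h]
  exact ((convex_halfSpace_re_ge _).inter (convex_halfSpace_re_le _)).inter
    ((convex_halfSpace_im_ge _).inter (convex_halfSpace_im_le _))

/-- the covering -/
private theorem SatC_cover {γ₀ d X R₁ e r s₀ ε : ℝ} (hγ : 0 < γ₀) (hd : 0 < d) (hdX : d < X)
    (he : 0 < e) (he1 : e ≤ 1) (hr : 0 < r) (hr1 : 8 * X * r ≤ e * d)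
    (hs₀ : s₀ * e = X - d / 2) (hε : 0 < ε) (hε1 : ε * (e + r) ≤ d / 16) (hε2 : 8 * (e * ε) ≤ d)
    {q : ℂ × ℂ} (hq : q ∈ Rc R₁ d (X + d / 8) ×ˢ ball (γ₀ + e * I) r) :
    ∃ j : ℕ, j * ε ≤ s₀ ∧ Sh (-(j * ε)) q ∈
      Rc (R₁ + s₀ * (γ₀ + 2) + 1) X (X + d / 4) ×ˢ ball (γ₀ + e * I) r := by
  obtain ⟨hq1, hq2⟩ := hq
  obtain ⟨c1, c2, c3⟩ := hq1
  have hX : 0 < X := hd.trans hdX
  have hre : r ≤ e / 8 := by nlinarith
  have hball : ‖q.2 - (γ₀ + e * I)‖ ≤ r := by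
    have := mem_ball_iff_norm.1 hq2
    exact this.le
  obtain ⟨b1, b2, b3, b4⟩ := SatC_ball hγ he hball
  have him : 0 < q.2.im := by linarith
  have hs0 : 0 < s₀ := by
    have h1 : 0 < s₀ * e := by rw [hs₀]; linarith
    exact (mul_pos_iff_of_pos_right he).1 h1
  have hex : ∃ j : ℕ, X < -q.1.im + j * ε * q.2.im := by
    obtain ⟨j, hj⟩ := exists_nat_gt ((X + q.1.im) / (ε * q.2.im))
    refine ⟨j, ?_⟩
    rw [div_lt_iff₀ (mul_pos hε him)] at hj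
    linarith
  classical
  obtain ⟨j, hj, hmin⟩ : ∃ j : ℕ, X < -q.1.im + j * ε * q.2.im ∧
      ∀ i : ℕ, i < j → -q.1.im + i * ε * q.2.im ≤ X :=
    ⟨Nat.find hex, Nat.find_spec hex, fun i hi => not_lt.1 (Nat.find_min hex hi)⟩
  have hup : -q.1.im + j * ε * q.2.im < X + d / 4 := by
    rcases Nat.eq_zero_or_pos j with h | h
    · rw [h, Nat.cast_zero, zero_mul, zero_mul, add_zero]
      linarith
    · have h1 := hmin (j - 1) (by omega)
      rw [Nat.cast_sub (by omega : 1 ≤ j)] at h1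
      push_cast at h1
      have h2 : ε * q.2.im ≤ ε * (e + r) := mul_le_mul_of_nonneg_left b2 hε.le
      nlinarith
  have hjs : j * ε ≤ s₀ := by
    rcases Nat.eq_zero_or_pos j with h | h
    · rw [h, Nat.cast_zero, zero_mul]
      exact hs0.le
    · have h1 := hmin (j - 1) (by omega)
      rw [Nat.cast_sub (by omega : 1 ≤ j)] at h1
      push_cast at h1
      have hj1 : (1 : ℝ) ≤ j := by exact_mod_cast h
      obtain ⟨m, hm⟩ : ∃ m : ℝ, m = ((j : ℝ) - 1) * ε := ⟨_, rfl⟩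
      have hm0 : 0 ≤ m := by
        rw [hm]
        exact mul_nonneg (by linarith) hε.le
      have h2 : m * q.2.im ≤ X - d := by
        rw [hm]
        linarith
      have h3 : m * (e - r) ≤ X - d := (mul_le_mul_of_nonneg_left b1 hm0).trans h2
      -- `m e (8 X - d) ≤ 8 X (X - d)`
      have h4 : m * e * (8 * X - d) ≤ 8 * X * (X - d) := by
        have h5 : m * (8 * X * r) ≤ m * (e * d) := mul_le_mul_of_nonneg_left hr1 hm0
        nlinarith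
      have h5 : m * e ≤ X - 3 * d / 4 := by
        have h6 : 0 < 8 * X - d := by linarith
        by_contra hcon
        push Not at hcon
        have h7 := mul_lt_mul_of_pos_right hcon h6
        nlinarith [mul_pos hX hd, mul_pos hd hd]
      have h6 : (j : ℝ) * ε * e ≤ s₀ * e := by
        rw [hs₀]
        have h7 : (j : ℝ) * ε = m + ε := by
          rw [hm]
          ring
        rw [h7]
        nlinarith
      exact le_of_mul_le_mul_right h6 he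
  refine ⟨j, hjs, ⟨?_, ?_, ?_⟩, hq2⟩
  · have h1 : (Sh (-(j * ε)) q).1.re = q.1.re - j * ε * q.2.re := by
      simp [Sh]
      ring
    rw [h1]
    have h2 := abs_sub q.1.re (j * ε * q.2.re)
    have hj0 : (0 : ℝ) ≤ j * ε := by positivity
    have h3 : |(j : ℝ) * ε * q.2.re| ≤ s₀ * (γ₀ + 2) := by
      rw [abs_mul, abs_of_nonneg hj0]
      exact mul_le_mul hjs (by linarith) (abs_nonneg _) hs0.le
    linarith
  · have h1 : (Sh (-(j * ε)) q).1.im = q.1.im - j * ε * q.2.im := by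
      simp [Sh]
      ring
    rw [h1]
    linarith
  · have h1 : (Sh (-(j * ε)) q).1.im = q.1.im - j * ε * q.2.im := by
      simp [Sh]
      ring
    rw [h1]
    linarith

/-- THE TUBE for the free label.

Proof. `E := {|Re τ| ≤ R₂, X ≤ - Im τ ≤ X + d / 4} ×ˢ closedBall p₀ r`, `p₀ = γ₀ + e I`,
`s₀ := (X - d / 2) / e`, `R₂ := R₁ + s₀ (γ₀ + 2) + 1`, `Ω := {Im p.1 < 0}`, `Λ p := p.1`. `E ⊆ DI` (`DI_deep`,
`‖γ‖ ≤ γ₀ + e + r ≤ γ₀ + 3`), compact, convex. For `p ∈ E`, `0 ≤ s ≤ s₀`: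
`Im (τ + s γ) ≤ - X + s₀ (e + r) ≤ - X + (X - d / 2) + X r / e ≤ - d / 2 + d / 8 < 0`. `Λ = LI` near the points of
`E` (`LI_free`, `DI` open). `LS.run` (`ls_win`), `Run.tube` with `O :=` the interior box
`{|Re τ| < R₂, X < - Im τ < X + d / 4} ×ˢ ball p₀ r` (open, convex).

COVERING, for `ε = c n / V n` with `ε (e + r) ≤ d / 16`, `ε ≤ d / (8 e)`: let `q = (τ, γ)` be in the set of the
statement. If `X < - Im τ`: `q ∈ O`, `j = 0`. Otherwise let `j` be the least natural number with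
`- Im τ + j ε Im γ > X`; then `- Im τ + j ε Im γ ≤ X + ε Im γ < X + d / 4`, `j ε ≤ (X - d) / (e - r) + ε`
`≤ (X - d) / e + 2 X r / e ^ 2 + ε ≤ (X - d) / e + d / (4 e) + d / (8 e) ≤ s₀`, and
`|Re (τ - j ε γ)| < R₁ + s₀ (γ₀ + 2) < R₂`: `Sh (- (j ε)) q ∈ O`. -/
theorem sat_tube (hB : Base Y h R C0 v G L) (HW : Win v U β C1 c V) (x : ℕ → ℝ)
    (h0 : ∀ l : ℂ, l.im < 0 → qI Y h U x c V l = 0) {γ₀ d X R₁ e r : ℝ} (hγ : 0 < γ₀)
    (hd : 0 < d) (hdX : d < X) (hX : 2 * C1 * (γ₀ + 3) ≤ X) (he : 0 < e) (he1 : e ≤ 1)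
    (hr : 0 < r) (hr1 : 8 * X * r ≤ e * d) (hR : 1 < R₁) {κ : ℝ} (hκ : 0 < κ) :
    ∀ᶠ n in (U : Filter ℕ), ∃ M : ℂ × ℂ → ℂ,
      AnalyticOnNhd ℂ M (Rc R₁ d (X + d / 8) ×ˢ ball (γ₀ + e * I) r) ∧
      (∀ p ∈ Rc R₁ d (X + d / 8) ×ˢ ball (γ₀ + e * I) r, ‖M p - p.1‖ ≤ κ) ∧
      ∀ p ∈ Rc R₁ X (X + d / 8) ×ˢ ball (γ₀ + e * I) r, M p = Ln L h x c V n p := by
  have hX0 : 0 < X := hd.trans hdX
  have hre : r ≤ e / 8 := by nlinarith
  obtain ⟨s₀, hs₀⟩ : ∃ s₀ : ℝ, s₀ * e = X - d / 2 := ⟨(X - d / 2) / e, div_mul_cancel₀ _ he.ne'⟩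
  have hs0 : 0 < s₀ := by
    have h1 : 0 < s₀ * e := by rw [hs₀]; linarith
    exact (mul_pos_iff_of_pos_right he).1 h1
  obtain ⟨R₂, hR₂⟩ : ∃ R₂ : ℝ, R₂ = R₁ + s₀ * (γ₀ + 2) + 1 := ⟨_, rfl⟩
  have hR12 : R₁ < R₂ := by
    have : 0 < s₀ * (γ₀ + 2) := by positivity
    linarith
  set E : Set (ℂ × ℂ) := {τ : ℂ | |τ.re| ≤ R₂ ∧ X ≤ -τ.im ∧ -τ.im ≤ X + d / 4} ×ˢ
    closedBall (γ₀ + e * I) r with hE
  have hEc : IsCompact E := SatC_compact R₂ X (X + d / 4) r _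
  have hEv : Convex ℝ E := SatC_convex R₂ X (X + d / 4) r _
  have hED : E ⊆ DI v U c V := by
    rintro p ⟨⟨h1, h2, h3⟩, h4⟩
    obtain ⟨b1, b2, b3, b4⟩ := SatC_ball hγ he (mem_closedBall_iff_norm.1 h4)
    exact DI_deep hB HW (B := γ₀ + 3) (by linarith) (by linarith) (by linarith)
  have hΩ : IsOpen {p : ℂ × ℂ | p.1.im < 0} :=
    isOpen_lt (Complex.continuous_im.comp continuous_fst) continuous_const
  have hEΩ : ∀ p ∈ E, ∀ s ∈ Icc 0 s₀, Sh s p ∈ {p : ℂ × ℂ | p.1.im < 0} := by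
    rintro p ⟨⟨h1, h2, h3⟩, h4⟩ s hs
    obtain ⟨b1, b2, b3, b4⟩ := SatC_ball hγ he (mem_closedBall_iff_norm.1 h4)
    have e1 : (Sh s p).1.im = p.1.im + s * p.2.im := by
      simp [Sh]
    show (Sh s p).1.im < 0
    rw [e1]
    have h5 : s * p.2.im ≤ s₀ * (e + r) := by
      have h6 : 0 ≤ e + r := by linarith
      calc s * p.2.im ≤ s * (e + r) := mul_le_mul_of_nonneg_left b2 hs.1
        _ ≤ s₀ * (e + r) := mul_le_mul_of_nonneg_right hs.2 h6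
    have h6 : s₀ * r ≤ d / 8 := by
      have h7 : s₀ * r * e ≤ d / 8 * e := by
        have h8 : s₀ * r * e = (X - d / 2) * r := by
          rw [← hs₀]
          ring
        rw [h8]
        nlinarith
      exact le_of_mul_le_mul_right h7 he
    have h7 : s₀ * (e + r) = X - d / 2 + s₀ * r := by
      rw [mul_add, hs₀]
    linarith
  have heq : ∀ p ∈ E, (fun p : ℂ × ℂ => p.1) =ᶠ[𝓝 p] LI L h U x c V := by
    intro p hp
    filter_upwards [(DI_open hB.nv hB.R_pos HW).mem_nhds (hED hp)] with q hq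
    exact (LI_free hB HW x h0 hq).symm
  obtain ⟨d', R', A', r', C', -, -, -, hrun⟩ := (ls_win hB HW x).run hEc hEv.isPreconnected hED
    hs0.le hΩ (Λ := fun p : ℂ × ℂ => p.1) (fun p _ => analyticAt_fst) (fun p hp => hp) hEΩ heq
  have hO : IsOpen (Rc R₂ X (X + d / 4) ×ˢ ball (γ₀ + e * I : ℂ) r) :=
    (isOpen_Rc _ _ _).prod isOpen_ball
  have hOc : Convex ℝ (Rc R₂ X (X + d / 4) ×ˢ ball (γ₀ + e * I : ℂ) r) :=
    (convex_Rc _ _ _).prod (convex_ball _ _)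
  have hOE : Rc R₂ X (X + d / 4) ×ˢ ball (γ₀ + e * I : ℂ) r ⊆ E := by
    rintro p ⟨⟨h1, h2, h3⟩, h4⟩
    exact ⟨⟨h1.le, h2.le, h3.le⟩, ball_subset_closedBall h4⟩
  have hlim1 : ∀ᶠ n in (U : Filter ℕ), c n / V n * (e + r) < d / 16 :=
    lim_lt (cV_lim HW) (e + r) (by positivity)
  have hlim2 : ∀ᶠ n in (U : Filter ℕ), c n / V n * (8 * e) < d :=
    lim_lt (cV_lim HW) (8 * e) hd
  filter_upwards [hrun κ hκ, hlim1, hlim2] with n hn hn1 hn2
  obtain ⟨ξ, hξ⟩ := hn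
  have hε : 0 < c n / V n := div_pos (HW.c_pos n) (HW.V_pos n)
  obtain ⟨M, hM1, hM2⟩ := hξ.tube hε hO hOc hOE
  have hcov : ∀ q ∈ Rc R₁ d (X + d / 8) ×ˢ ball (γ₀ + e * I : ℂ) r,
      AnalyticAt ℂ M q ∧ ‖M q - q.1‖ ≤ κ := by
    intro q hq
    obtain ⟨j, hj, hjO⟩ := SatC_cover (s₀ := s₀) (ε := c n / V n) hγ hd hdX he he1 hr hr1 hs₀ hε
      hn1.le (by linarith) hq
    rw [← hR₂] at hjO
    have h1 := hM2 _ hjO j hj
    rw [Sh_Sh, add_neg_cancel, Sh_zero] at h1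
    exact h1
  refine ⟨M, fun q hq => (hcov q hq).1, fun q hq => (hcov q hq).2, fun q hq => ?_⟩
  refine hM1 q ⟨⟨hq.1.1.trans hR12, hq.1.2.1, ?_⟩, hq.2⟩ hs0.le
  have := hq.1.2.2
  linarith

end Pool.Agent.MP_ae5b4e_an_MT
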