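import Pool.Agent.Lib.MP_ae5b4e_an_MT.SatB
import Pool.Agent.Lib.MP_ae5b4e_an_MT.SatC
import Pool.Agent.Lib.MP_ae5b4e_an_MT.M9
import Pool.Agent.Lib.MP_ae5b4e_an_M.VB

/-! # MT: SAT (the zero potential is impossible) -/

noncomputable section

namespace Pool.Agent.MP_ae5b4e_an_MT

open Complex Set Filter Topology Metric
open Pool.Agent.MP_ae5b4e_an_NBT (St Mer EqM)
open Pool.Agent.MP_ae5b4e_an_NB2 (Sys)
open Pool.Agent.MP_ae5b4e_an_N5 (NV)
open Pool.Agent.MP_ae5b4e_an_PB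
open Pool.Agent.MP_ae5b4e_an_M
open PorTR (Hm)

variable {Y : Sys} {h R C0 : ℝ} {v : ℂ → ℝ} {G L : ℂ × ℂ → ℂ} {U : Ultrafilter ℕ} {β C1 : ℝ}
  {c V : ℕ → ℝ}

/-- the label extends to a thick tube about the real parameters near `γ₀`

Proof. `d := y / 2`, `X := 2 C1 (γ₀ + 3) + y + 1`, `σ := d / 8`, `η := min (d / (8 X)) 1`; `hart_ext`: `R₁`, `e`;
`r := η e`; `sat_tube` with `κ := d / 2`; the values of `M` are in
`Ω := {l | pt h x V n l ∈ St (-h) h}` (`- Im M ≥ d / 2 > 0`, `- Im M ≤ X + 1 + d < 2 h / V n`);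
`L' := Ln`: on `Rc R₁ X (X + σ) ×ˢ ball p₀ 2` the points are in `Dn` for almost all `n` (`mem_base`, `Rg_big`,
`‖γ‖ ≤ γ₀ + 3`), `Ln_an_at`, `hB.maps`. -/
theorem sat_ext (hB : Base Y h R C0 v G L) (HW : Win v U β C1 c V) (x : ℕ → ℝ)
    (h0 : ∀ l : ℂ, l.im < 0 → qI Y h U x c V l = 0) {γ₀ y : ℝ} (hγ : 0 < γ₀) (hy : 0 < y) :
    ∃ X σ e : ℝ, y < X ∧ 2 * C1 * (γ₀ + 3) ≤ X ∧ 0 < σ ∧ 0 < e ∧ e ≤ 1 ∧
      ∀ᶠ n in (U : Filter ℕ), ∃ F : ℂ × ℂ → ℂ,
        AnalyticOnNhd ℂ F (Rc 1 y (X + σ) ×ˢ ball (γ₀ + e * I) (2 * e)) ∧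
        (∀ p ∈ Rc 1 y (X + σ) ×ˢ ball (γ₀ + e * I) (2 * e), pt h x V n (F p) ∈ St (-h) h) ∧
        ∀ p ∈ Rc 1 X (X + σ) ×ˢ ball (γ₀ + e * I) (2 * e),
          p ∈ Dn v h R x c V n ∧ F p = Ln L h x c V n p := by
  have hC1 := HW.C1_one
  obtain ⟨d, hd⟩ : ∃ d : ℝ, d = y / 2 := ⟨_, rfl⟩
  obtain ⟨X, hX⟩ : ∃ X : ℝ, X = 2 * C1 * (γ₀ + 3) + y + 1 := ⟨_, rfl⟩
  have hd0 : 0 < d := by rw [hd]; positivity
  have hCg : 6 ≤ 2 * C1 * (γ₀ + 3) := by nlinarith
  have hX6 : 6 < X := by rw [hX]; linarith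
  have hXC : 2 * C1 * (γ₀ + 3) ≤ X := by rw [hX]; linarith
  have hyX : y < X := by rw [hX]; linarith
  have hdy : d < y := by rw [hd]; linarith
  obtain ⟨η, hη⟩ : ∃ η : ℝ, η = min (d / (8 * X)) 1 := ⟨_, rfl⟩
  have hη0 : 0 < η := by
    rw [hη]
    exact lt_min (by positivity) one_pos
  have hη1 : η ≤ 1 := by
    rw [hη]
    exact min_le_right _ _
  obtain ⟨R₁, e, hR₁, he, he1, H⟩ := hart_ext (d := d) (y := y) (X := X) (σ := d / 8) (η := η)
    hdy hyX (by positivity) hη0 hη1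
  refine ⟨X, d / 8, e, hyX, hXC, by positivity, he, he1, ?_⟩
  have hr1 : 8 * X * (η * e) ≤ e * d := by
    have h1 : η ≤ d / (8 * X) := by
      rw [hη]
      exact min_le_left _ _
    rw [le_div_iff₀ (by positivity)] at h1
    nlinarith
  have e1 := sat_tube hB HW x h0 (γ₀ := γ₀) (d := d) (X := X) (R₁ := R₁) (e := e) (r := η * e)
    hγ hd0 (hdy.trans hyX) hXC he he1 (mul_pos hη0 he) hr1 hR₁ (κ := d / 2) (by positivity)
  have e2 : ∀ᶠ n in (U : Filter ℕ), V n * (X + d) < 2 * h := by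
    have h1 : Tendsto (fun n => V n * (X + d)) U (𝓝 (0 * (X + d))) := HW.V_lim.mul_const _
    rw [zero_mul] at h1
    exact h1.eventually_lt_const (by linarith [hB.h_pos])
  have e3 := mem_base hB HW (K := X + d / 8 + 1) (by linarith)
  filter_upwards [e1, e2, e3] with n hM h2 h3
  obtain ⟨M, hM1, hM2, hM3⟩ := hM
  have hVn := HW.V_pos n
  have hVc : (V n : ℂ) ≠ 0 := by exact_mod_cast hVn.ne'
  have hmem : ∀ p : ℂ × ℂ, X < -p.1.im → -p.1.im < X + d / 8 → ‖p.2‖ ≤ γ₀ + 3 →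
      p ∈ Dn v h R x c V n := by
    intro p h4 h5 h6
    refine h3 x p.1 p.2 ?_ (by linarith) (h6.trans (Rg_big HW (by linarith) (by linarith)))
    have h7 : 1 / (X + d / 8 + 1) ≤ 1 := by
      rw [div_le_one (by linarith)]
      linarith
    linarith
  have hball : ∀ z ∈ ball ((γ₀ : ℂ) + e * I) 2, ‖z‖ ≤ γ₀ + 3 := by
    intro z hz
    rw [mem_ball, dist_eq_norm] at hz
    have h4 : ‖z‖ ≤ ‖z - ((γ₀ : ℂ) + e * I)‖ + ‖(γ₀ : ℂ) + e * I‖ := by
      have := norm_add_le (z - ((γ₀ : ℂ) + e * I)) ((γ₀ : ℂ) + e * I)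
      rwa [sub_add_cancel] at this
    have h5 : ‖(γ₀ : ℂ) + e * I‖ ≤ γ₀ + e := by
      refine (norm_add_le _ _).trans ?_
      rw [norm_mul, Complex.norm_I, mul_one, Complex.norm_real, Complex.norm_real,
        Real.norm_of_nonneg hγ.le, Real.norm_of_nonneg he.le]
    linarith
  have hptim : ∀ l : ℂ, (pt h x V n l).im = h + V n * l.im := by
    intro l
    simp [pt]
  have hmem2 : ∀ p ∈ Rc R₁ X (X + d / 8) ×ˢ ball ((γ₀ : ℂ) + e * I) 2,
      p ∈ Dn v h R x c V n := fun p hp => hmem p hp.1.2.1 hp.1.2.2 (hball _ hp.2)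
  have g1 : MapsTo M (Rc R₁ d (X + d / 8) ×ˢ ball ((γ₀ : ℂ) + e * I) (η * e))
      {l | pt h x V n l ∈ St (-h) h} := by
    intro p hp
    have h4 := hM2 p hp
    have h5 := (Complex.abs_im_le_norm (M p - p.1)).trans h4
    rw [Complex.sub_im, abs_le] at h5
    have h6 : d < -p.1.im := hp.1.2.1
    have h7 : -p.1.im < X + d / 8 := hp.1.2.2
    change pt h x V n (M p) ∈ St (-h) h
    have h8 : V n * (-(M p).im) < V n * (X + d) := mul_lt_mul_of_pos_left (by linarith) hVn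
    have h9 : 0 < V n * (-(M p).im) := mul_pos hVn (by linarith)
    constructor
    · rw [hptim]
      nlinarith
    · rw [hptim]
      nlinarith
  have g2 : AnalyticOnNhd ℂ (Ln L h x c V n)
      (Rc R₁ X (X + d / 8) ×ˢ ball ((γ₀ : ℂ) + e * I) 2) := fun p hp =>
    Ln_an_at hB HW n x (hmem2 p hp)
  have g3 : MapsTo (Ln L h x c V n) (Rc R₁ X (X + d / 8) ×ˢ ball ((γ₀ : ℂ) + e * I) 2)
      {l | pt h x V n l ∈ St (-h) h} := by
    intro p hp
    have h4 := hB.maps _ (hmem2 p hp)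
    have h5 : pt h x V n (Ln L h x c V n p) = L (wp h x c V n p) := by
      change (x n : ℂ) + h * I + V n * ((L (pt h x V n p.1, c n * p.2) - (x n + h * I)) / V n) = _
      rw [mul_div_cancel₀ _ hVc]
      change _ = L (pt h x V n p.1, c n * p.2)
      ring
    change pt h x V n (Ln L h x c V n p) ∈ St (-h) h
    rw [h5]
    exact h4
  obtain ⟨F, hF1, hF2, hF3, hF4⟩ := H ((γ₀ : ℂ) + e * I) {l | pt h x V n l ∈ St (-h) h} M
    (Ln L h x c V n) hM1 g1 g2 g3 hM3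
  refine ⟨F, hF1, fun p hp => hF2 hp, fun p hp => ⟨?_, hF4 p hp⟩⟩
  refine hmem p hp.1.2.1 hp.1.2.2 (hball _ ?_)
  exact ball_subset_ball (by linarith) hp.2

/-- SAT. If the limit potential is zero then `v_∞` is zero at the real parameters near `γ₀`.

Proof. `sat_ext`: `X, σ, e`; `δ := min e γ₀`. Let `n` be large (`V n (X + σ + 1) < h`, `c n (γ₀ + 3) < R`,
`c n (γ₀ + 3) < V n`, `vn ≤ C1 (γ₀ + 2) < X` for `‖γ‖ ≤ γ₀ + 1`, `vn_up_simple`). Let `γ` be real,
`|γ - γ₀| < δ`, `y < vn n γ`. `regF_win` with `B = B' = Rc 1 y (X + σ) ×ˢ ball p₀ (2 e)`, `M = F`: a point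
`(τ, γ')` of `B` is joined vertically to the depth `X + σ / 2` (or not at all if its depth is `> X`), in `B`,
where `F = Ln` on an open set. So `RegF` holds at all points of `B`. For real `x'` with
`|x' - x n| ≤ c n γ` the point `(x' + (h - v (c n γ)) I, c n γ)` is `wp (τ, γ)` with
`τ = (x' - x n) / V n - vn n γ I`, `|Re τ| ≤ c n γ / V n < 1`, `y < - Im τ < X`, `‖γ - p₀‖ < 2 e`: contradiction
to `hB.gpw`. -/
theorem sat_vn (hB : Base Y h R C0 v G L) (HW : Win v U β C1 c V) (x : ℕ → ℝ)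
    (h0 : ∀ l : ℂ, l.im < 0 → qI Y h U x c V l = 0) {γ₀ y : ℝ} (hγ : 0 < γ₀) (hy : 0 < y) :
    ∃ δ : ℝ, 0 < δ ∧ ∀ᶠ n in (U : Filter ℕ), ∀ γ : ℝ, |γ - γ₀| < δ → vn v c V n γ ≤ y := by
  obtain ⟨X, σ, e, hyX, hX, hσ, he, he1, H⟩ := sat_ext hB HW x h0 hγ hy
  refine ⟨min e γ₀, lt_min he hγ, ?_⟩
  have hC1 := HW.C1_one
  have e2 : ∀ᶠ n in (U : Filter ℕ), V n * (X + σ + 1) < h := by
    have h1 : Tendsto (fun n => V n * (X + σ + 1)) U (𝓝 (0 * (X + σ + 1))) :=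
      HW.V_lim.mul_const _
    rw [zero_mul] at h1
    exact h1.eventually_lt_const hB.h_pos
  have e3 : ∀ᶠ n in (U : Filter ℕ), c n * (γ₀ + 3) < R := by
    have h1 : Tendsto (fun n => c n * (γ₀ + 3)) U (𝓝 (0 * (γ₀ + 3))) :=
      HW.c_lim.mul_const _
    rw [zero_mul] at h1
    exact h1.eventually_lt_const hB.R_pos
  have e4 : ∀ᶠ n in (U : Filter ℕ), c n / V n * (γ₀ + 3) < 1 := by
    have h1 : Tendsto (fun n => c n / V n * (γ₀ + 3)) U (𝓝 (0 * (γ₀ + 3))) :=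
      (cV_lim HW).mul_const _
    rw [zero_mul] at h1
    exact h1.eventually_lt_const one_pos
  have e5 := vn_up_simple hB.nv hB.R_pos HW (K := γ₀ + 2) (by linarith)
  filter_upwards [H, e2, e3, e4, e5] with n hF h2 h3 h4 h5 γ hγ1
  obtain ⟨F, hF1, hF2, hF3⟩ := hF
  by_contra hcon
  push Not at hcon
  have hVn := HW.V_pos n
  have hcn := HW.c_pos n
  have hγe : |γ - γ₀| < e := hγ1.trans_le (min_le_left _ _)
  have hγγ : |γ - γ₀| < γ₀ := hγ1.trans_le (min_le_right _ _)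
  have hγ0 : 0 < γ := by
    have := (abs_lt.1 hγγ).1
    linarith
  have hγu : γ < γ₀ + 1 := by
    have := (abs_lt.1 hγe).2
    linarith
  have hBo : IsOpen (Rc 1 y (X + σ) ×ˢ ball ((γ₀ : ℂ) + e * I) (2 * e)) :=
    (isOpen_Rc _ _ _).prod isOpen_ball
  have hBc : IsPreconnected (Rc 1 y (X + σ) ×ˢ ball ((γ₀ : ℂ) + e * I) (2 * e)) :=
    ((convex_Rc _ _ _).prod (convex_ball _ _)).isPreconnected
  have hO : IsOpen (Rc 1 X (X + σ) ×ˢ ball ((γ₀ : ℂ) + e * I) (2 * e)) :=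
    (isOpen_Rc _ _ _).prod isOpen_ball
  have hreg := regF_win hB HW x n hBo hBc hBo Subset.rfl (M := F) hF1 hF2 (by
    intro p hp _
    have hp1 : |p.1.re| < 1 := hp.1.1
    have hp2 : y < -p.1.im := hp.1.2.1
    have hp3 : -p.1.im < X + σ := hp.1.2.2
    refine ⟨max 0 (X + σ / 2 + p.1.im), le_max_left _ _, fun s' hs' => ⟨⟨?_, hp.2⟩, ?_⟩, ?_⟩
    · refine ⟨?_, ?_, ?_⟩
      · simpa using hp1
      · have h6 : (p.1 - s' * I).im = p.1.im - s' := by simp
        rw [h6]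
        have := hs'.1
        linarith
      · have h6 : (p.1 - s' * I).im = p.1.im - s' := by simp
        rw [h6]
        rcases le_max_iff.1 hs'.2 with h7 | h7
        · linarith
        · linarith
    · have h7 : -(p.1.im - s') < X + σ := by
        rcases le_max_iff.1 hs'.2 with h7 | h7
        · linarith
        · linarith
      have h8 : V n * (-(p.1.im - s')) < V n * (X + σ) := mul_lt_mul_of_pos_left h7 hVn
      nlinarith
    · have h6 : (p.1 - (max 0 (X + σ / 2 + p.1.im) : ℝ) * I).im =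
          p.1.im - max 0 (X + σ / 2 + p.1.im) := by simp
      have h9 : (p.1 - (max 0 (X + σ / 2 + p.1.im) : ℝ) * I, p.2) ∈
          Rc 1 X (X + σ) ×ˢ ball ((γ₀ : ℂ) + e * I) (2 * e) := by
        refine ⟨⟨?_, ?_, ?_⟩, hp.2⟩
        · simpa using hp1
        · rw [h6]
          have := le_max_right 0 (X + σ / 2 + p.1.im)
          linarith
        · rw [h6]
          rcases max_choice 0 (X + σ / 2 + p.1.im) with h7 | h7
          · rw [h7]
            linarith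
          · rw [h7]
            linarith
      refine ⟨(hF3 _ h9).1, ?_⟩
      filter_upwards [hO.mem_nhds h9] with q hq
      exact (hF3 q hq).2)
  refine hB.gpw (c n * γ) (by positivity) ?_ (x n) (fun x' hx' => ?_)
  · refine lt_trans ?_ h3
    exact mul_lt_mul_of_pos_left (by linarith) hcn
  · have hvn : vn v c V n γ = v ((c n * γ : ℝ) : ℂ) / V n := by
      unfold vn
      push_cast
      rfl
    have hvV : V n * vn v c V n γ = v ((c n * γ : ℝ) : ℂ) := by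
      rw [hvn]
      exact mul_div_cancel₀ _ hVn.ne'
    have hvX : vn v c V n γ < X + σ := by
      have h6 := h5 (γ : ℂ) (by
        rw [Complex.norm_real, Real.norm_of_nonneg hγ0.le]
        linarith)
      nlinarith
    have h7 := hreg ((((x' - x n) / V n : ℝ) : ℂ) - (vn v c V n γ : ℝ) * I, (γ : ℂ)) (by
      refine ⟨⟨?_, ?_, ?_⟩, ?_⟩
      · have h8 : ((((x' - x n) / V n : ℝ) : ℂ) - (vn v c V n γ : ℝ) * I).re =
            (x' - x n) / V n := by simp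
        rw [h8, abs_div, abs_of_pos hVn, div_lt_one hVn]
        refine hx'.trans_lt ?_
        have h9 : c n * (γ₀ + 3) < V n := by
          rw [div_mul_eq_mul_div, div_lt_one hVn] at h4
          exact h4
        refine lt_trans ?_ h9
        exact mul_lt_mul_of_pos_left (by linarith) hcn
      · have h8 : ((((x' - x n) / V n : ℝ) : ℂ) - (vn v c V n γ : ℝ) * I).im =
            -vn v c V n γ := by simp
        rw [h8, neg_neg]
        exact hcon
      · have h8 : ((((x' - x n) / V n : ℝ) : ℂ) - (vn v c V n γ : ℝ) * I).im =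
            -vn v c V n γ := by simp
        rw [h8, neg_neg]
        exact hvX
      · rw [mem_ball, dist_eq_norm]
        have h8 : ((γ : ℂ) - ((γ₀ : ℂ) + e * I)) = ((γ - γ₀ : ℝ) : ℂ) - e * I := by
          push_cast
          ring
        rw [h8]
        refine (norm_sub_le _ _).trans_lt ?_
        rw [norm_mul, Complex.norm_I, mul_one, Complex.norm_real, Complex.norm_real,
          Real.norm_of_nonneg he.le, Real.norm_eq_abs]
        linarith)
    have h8 : wp h x c V n ((((x' - x n) / V n : ℝ) : ℂ) - (vn v c V n γ : ℝ) * I, (γ : ℂ)) =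
        ((x' : ℂ) + ((h - v ((c n * γ : ℝ) : ℂ) : ℝ) : ℂ) * I, ((c n * γ : ℝ) : ℂ)) := by
      refine Prod.ext ?_ ?_
      · change (x n : ℂ) + h * I + V n * ((((x' - x n) / V n : ℝ) : ℂ) -
          (vn v c V n γ : ℝ) * I) = _
        rw [← hvV]
        have hVc : (V n : ℂ) ≠ 0 := by exact_mod_cast hVn.ne'
        push_cast
        field_simp
        ring
      · change (c n : ℂ) * (γ : ℂ) = _
        push_cast
        rfl
    rw [h8] at h7
    exact h7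

/-- Proof. `vI_real`, `sat_vn` for `γ₀ > 0`; `vI_even`, `vI_zero`, `vI_nonneg`. -/
theorem sat_vI (hB : Base Y h R C0 v G L) (HW : Win v U β C1 c V) (x : ℕ → ℝ)
    (h0 : ∀ l : ℂ, l.im < 0 → qI Y h U x c V l = 0) (γ₀ : ℝ) : vI v U c V γ₀ = 0 := by
  have key : ∀ γ₁ : ℝ, 0 < γ₁ → vI v U c V γ₁ = 0 := by
    intro γ₁ hγ₁
    obtain ⟨g, hg1, hg2⟩ := vI_real hB.nv hB.R_pos HW γ₁
    refine le_antisymm (le_of_forall_pos_le_add fun y hy => ?_) (vI_nonneg hB.nv hB.R_pos HW _)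
    rw [zero_add]
    obtain ⟨δ, hδ, H⟩ := sat_vn hB HW x h0 hγ₁ hy
    have h1 : ∀ᶠ n in (U : Filter ℕ), |g n - γ₁| < δ := by
      have h2 := (Metric.tendsto_nhds.1 hg1) δ hδ
      exact h2
    refine le_of_tendsto hg2 ?_
    filter_upwards [H, h1] with n h3 h4
    exact h3 (g n) h4
  rcases lt_trichotomy γ₀ 0 with hγ | hγ | hγ
  · have h1 := key (-γ₀) (by linarith)
    rw [Complex.ofReal_neg, vI_even hB.nv hB.R_pos HW] at h1
    exact h1
  · rw [hγ, Complex.ofReal_zero]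
    exact vI_zero hB.nv hB.R_pos HW
  · exact key γ₀ hγ

/-- The form used in (2.1): `v (c n) ≥ η V n` for almost all `n` gives `q ≠ 0`, for every sequence of
places. -/
theorem sat (hB : Base Y h R C0 v G L) (HW : Win v U β C1 c V) (x : ℕ → ℝ) {η : ℝ} (hη : 0 < η)
    (hv : ∀ᶠ n in (U : Filter ℕ), η * V n ≤ v (c n)) : ∃ l : ℂ, l.im < 0 ∧ qI Y h U x c V l ≠ 0 := by
  by_contra hcon
  push Not at hcon
  obtain ⟨δ, hδ, H⟩ := sat_vn hB HW x hcon (γ₀ := 1) (y := η / 2) one_pos (by positivity)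
  obtain ⟨n, h1, h2⟩ := (H.and hv).exists
  have h3 := h1 1 (by rw [sub_self, abs_zero]; exact hδ)
  have hVn := HW.V_pos n
  unfold vn at h3
  rw [Complex.ofReal_one, mul_one, div_le_iff₀ hVn] at h3
  nlinarith

end Pool.Agent.MP_ae5b4e_an_MT
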