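import Pool.Agent.Lib.MP_ae5b4e_an_MT.Chn

/-! # MT: the continuation of the limit label is an approximate chain -/

noncomputable section

namespace Pool.Agent.MP_ae5b4e_an_MT

open Complex Set Filter Topology Metric
open Pool.Agent.MP_ae5b4e_an_NB2 (Sys)
open Pool.Agent.MP_ae5b4e_an_M (LB montel2 unif_compact)

variable {U : Ultrafilter ℕ} {Z : ℕ → Sys} {ε : ℕ → ℝ} {D : ℕ → Set (ℂ × ℂ)}
  {L : ℕ → ℂ × ℂ → ℂ} {DI : Set (ℂ × ℂ)} {LI : ℂ × ℂ → ℂ}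

/-- VITALI along the ultrafilter.

Proof. `montel2`: the pointwise limit `g` is analytic on `Ω` and the convergence is locally uniform;
`g = 0` on the open set `V` (`ulimC_eq`), so `g = 0` on the preconnected open set `Ω`
(`AnalyticOnNhd.eqOn_zero_of_preconnected_of_eventuallyEq_zero`); `unif_compact`. -/
theorem vitali {Ω V K : Set (ℂ × ℂ)} (hΩ : IsOpen Ω) (hc : IsPreconnected Ω)
    {f : ℕ → ℂ × ℂ → ℂ} {B : ℝ}
    (hf : ∀ᶠ n in (U : Filter ℕ), AnalyticOnNhd ℂ (f n) Ω ∧ ∀ p ∈ Ω, ‖f n p‖ ≤ B)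
    (hV : IsOpen V) (hVn : V.Nonempty) (hVΩ : V ⊆ Ω)
    (h0 : ∀ p ∈ V, Tendsto (fun n => f n p) U (𝓝 0)) (hK : IsCompact K) (hKΩ : K ⊆ Ω) {κ : ℝ}
    (hκ : 0 < κ) : ∀ᶠ n in (U : Filter ℕ), ∀ p ∈ K, ‖f n p‖ ≤ κ := by
  have hLB : ∀ p ∈ Ω, LB U f p := by
    intro p hp
    obtain ⟨δ, hδ, hδΩ⟩ := Metric.isOpen_iff.1 hΩ p hp
    refine ⟨δ, hδ, B, ?_⟩
    filter_upwards [hf] with n hn
    exact ⟨hn.1.mono hδΩ, fun q hq => hn.2 q (hδΩ hq)⟩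
  obtain ⟨hg, hT⟩ := montel2 hΩ hLB
  obtain ⟨v, hv⟩ := hVn
  have hz : ∀ p ∈ V, (Pool.Agent.MP_ae5b4e_an_M.ulimC U fun n => f n p) = 0 := fun p hp =>
    Pool.Agent.MP_ae5b4e_an_M.ulimC_eq (h0 p hp)
  have hev : (fun p => Pool.Agent.MP_ae5b4e_an_M.ulimC U fun n => f n p) =ᶠ[𝓝 v] 0 := by
    filter_upwards [hV.mem_nhds hv] with p hp
    exact hz p hp
  have hall := hg.eqOn_zero_of_preconnected_of_eventuallyEq_zero hc (hVΩ hv) hev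
  filter_upwards [unif_compact hT hK hKΩ hκ] with n hn p hp
  have h1 := hn p hp
  have h2 : (Pool.Agent.MP_ae5b4e_an_M.ulimC U fun n => f n p) = 0 := hall (hKΩ hp)
  rw [h2, sub_zero] at h1
  exact h1.le

private theorem App_dist_Sh {s : ℝ} (hs : 0 ≤ s) (p : ℂ × ℂ) : dist (Sh s p) p = s * ‖p.2‖ := by
  rw [Prod.dist_eq, Sh_fst, Sh_snd, dist_self, dist_eq_norm]
  have h1 : p.1 + (s : ℂ) * p.2 - p.1 = s * p.2 := by ring
  rw [h1, norm_mul, Complex.norm_real, Real.norm_of_nonneg hs]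
  exact max_eq_left (by positivity)

private theorem App_GG_mono {d R A δ : ℝ} (hδ : 0 ≤ δ) :
    GG (d + δ) (R - δ) (A - δ) ⊆ GG d R A := by
  rintro u ⟨h1, h2, h3⟩
  exact ⟨by linarith, by linarith, by linarith⟩

/-- On a small ball in `DI` the defect is small: there the true chain satisfies the relation.

Proof. `K := closedBall p₀ ρ ⊆ DI ∩ Ω ∩ {Λ = LI near}` (shrink `ρ`; `Λ = LI` on a neighbourhood of `K`,
so `stt Λ ε p = stt LI ε p`, `dq ε Λ (Sh ε p) = dq ε LI (Sh ε p)` for `p ∈ K`, `ε` small). For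
`κ'` small, `LS.near`, `LS.chain` (`r`, `C`, `ξ n`): with `z = stt (L n) p`, `z* = stt LI p`,
`ξ z = dq L (Sh ε p)`, so
`ξ z* - dq LI (Sh ε p) = ((ξ z* - z*.2) - (ξ z - z.2)) + ((z*.2 - z.2) - (dq LI - dq L) (Sh ε p))`;
the first bracket is `≤ 4 C ε / δ κ'` (`Stp.lip`), the second is
`- ε (dq (dq LI) - dq (dq L)) p`, `≤ ε κ'`. -/
theorem LS.app_loc (h : LS U Z ε D L DI LI) {Λ : ℂ × ℂ → ℂ} {p₀ : ℂ × ℂ} (hp : p₀ ∈ DI)
    (heq : Λ =ᶠ[𝓝 p₀] LI) {d R A δ r C ρ₀ : ℝ} (hδ : 0 < δ) (hr : 0 < r) (hC : 0 ≤ C)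
    (hρ₀ : 0 < ρ₀) {ξ : ℕ → ℂ × ℂ → ℂ}
    (hξ : ∀ᶠ n in (U : Filter ℕ), Stp (Z n) (ε n) d R A r C (ξ n))
    (hG : ∀ᶠ n in (U : Filter ℕ), ∀ p ∈ ball p₀ ρ₀,
      stt Λ (ε n) p ∈ GG (d + δ) (R - δ) (A - δ)) :
    ∃ ρ : ℝ, 0 < ρ ∧ ρ ≤ ρ₀ ∧ ∀ κ : ℝ, 0 < κ → ∀ᶠ n in (U : Filter ℕ), ∀ p ∈ ball p₀ ρ,
      ‖ξ n (stt Λ (ε n) p) - dq (ε n) Λ (Sh (ε n) p)‖ ≤ κ * ε n := by
  obtain ⟨ρ₁, hρ₁, hρ₁s⟩ := Metric.mem_nhds_iff.1 (Filter.inter_mem (h.DI_open.mem_nhds hp) heq)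
  set ρ' : ℝ := min ρ₁ ρ₀ with hρ'
  have hρ'0 : 0 < ρ' := lt_min hρ₁ hρ₀
  have hsub : ∀ p ∈ ball p₀ ρ', p ∈ DI ∧ Λ p = LI p := fun p hp =>
    hρ₁s (ball_subset_ball (min_le_left _ _) hp)
  have hρle : ρ' / 4 ≤ ρ₀ := by
    have := min_le_right ρ₁ ρ₀
    linarith
  have hK : IsCompact (closedBall p₀ (ρ' / 4)) := isCompact_closedBall _ _
  have hKb : closedBall p₀ (ρ' / 4) ⊆ ball p₀ ρ' := closedBall_subset_ball (by linarith)
  have hKD : closedBall p₀ (ρ' / 4) ⊆ DI := fun p hp => (hsub p (hKb hp)).1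
  -- small steps
  have hsmall : ∀ᶠ n in (U : Filter ℕ), ε n * (‖p₀.2‖ + ρ') < ρ' / 4 := by
    have h1 : Tendsto (fun n => ε n * (‖p₀.2‖ + ρ')) U (𝓝 (0 * (‖p₀.2‖ + ρ'))) :=
      h.ε_lim.mul_const _
    rw [zero_mul] at h1
    exact h1.eventually_lt_const (by linarith)
  have hsh : ∀ n, ε n * (‖p₀.2‖ + ρ') < ρ' / 4 → ∀ p ∈ ball p₀ ρ',
      dist (Sh (ε n) p) p < ρ' / 4 := by
    intro n hn p hp
    rw [App_dist_Sh (h.ε_pos n).le]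
    have h1 : ‖p.2‖ ≤ ‖p₀.2‖ + ρ' := by
      have h2 : ‖p.2 - p₀.2‖ ≤ ‖p - p₀‖ := norm_snd_le (p - p₀)
      have h3 : ‖p - p₀‖ < ρ' := by rwa [← dist_eq_norm]
      have h4 := norm_le_norm_add_norm_sub' p.2 p₀.2
      linarith
    exact lt_of_le_of_lt (mul_le_mul_of_nonneg_left h1 (h.ε_pos n).le) hn
  have hpts : ∀ n, ε n * (‖p₀.2‖ + ρ') < ρ' / 4 → ∀ p ∈ closedBall p₀ (ρ' / 4),
      Λ p = LI p ∧ Λ (Sh (ε n) p) = LI (Sh (ε n) p) ∧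
        Λ (Sh (ε n) (Sh (ε n) p)) = LI (Sh (ε n) (Sh (ε n) p)) := by
    intro n hn p hp
    have h1 := hsh n hn p (hKb hp)
    have h2 : dist (Sh (ε n) p) p₀ < ρ' := by
      have := dist_triangle (Sh (ε n) p) p p₀
      have h3 := mem_closedBall.1 hp
      linarith
    have h4 := hsh n hn _ h2
    have h5 : dist (Sh (ε n) (Sh (ε n) p)) p₀ < ρ' := by
      have h6 := dist_triangle (Sh (ε n) (Sh (ε n) p)) (Sh (ε n) p) p₀
      have h7 := dist_triangle (Sh (ε n) p) p p₀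
      have h3 := mem_closedBall.1 hp
      linarith
    exact ⟨(hsub p (hKb hp)).2, (hsub _ h2).2, (hsub _ h5).2⟩
  have hst : ∀ n, ε n * (‖p₀.2‖ + ρ') < ρ' / 4 → ∀ p ∈ closedBall p₀ (ρ' / 4),
      stt Λ (ε n) p = stt LI (ε n) p ∧ dq (ε n) Λ (Sh (ε n) p) = dq (ε n) LI (Sh (ε n) p) := by
    intro n hn p hp
    obtain ⟨h1, h2, h3⟩ := hpts n hn p hp
    constructor
    · unfold stt
      rw [h1, h2]
    · unfold dq
      rw [h2, h3]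
  have hG' : ∀ᶠ n in (U : Filter ℕ), ∀ p ∈ closedBall p₀ (ρ' / 4),
      stt LI (ε n) p ∈ GG (d + δ) (R - δ) (A - δ) := by
    filter_upwards [hG, hsmall] with n h1 h2 p hp
    rw [← (hst n h2 p hp).1]
    exact h1 p (ball_subset_ball (min_le_right _ _) (hKb hp))
  have hch := h.chain hK hKD hδ hr hG'
  refine ⟨ρ' / 4, by linarith, hρle, fun κ hκ => ?_⟩
  set κ' : ℝ := min (δ / 8) (κ / (4 * C / δ + 1)) with hκ'
  have hκ'0 : 0 < κ' := lt_min (by linarith) (by positivity)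
  have hκ'1 : κ' < δ / 4 := lt_of_le_of_lt (min_le_left _ _) (by linarith)
  have hκ'2 : (4 * C / δ + 1) * κ' ≤ κ := by
    have h1 : κ' ≤ κ / (4 * C / δ + 1) := min_le_right _ _
    have h2 : 0 < 4 * C / δ + 1 := by positivity
    rw [le_div_iff₀ h2] at h1
    linarith
  filter_upwards [hch, h.near hK hKD hκ'0, hG', hsmall, hξ] with n h1 h2 h3 h4 h5 p hp
  have hpK : p ∈ closedBall p₀ (ρ' / 4) := ball_subset_closedBall hp
  obtain ⟨hs1, hs2⟩ := hst n h4 p hpK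
  rw [hs1, hs2]
  obtain ⟨-, -, -, hn1, hn2⟩ := h2 p hpK
  have hc1 := (h1 p hpK).2 C (ξ n) h5
  have hc2 : dq (ε n) (L n) (Sh (ε n) p) = ξ n (stt (L n) (ε n) p) := congrArg Prod.snd hc1
  have hl := h5.lip hδ (h3 p hpK) (lt_of_le_of_lt hn1 hκ'1)
  have hε := h.ε_pos n
  have hεc : (ε n : ℂ) ≠ 0 := by
    exact_mod_cast hε.ne'
  have e1 : ∀ f : ℂ × ℂ → ℂ, dq (ε n) f (Sh (ε n) p) - dq (ε n) f p =
      ε n * dq (ε n) (dq (ε n) f) p := by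
    intro f
    have e2 : dq (ε n) (dq (ε n) f) p = (dq (ε n) f (Sh (ε n) p) - dq (ε n) f p) / ε n := rfl
    rw [e2, mul_div_cancel₀ _ hεc]
  have e3 : ξ n (stt LI (ε n) p) - dq (ε n) LI (Sh (ε n) p) =
      -((ξ n (stt (L n) (ε n) p) - (stt (L n) (ε n) p).2) -
        (ξ n (stt LI (ε n) p) - (stt LI (ε n) p).2)) +
      ε n * (dq (ε n) (dq (ε n) (L n)) p - dq (ε n) (dq (ε n) LI) p) := by
    have e4 : (stt (L n) (ε n) p).2 = dq (ε n) (L n) p := rfl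
    have e5 : (stt LI (ε n) p).2 = dq (ε n) LI p := rfl
    rw [mul_sub, ← e1, ← e1, e4, e5, hc2]
    ring
  rw [e3]
  refine (norm_add_le _ _).trans ?_
  rw [norm_neg, norm_mul, Complex.norm_real, Real.norm_of_nonneg hε.le]
  have h6 : 4 * (C * ε n) / δ * ‖stt (L n) (ε n) p - stt LI (ε n) p‖ ≤
      4 * (C * ε n) / δ * κ' := mul_le_mul_of_nonneg_left hn1 (by positivity)
  have h7 : ε n * ‖dq (ε n) (dq (ε n) (L n)) p - dq (ε n) (dq (ε n) LI) p‖ ≤ ε n * κ' :=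
    mul_le_mul_of_nonneg_left hn2 hε.le
  have h8 : 4 * (C * ε n) / δ * κ' + ε n * κ' = (4 * C / δ + 1) * κ' * ε n := by ring
  have h9 : (4 * C / δ + 1) * κ' * ε n ≤ κ * ε n := mul_le_mul_of_nonneg_right hκ'2 hε.le
  linarith

/-- The defect is small on the whole compact connected set `W`.

Proof. Choose `ρ₁` with `cthickening (4 ρ₁) W ⊆ Ω`; `W₂ := cthickening (2 ρ₁) W` compact,
`Ω₁ := thickening (2 ρ₁) W` open and preconnected (`W + ball 0 (2 ρ₁)`: image of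
`W ×ˢ ball 0 (2 ρ₁)`). `exists_box` for `W₂` and the given box: by hypothesis `hG` on
`cthickening ρ₀ W`, take `2 ρ₁ ≤ ρ₀`. For almost all `n`, on `Ω₁`:
`f n p := (ξ n (stt Λ ε p) - dq ε Λ (Sh ε p)) / ε` is analytic (`p, Sh ε p, Sh ε (Sh ε p) ∈ Ω`,
`stt Λ ε p ∈ GG d R A`), and `‖f n p‖ ≤ C + C'`: `‖ξ u - u.2‖ ≤ C ε`,
`u.2 - dq Λ (Sh ε p) = - ε dq (dq Λ) p`, `‖dq (dq Λ)‖ ≤ C'` on `W₂`. `LS.app_loc` at `p₀`, `vitali`. -/
theorem LS.app (h : LS U Z ε D L DI LI) {Ω W : Set (ℂ × ℂ)} (hΩ : IsOpen Ω) {Λ : ℂ × ℂ → ℂ}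
    (hΛ : AnalyticOnNhd ℂ Λ Ω) (hm : ∀ p ∈ Ω, (Λ p).im < 0) (hW : IsCompact W)
    (hWc : IsPreconnected W) {p₀ : ℂ × ℂ} (hpW : p₀ ∈ W) (hp : p₀ ∈ DI)
    (heq : Λ =ᶠ[𝓝 p₀] LI) {d R A δ r C ρ₀ : ℝ} (hδ : 0 < δ) (hr : 0 < r) (hC : 0 ≤ C)
    (hρ₀ : 0 < ρ₀) (hWΩ : cthickening ρ₀ W ⊆ Ω) {ξ : ℕ → ℂ × ℂ → ℂ}
    (hξ : ∀ᶠ n in (U : Filter ℕ), Stp (Z n) (ε n) d R A r C (ξ n))
    (hG : ∀ᶠ n in (U : Filter ℕ), ∀ p ∈ cthickening ρ₀ W,
      stt Λ (ε n) p ∈ GG (d + δ) (R - δ) (A - δ)) {κ : ℝ} (hκ : 0 < κ) :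
    ∀ᶠ n in (U : Filter ℕ), ∀ p ∈ W,
      ‖ξ n (stt Λ (ε n) p) - dq (ε n) Λ (Sh (ε n) p)‖ ≤ κ * ε n := by
  have hW2 : IsCompact (cthickening ρ₀ W) := hW.cthickening
  have hthick : thickening ρ₀ W ⊆ cthickening ρ₀ W := thickening_subset_cthickening _ _
  obtain ⟨d', R', A', δ', C', -, -, hC', hbox⟩ :=
    exists_box h.ε_pos h.ε_lim hΩ hΛ hm hW2 hWΩ
  have hconn : IsPreconnected (thickening ρ₀ W) := by
    have h1 : IsPreconnected ((fun x : (ℂ × ℂ) × (ℂ × ℂ) => x.1 + x.2) ''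
        (W ×ˢ ball (0 : ℂ × ℂ) ρ₀)) :=
      (hWc.prod (convex_ball _ _).isPreconnected).image _ (by fun_prop)
    have h2 : thickening ρ₀ W = (fun x : (ℂ × ℂ) × (ℂ × ℂ) => x.1 + x.2) ''
        (W ×ˢ ball (0 : ℂ × ℂ) ρ₀) := by
      rw [← add_ball_zero]
      exact (Set.image_prod (fun a b : ℂ × ℂ => a + b)).symm
    rw [h2]
    exact h1
  have hball : ball p₀ ρ₀ ⊆ thickening ρ₀ W := fun q hq =>
    mem_thickening_iff.2 ⟨p₀, hpW, hq⟩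
  obtain ⟨ρ, hρ, hρle, hloc⟩ := h.app_loc hp heq hδ hr hC hρ₀ hξ (by
    filter_upwards [hG] with n hn p hp
    exact hn p (hthick (hball hp)))
  have hf : ∀ᶠ n in (U : Filter ℕ), AnalyticOnNhd ℂ
      (fun p => (ξ n (stt Λ (ε n) p) - dq (ε n) Λ (Sh (ε n) p)) / (ε n : ℂ))
        (thickening ρ₀ W) ∧ ∀ p ∈ thickening ρ₀ W,
        ‖(ξ n (stt Λ (ε n) p) - dq (ε n) Λ (Sh (ε n) p)) / (ε n : ℂ)‖ ≤ C + C' := by
    filter_upwards [hbox, hξ, hG] with n h1 h2 h3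
    have hε := h.ε_pos n
    have hεc : (ε n : ℂ) ≠ 0 := by
      exact_mod_cast hε.ne'
    constructor
    · intro p hp
      obtain ⟨-, -, hs1, hs2⟩ := h1 p (hthick hp)
      have a1 : AnalyticAt ℂ Λ p := hΛ p (hWΩ (hthick hp))
      have a2 : AnalyticAt ℂ Λ (Sh (ε n) p) := hΛ _ hs1
      have a3 : AnalyticAt ℂ Λ (Sh (ε n) (Sh (ε n) p)) := hΛ _ hs2
      have a4 : AnalyticAt ℂ (stt Λ (ε n)) p := a1.prod (dq_an a1 a2)
      have a5 : AnalyticAt ℂ (ξ n) (stt Λ (ε n) p) :=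
        h2.an _ (App_GG_mono hδ.le (h3 p (hthick hp)))
      have a6 : AnalyticAt ℂ (fun q => ξ n (stt Λ (ε n) q)) p :=
        AnalyticAt.comp_of_eq a5 a4 rfl
      have a7 : AnalyticAt ℂ (fun q => dq (ε n) Λ (Sh (ε n) q)) p :=
        AnalyticAt.comp_of_eq (dq_an a2 a3) (analyticAt_Sh (ε n) p) rfl
      exact (a6.sub a7).div_const
    · intro p hp
      obtain ⟨-, hd, -, -⟩ := h1 p (hthick hp)
      have b1 := h2.bd _ (App_GG_mono hδ.le (h3 p (hthick hp)))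
      have b2 : (stt Λ (ε n) p).2 - dq (ε n) Λ (Sh (ε n) p) =
          -(ε n * dq (ε n) (dq (ε n) Λ) p) := by
        have e2 : dq (ε n) (dq (ε n) Λ) p =
            (dq (ε n) Λ (Sh (ε n) p) - dq (ε n) Λ p) / ε n := rfl
        have e3 : (stt Λ (ε n) p).2 = dq (ε n) Λ p := rfl
        rw [e2, mul_div_cancel₀ _ hεc, e3]
        ring
      have b3 : ξ n (stt Λ (ε n) p) - dq (ε n) Λ (Sh (ε n) p) =
          (ξ n (stt Λ (ε n) p) - (stt Λ (ε n) p).2) +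
            ((stt Λ (ε n) p).2 - dq (ε n) Λ (Sh (ε n) p)) := by ring
      rw [norm_div, Complex.norm_real, Real.norm_of_nonneg hε.le, div_le_iff₀ hε, b3, b2]
      refine (norm_add_le _ _).trans ?_
      rw [norm_neg, norm_mul, Complex.norm_real, Real.norm_of_nonneg hε.le, add_mul]
      have b4 : ε n * ‖dq (ε n) (dq (ε n) Λ) p‖ ≤ C' * ε n := by
        rw [mul_comm C']
        exact mul_le_mul_of_nonneg_left hd hε.le
      linarith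
  have hV := vitali (U := U) (K := W) isOpen_thickening hconn hf (isOpen_ball (x := p₀) (ε := ρ))
    ⟨p₀, mem_ball_self hρ⟩ ((ball_subset_ball hρle).trans hball) (by
      intro p hp
      rw [Metric.tendsto_nhds]
      intro κ' hκ'
      filter_upwards [hloc (κ' / 2) (by linarith)] with n hn
      have hε := h.ε_pos n
      rw [dist_zero_right, norm_div, Complex.norm_real, Real.norm_of_nonneg hε.le,
        div_lt_iff₀ hε]
      have h1 := hn p hp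
      have h2 : κ' / 2 * ε n < κ' * ε n := mul_lt_mul_of_pos_right (by linarith) hε
      linarith) hW (self_subset_thickening hρ₀ W) hκ
  filter_upwards [hV] with n hn p hp
  have hε := h.ε_pos n
  have h1 := hn p hp
  rwa [norm_div, Complex.norm_real, Real.norm_of_nonneg hε.le, div_le_iff₀ hε] at h1

end Pool.Agent.MP_ae5b4e_an_MT
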