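import Pool.Agent.Lib.MP_ae5b4e_an_M.Mont
import Pool.Agent.Lib.MP_ae5b4e_an_NB5.Defs

/-!
# MP_ae5b4e_an, part MT (transport in the macro windows): definitions

A sequence of labels `L n` along an ultrafilter `U`, with the node relation of the systems `Z n` and
steps `ε n → 0`, converging on an open set `DI`.  The state of a chain is `(λ, α)`: label and
forward increment divided by `ε`; one step is `(λ, α) ↦ (λ + ε α, ξ (λ, α))` with the unique root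
`ξ` near `α` of the node relation at `λ + ε α`.  Only the crude estimate `‖ξ - α‖ ≤ C ε` is used.
-/

noncomputable section

namespace Pool.Agent.MP_ae5b4e_an_MT

open Complex Set Filter Topology Metric
open Pool.Agent.MP_ae5b4e_an_NB2 (Sys)
open Pool.Agent.MP_ae5b4e_an_NB5 (Pn Pn')

/-- a box in the lower half plane -/
def Bx (d R : ℝ) : Set ℂ := {z | z.im < -d ∧ ‖z‖ < R}

/-- states -/
def GG (d R A : ℝ) : Set (ℂ × ℂ) := {u | u.1.im < -d ∧ ‖u.1‖ < R ∧ ‖u.2‖ < A}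

/-- the shear: the point `s` further in the direction of the parameter -/
def Sh (s : ℝ) (p : ℂ × ℂ) : ℂ × ℂ := (p.1 + s * p.2, p.2)

/-- sequences of labels along `U`, converging on `DI` -/
structure LS (U : Ultrafilter ℕ) (Z : ℕ → Sys) (ε : ℕ → ℝ) (D : ℕ → Set (ℂ × ℂ))
    (L : ℕ → ℂ × ℂ → ℂ) (DI : Set (ℂ × ℂ)) (LI : ℂ × ℂ → ℂ) : Prop where
  ε_pos : ∀ n, 0 < ε n
  ε_lim : Tendsto ε U (𝓝 0)
  bd : ∀ d R : ℝ, 0 < d → ∃ M : ℝ, ∀ᶠ n in (U : Filter ℕ),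
    (Z n).On (Bx d R) ∧ ∀ z ∈ Bx d R, ‖(Z n).Q z‖ * ε n ^ 2 ≤ M
  an : ∀ n, AnalyticOnNhd ℂ (L n) (D n)
  node : ∀ n, ∀ p : ℂ × ℂ, p ∈ D n → Sh (ε n) p ∈ D n → Sh (-ε n) p ∈ D n →
    (Z n).node (L n p) (L n (Sh (ε n) p)) (L n (Sh (-ε n) p))
  DI_open : IsOpen DI
  LI_an : AnalyticOnNhd ℂ LI DI
  LI_im : ∀ p ∈ DI, (LI p).im < 0
  sub : ∀ K ⊆ DI, IsCompact K → ∀ᶠ n in (U : Filter ℕ), K ⊆ D n
  conv : ∀ K ⊆ DI, IsCompact K → ∀ δ : ℝ, 0 < δ →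
    ∀ᶠ n in (U : Filter ℕ), ∀ p ∈ K, ‖L n p - LI p‖ ≤ δ

/-- the step function of the system `Z` on the states `GG d R A` -/
structure Stp (Z : Sys) (ε d R A r C : ℝ) (ξ : ℂ × ℂ → ℂ) : Prop where
  an : AnalyticOnNhd ℂ ξ (GG d R A)
  bd : ∀ u ∈ GG d R A, ‖ξ u - u.2‖ ≤ C * ε
  node : ∀ u ∈ GG d R A, Z.node (u.1 + ε * u.2) (u.1 + ε * u.2 + ε * ξ u) u.1
  uniq : ∀ u ∈ GG d R A, ∀ x : ℂ, ‖x - u.2‖ ≤ r →
    Z.node (u.1 + ε * u.2) (u.1 + ε * u.2 + ε * x) u.1 → x = ξ u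

/-- one step -/
def Ph (ε : ℝ) (ξ : ℂ × ℂ → ℂ) (u : ℂ × ℂ) : ℂ × ℂ := (u.1 + ε * u.2, ξ u)

/-- the state of the function `L` at `p` -/
def stt (L : ℂ × ℂ → ℂ) (ε : ℝ) (p : ℂ × ℂ) : ℂ × ℂ := (L p, (L (Sh ε p) - L p) / ε)

theorem isOpen_Bx (d R : ℝ) : IsOpen (Bx d R) :=
  (isOpen_lt continuous_im continuous_const).inter (isOpen_lt continuous_norm continuous_const)

theorem isOpen_GG (d R A : ℝ) : IsOpen (GG d R A) := by
  have h1 : IsOpen {u : ℂ × ℂ | u.1.im < -d} :=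
    isOpen_lt (continuous_im.comp continuous_fst) continuous_const
  have h2 : IsOpen {u : ℂ × ℂ | ‖u.1‖ < R} :=
    isOpen_lt (continuous_norm.comp continuous_fst) continuous_const
  have h3 : IsOpen {u : ℂ × ℂ | ‖u.2‖ < A} :=
    isOpen_lt (continuous_norm.comp continuous_snd) continuous_const
  exact h1.inter (h2.inter h3)

theorem convex_GG (d R A : ℝ) : Convex ℝ (GG d R A) := by
  have h1 : Convex ℝ {z : ℂ | z.im < -d} := convex_halfSpace_im_lt (-d)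
  have e : GG d R A = ({z : ℂ | z.im < -d} ∩ ball (0:ℂ) R) ×ˢ ball (0:ℂ) A := by
    ext u
    simp only [GG, mem_ofPred_eq, mem_prod, mem_inter_iff, mem_ball_zero_iff]
    tauto
  rw [e]
  exact (h1.inter (convex_ball _ _)).prod (convex_ball _ _)

@[simp] theorem Sh_fst (s : ℝ) (p : ℂ × ℂ) : (Sh s p).1 = p.1 + s * p.2 := rfl

@[simp] theorem Sh_snd (s : ℝ) (p : ℂ × ℂ) : (Sh s p).2 = p.2 := rfl

theorem Sh_zero (p : ℂ × ℂ) : Sh 0 p = p := by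
  ext <;> simp [Sh]

theorem Sh_Sh (s t : ℝ) (p : ℂ × ℂ) : Sh s (Sh t p) = Sh (s + t) p := by
  ext
  · simp [Sh]; ring
  · simp [Sh]

theorem continuous_Sh (s : ℝ) : Continuous (Sh s) := by
  unfold Sh
  fun_prop

theorem analyticAt_Sh (s : ℝ) (p : ℂ × ℂ) : AnalyticAt ℂ (Sh s) p :=
  (analyticAt_fst.add (analyticAt_const.mul analyticAt_snd)).prod analyticAt_snd

end Pool.Agent.MP_ae5b4e_an_MT
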