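import Pool.Agent.Lib.MP_ae5b4e_an_MT.Defs

/-! # MT: difference quotients -/

noncomputable section

namespace Pool.Agent.MP_ae5b4e_an_MT

open Complex Set Filter Topology Metric
open Pool.Agent.MP_ae5b4e_an_M (lip_of_bdd)

/-- the difference quotient along the parameter -/
def dq (ε : ℝ) (f : ℂ × ℂ → ℂ) (p : ℂ × ℂ) : ℂ := (f (Sh ε p) - f p) / ε

private theorem dif_sh (ε : ℝ) (hε : 0 < ε) (p : ℂ × ℂ) : ‖Sh ε p - p‖ = ε * ‖p.2‖ := by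
  have e : Sh ε p - p = ((ε : ℂ) * p.2, 0) := by
    ext <;> simp [Sh]
  rw [e, Prod.norm_def]
  simp only [norm_zero, norm_mul, norm_real, Real.norm_eq_abs, abs_of_pos hε]
  exact max_eq_left (by positivity)

private theorem dif_an {f : ℂ × ℂ → ℂ} {p : ℂ × ℂ} {ε : ℝ} (h1 : AnalyticAt ℂ f p)
    (h2 : AnalyticAt ℂ f (Sh ε p)) : AnalyticAt ℂ (dq ε f) p := by
  unfold dq
  have h3 : AnalyticAt ℂ (fun q => f (Sh ε q)) p :=
    AnalyticAt.comp_of_eq h2 (analyticAt_Sh ε p) rfl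
  exact (h3.sub h1).div_const

/-- Proof. `dist (Sh ε p) p = ε ‖p.2‖ < ρ / 4`; `lip_of_bdd` with centre `p`. -/
theorem dq_bd {f : ℂ × ℂ → ℂ} {p : ℂ × ℂ} {ρ M ε : ℝ} (hρ : 0 < ρ)
    (hf : AnalyticOnNhd ℂ f (ball p ρ)) (hM : ∀ q ∈ ball p ρ, ‖f q‖ ≤ M) (hε : 0 < ε)
    (h : 4 * (ε * ‖p.2‖) < ρ) : ‖dq ε f p‖ ≤ 4 * M / ρ * ‖p.2‖ := by
  have h1 := lip_of_bdd hρ hf hM (x := p) (y := Sh ε p) (mem_ball_self (by linarith))
    (by rw [mem_ball, dist_eq_norm, dif_sh ε hε]; linarith)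
  rw [dif_sh ε hε] at h1
  unfold dq
  rw [norm_div, norm_real, Real.norm_eq_abs, abs_of_pos hε, div_le_iff₀ hε]
  linarith

/-- Proof. For `q ∈ ball p (ρ / 2)`: `‖q.2‖ ≤ ‖p.2‖ + ρ`, `ball q (ρ / 2) ⊆ ball p ρ`, `Sh ε q` is in
`ball p ρ`, so `dq ε f` is analytic on `ball p (ρ / 2)` and `‖dq ε f q‖ ≤ 8 M / ρ (‖p.2‖ + ρ)`
(`dq_bd`). Then `dq_bd` for `dq ε f` with the radius `ρ / 2`. -/
theorem dq_dq_bd {f : ℂ × ℂ → ℂ} {p : ℂ × ℂ} {ρ M ε : ℝ} (hρ : 0 < ρ)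
    (hf : AnalyticOnNhd ℂ f (ball p ρ)) (hM : ∀ q ∈ ball p ρ, ‖f q‖ ≤ M) (hε : 0 < ε)
    (h : 8 * (ε * (‖p.2‖ + ρ)) < ρ) :
    ‖dq ε (dq ε f) p‖ ≤ 64 * M * (‖p.2‖ + ρ) ^ 2 / ρ ^ 2 := by
  have hM0 : 0 ≤ M := (norm_nonneg _).trans (hM p (mem_ball_self hρ))
  have hp2 : 0 ≤ ‖p.2‖ := norm_nonneg _
  have hq2 : ∀ q ∈ ball p (ρ / 2), ‖q.2‖ ≤ ‖p.2‖ + ρ := by
    intro q hq
    rw [mem_ball, dist_eq_norm] at hq
    have h5 : ‖q.2 - p.2‖ ≤ ‖q - p‖ := norm_snd_le (q - p)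
    have h8 : ‖q.2‖ ≤ ‖q.2 - p.2‖ + ‖p.2‖ := by
      have := norm_add_le (q.2 - p.2) p.2
      rwa [sub_add_cancel] at this
    linarith
  have hsub : ∀ q ∈ ball p (ρ / 2), ball q (ρ / 2) ⊆ ball p ρ := by
    intro q hq
    apply ball_subset_ball'
    rw [mem_ball] at hq
    linarith
  have hεq : ∀ q ∈ ball p (ρ / 2), 8 * (ε * ‖q.2‖) < ρ := by
    intro q hq
    have := mul_le_mul_of_nonneg_left (hq2 q hq) hε.le
    linarith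
  have hb : ∀ q ∈ ball p (ρ / 2), ‖dq ε f q‖ ≤ 8 * M / ρ * (‖p.2‖ + ρ) := by
    intro q hq
    have h1 := dq_bd (p := q) (ρ := ρ / 2) (M := M) (by linarith)
      (fun z hz => hf z (hsub q hq hz)) (fun z hz => hM z (hsub q hq hz)) hε
      (by linarith [hεq q hq])
    have h2 : 4 * M / (ρ / 2) = 8 * M / ρ := by
      field_simp
      ring
    rw [h2] at h1
    exact h1.trans (mul_le_mul_of_nonneg_left (hq2 q hq) (by positivity))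
  have han : AnalyticOnNhd ℂ (dq ε f) (ball p (ρ / 2)) := by
    intro q hq
    refine dif_an (hf q (ball_subset_ball (by linarith) hq)) (hf _ ?_)
    rw [mem_ball]
    have h1 : dist (Sh ε q) q = ε * ‖q.2‖ := by rw [dist_eq_norm, dif_sh ε hε]
    have h2 := dist_triangle (Sh ε q) q p
    rw [mem_ball] at hq
    have h3 := hεq q (by rwa [mem_ball])
    linarith
  have h1 := dq_bd (p := p) (ρ := ρ / 2) (by linarith) han hb hε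
    (by linarith [hεq p (mem_ball_self (by linarith))])
  refine h1.trans ?_
  have h2 : 4 * (8 * M / ρ * (‖p.2‖ + ρ)) / (ρ / 2) * ‖p.2‖ =
      64 * M * (‖p.2‖ + ρ) / ρ ^ 2 * ‖p.2‖ := by
    field_simp
    ring
  have h3 : 64 * M * (‖p.2‖ + ρ) ^ 2 / ρ ^ 2 =
      64 * M * (‖p.2‖ + ρ) / ρ ^ 2 * (‖p.2‖ + ρ) := by ring
  rw [h2, h3]
  exact mul_le_mul_of_nonneg_left (by linarith) (by positivity)

theorem dq_an {f : ℂ × ℂ → ℂ} {p : ℂ × ℂ} {ε : ℝ} (h1 : AnalyticAt ℂ f p)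
    (h2 : AnalyticAt ℂ f (Sh ε p)) : AnalyticAt ℂ (dq ε f) p := by
  unfold dq
  have h3 : AnalyticAt ℂ (fun q => f (Sh ε q)) p :=
    AnalyticAt.comp_of_eq h2 (analyticAt_Sh ε p) rfl
  exact (h3.sub h1).div_const

end Pool.Agent.MP_ae5b4e_an_MT
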