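import Pool.Agent.Lib.MP_ae5b4e_an_MT.Defs
import Pool.Agent.Lib.MP_ae5b4e_an_M.ZA

/-! # MT: the labels of the windows as a sequence `LS` -/

noncomputable section

namespace Pool.Agent.MP_ae5b4e_an_MT

open Complex Set Filter Topology Metric
open Pool.Agent.MP_ae5b4e_an_NBT (St Mer EqM)
open Pool.Agent.MP_ae5b4e_an_NB2 (Sys)
open Pool.Agent.MP_ae5b4e_an_N5 (NV)
open Pool.Agent.MP_ae5b4e_an_PB
open Pool.Agent.MP_ae5b4e_an_M
open PorTR (Hm)

variable {Y : Sys} {h R C0 : ℝ} {v : ℂ → ℝ} {G L : ℂ × ℂ → ℂ} {U : Ultrafilter ℕ} {β C1 : ℝ}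
  {c V : ℕ → ℝ}

/-- the window coordinates -/
def wp (h : ℝ) (x c V : ℕ → ℝ) (n : ℕ) (p : ℂ × ℂ) : ℂ × ℂ := (pt h x V n p.1, (c n : ℂ) * p.2)

/-- the label domain in the window -/
def Dn (v : ℂ → ℝ) (h R : ℝ) (x c V : ℕ → ℝ) (n : ℕ) : Set (ℂ × ℂ) :=
  {p | wp h x c V n p ∈ DKU v h R}

/-- the inverse of the window coordinates -/
def wq (h : ℝ) (x c V : ℕ → ℝ) (n : ℕ) (p : ℂ × ℂ) : ℂ × ℂ :=
  ((p.1 - (x n + h * I)) / V n, p.2 / c n)

theorem wp_wq (HW : Win v U β C1 c V) (h : ℝ) (x : ℕ → ℝ) (n : ℕ) (p : ℂ × ℂ) :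
    wp h x c V n (wq h x c V n p) = p := by
  have hc : (c n : ℂ) ≠ 0 := by exact_mod_cast (HW.c_pos n).ne'
  have hV : (V n : ℂ) ≠ 0 := by exact_mod_cast (HW.V_pos n).ne'
  unfold wp wq pt
  refine Prod.ext ?_ ?_
  · show (x n : ℂ) + h * I + V n * ((p.1 - (x n + h * I)) / V n) = p.1
    field_simp
    ring
  · show (c n : ℂ) * (p.2 / c n) = p.2
    field_simp

theorem wq_wp (HW : Win v U β C1 c V) (h : ℝ) (x : ℕ → ℝ) (n : ℕ) (p : ℂ × ℂ) :
    wq h x c V n (wp h x c V n p) = p := by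
  have hc : (c n : ℂ) ≠ 0 := by exact_mod_cast (HW.c_pos n).ne'
  have hV : (V n : ℂ) ≠ 0 := by exact_mod_cast (HW.V_pos n).ne'
  unfold wp wq pt
  refine Prod.ext ?_ ?_
  · show ((x n : ℂ) + h * I + V n * p.1 - (x n + h * I)) / V n = p.1
    field_simp
    ring
  · show (c n : ℂ) * p.2 / c n = p.2
    field_simp

/-- Proof. `ε_lim`: `cV_lim`. `bd`: `Zn_on` (`R < h / V n` for almost all `n`) and `Zn_bdd` with
`K = max 1 (max (1 / d) R)`, `gr` is decreasing in the depth, so `M = gr β (C3f β C1) d`. `an`: `Ln_an_at`.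
`node`: `Zn_node` (`Sh (ε n) p = (τ + (c n / V n) γ, γ)`). `DI_open`, `LI_an`: M. `LI_im`: `LI_Hm` / `LI_dep`.
`sub`: `mem_DKU`. `conv`: `LI_unif` and `unif_compact` (or `tendstoLocallyUniformlyOn_iff_forall_isCompact`). -/
theorem ls_win (hB : Base Y h R C0 v G L) (HW : Win v U β C1 c V) (x : ℕ → ℝ) :
    LS U (fun n => Zn Y h x V n) (fun n => c n / V n) (Dn v h R x c V)
      (fun n => Ln L h x c V n) (DI v U c V) (LI L h U x c V) := by
  refine ⟨fun n => div_pos (HW.c_pos n) (HW.V_pos n), cV_lim HW, ?_, ?_, ?_,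
    DI_open hB.nv hB.R_pos HW, LI_an hB HW x, fun p hp => LI_Hm hB HW x hp, ?_, ?_⟩
  · intro d R' hd
    have hC3 : 0 ≤ C3f β C1 := by
      have := HW.C1_one
      unfold C3f
      positivity
    refine ⟨gr β (C3f β C1) d, ?_⟩
    have hK : (1 : ℝ) ≤ max 1 (max (1 / d) R') := le_max_left _ _
    filter_upwards [Zn_bdd hB HW hK] with n hn
    have hz : ∀ z ∈ Bx d R', z.im < 0 ∧ d < -z.im ∧ 1 / max 1 (max (1 / d) R') ≤ -z.im ∧
        -z.im ≤ max 1 (max (1 / d) R') := by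
      rintro z ⟨hz1, hz2⟩
      have h1 : 1 / max 1 (max (1 / d) R') ≤ 1 / (1 / d) :=
        one_div_le_one_div_of_le (by positivity) (le_max_of_le_right (le_max_left _ _))
      rw [one_div_one_div] at h1
      have h2 : -z.im ≤ ‖z‖ := (neg_le_abs z.im).trans (abs_im_le_norm z)
      have h3 : R' ≤ max 1 (max (1 / d) R') := le_max_of_le_right (le_max_right _ _)
      exact ⟨by linarith, by linarith, by linarith, by linarith⟩
    constructor
    · have h1 := Zn_on (x := x) hB.h_pos (HW.V_pos n) hB.on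
      have hsub : ∀ z ∈ Bx d R', z ∈ {z : ℂ | z.im < 0 ∧ -z.im < h / V n} := by
        intro z hz'
        obtain ⟨h2, -, h3, h4⟩ := hz z hz'
        exact ⟨h2, (hn x z h3 h4).1⟩
      exact ⟨fun z hz' => h1.d1 z (hsub z hz'), fun z hz' => h1.d1' z (hsub z hz'),
        fun z hz' => h1.d2 z (hsub z hz'), fun z hz' => h1.d2' z (hsub z hz'),
        fun z hz' => h1.wr z (hsub z hz')⟩
    · intro z hz'
      obtain ⟨-, h2, h3, h4⟩ := hz z hz'
      have h5 := (hn x z h3 h4).2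
      have h6 : gr β (C3f β C1) (-z.im) ≤ gr β (C3f β C1) d := by
        unfold gr
        refine mul_le_mul_of_nonneg_left (max_le_max ?_ ?_) hC3
        · exact Real.rpow_le_rpow_of_nonpos hd h2.le (by norm_num)
        · refine Real.rpow_le_rpow_of_nonpos hd h2.le ?_
          exact div_nonpos_of_nonpos_of_nonneg (by norm_num) HW.β_pos.le
      rw [mul_comm]
      exact h5.trans h6
  · intro n p hp
    exact Ln_an_at hB HW n x hp
  · intro n p h0 h1 h2
    have e : Sh (-(c n / V n)) p = (p.1 - ((c n / V n : ℝ) : ℂ) * p.2, p.2) := by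
      unfold Sh
      refine Prod.ext ?_ rfl
      show p.1 + ((-(c n / V n) : ℝ) : ℂ) * p.2 = p.1 - ((c n / V n : ℝ) : ℂ) * p.2
      push_cast
      ring
    rw [e] at h2 ⊢
    exact Zn_node hB HW n x (τ := p.1) (γ := p.2) h0 h1 h2
  · intro K hKD hK
    filter_upwards [mem_DKU hB HW hK hKD] with n hn p hp
    exact hn x p hp
  · intro K hKD hK δ hδ
    filter_upwards [unif_compact (LI_unif hB HW x) hK hKD hδ] with n hn p hp
    exact (hn p hp).le

end Pool.Agent.MP_ae5b4e_an_MT
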