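import Pool.Agent.Lib.MP_ae5b4e_an_PB.Defs
import Pool.Agent.Lib.MP_ae5b4e_an_NBT.Mer

/-! # MT: regular points from a continuation of the label -/

noncomputable section

namespace Pool.Agent.MP_ae5b4e_an_MT

open Complex Set Filter Topology Metric
open Pool.Agent.MP_ae5b4e_an_NBT (St Mer EqM MerAt Den)
open Pool.Agent.MP_ae5b4e_an_NB2 (Sys)
open Pool.Agent.MP_ae5b4e_an_N5 (NV)
open Pool.Agent.MP_ae5b4e_an_PB

variable {Y : Sys} {h R C0 : ℝ} {v : ℂ → ℝ} {G L : ℂ × ℂ → ℂ}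

private theorem rg_usc (hB : Base Y h R C0 v G L) {p : ℂ × ℂ} (hp : ‖p.2‖ < R) {c : ℝ}
    (hc : v p.2 < c) : ∀ᶠ q : ℂ × ℂ in 𝓝 p, v q.2 < c := by
  have h1 : p.2 ∈ ball (0:ℂ) R := by rwa [mem_ball_zero_iff]
  have h2 : ∀ᶠ z in 𝓝 p.2, v z < c := by
    have h3 := hB.nv.sub.usc p.2 h1 c hc
    rwa [isOpen_ball.nhdsWithin_eq h1] at h3
  exact (continuous_snd.tendsto p).eventually h2

private theorem rg_im (q : ℂ × ℂ) (s : ℝ) : (q.1 - (s:ℂ) * I).im = q.1.im - s := by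
  simp

/-- Proof. `v` is upper semicontinuous on the disc (`hB.nv.sub.usc`). -/
theorem isOpen_DFU (hB : Base Y h R C0 v G L) : IsOpen (DFU v h R) := by
  rw [isOpen_iff_mem_nhds]
  rintro p ⟨h1, h2, h3⟩
  obtain ⟨c, hc1, hc2⟩ := exists_between (show v p.2 < h - p.1.im by linarith)
  have e1 : ∀ᶠ q : ℂ × ℂ in 𝓝 p, ‖q.2‖ < R :=
    (continuous_snd.norm.tendsto p).eventually_lt_const h1
  have e2 : ∀ᶠ q : ℂ × ℂ in 𝓝 p, 0 < q.1.im :=
    ((continuous_im.comp continuous_fst).tendsto p).eventually_const_lt h2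
  have e3 : ∀ᶠ q : ℂ × ℂ in 𝓝 p, q.1.im < h - c :=
    ((continuous_im.comp continuous_fst).tendsto p).eventually_lt_const
      (show p.1.im < h - c by linarith)
  filter_upwards [e1, e2, e3, rg_usc hB h1 hc1] with q a1 a2 a3 a4
  exact ⟨a1, a2, by linarith⟩

theorem isOpen_DKU (hB : Base Y h R C0 v G L) : IsOpen (DKU v h R) := by
  rw [isOpen_iff_mem_nhds]
  rintro p ⟨h1, h2, h3⟩
  obtain ⟨c, hc1, hc2⟩ := exists_between (show v p.2 < h - |p.2.im| - p.1.im by linarith)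
  have e1 : ∀ᶠ q : ℂ × ℂ in 𝓝 p, ‖q.2‖ < R :=
    (continuous_snd.norm.tendsto p).eventually_lt_const h1
  have e2 : ∀ᶠ q : ℂ × ℂ in 𝓝 p, 0 < q.1.im :=
    ((continuous_im.comp continuous_fst).tendsto p).eventually_const_lt h2
  have e3 : ∀ᶠ q : ℂ × ℂ in 𝓝 p, q.1.im + |q.2.im| < h - c :=
    (((continuous_im.comp continuous_fst).add
      (continuous_im.comp continuous_snd).abs).tendsto p).eventually_lt_const
      (show p.1.im + |p.2.im| < h - c by linarith)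
  filter_upwards [e1, e2, e3, rg_usc hB h1 hc1] with q a1 a2 a3 a4
  exact ⟨a1, a2, by linarith⟩

private theorem rg_low (hB : Base Y h R C0 v G L) {p : ℂ × ℂ} (h0 : 0 < p.1.im)
    (h1 : p.1.im < h / 2) (h2 : ‖p.2‖ < R) : p ∈ DKU v h R := by
  have h3 := hB.half p.2 (by rwa [mem_ball_zero_iff])
  exact ⟨h2, h0, by linarith⟩

private theorem rg_conn (hB : Base Y h R C0 v G L) {D : Set (ℂ × ℂ)} (hK : DKU v h R ⊆ D)
    (hD : ∀ p ∈ D, ∀ s : ℝ, 0 ≤ s → 0 < p.1.im - s → (p.1 - s * I, p.2) ∈ D)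
    (hR : ∀ p ∈ D, ‖p.2‖ < R ∧ 0 < p.1.im) : IsPreconnected D := by
  have hh := hB.h_pos
  let W : Set (ℂ × ℂ) := {p | 0 < p.1.im ∧ p.1.im < h / 2 ∧ ‖p.2‖ < R}
  have hWc : IsPreconnected W := by
    have h1 : W = {z : ℂ | 0 < z.im ∧ z.im < h / 2} ×ˢ ball (0:ℂ) R := by
      ext q
      simp only [W, mem_ofPred_eq, mem_prod, mem_ball_zero_iff, and_assoc]
    rw [h1]
    refine Convex.isPreconnected (Convex.prod ?_ (convex_ball _ _))
    exact (convex_halfSpace_im_gt 0).inter (convex_halfSpace_im_lt (h / 2))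
  have hWD : W ⊆ D := fun q hq => hK (rg_low hB hq.1 hq.2.1 hq.2.2)
  refine isPreconnected_of_forall (((h / 4 : ℝ) : ℂ) * I, (0:ℂ)) fun p hp => ?_
  obtain ⟨hp1, hp2⟩ := hR p hp
  have hm0 : 0 < min p.1.im (h / 4) := lt_min hp2 (by linarith)
  have hm1 : min p.1.im (h / 4) ≤ p.1.im := min_le_left _ _
  have hm2 : min p.1.im (h / 4) ≤ h / 4 := min_le_right _ _
  set a : ℝ := p.1.im - min p.1.im (h / 4) with ha
  have ha0 : 0 ≤ a := by linarith
  have hf : Continuous (fun s : ℝ => (p.1 - (s:ℂ) * I, p.2)) := by fun_prop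
  refine ⟨(fun s : ℝ => (p.1 - (s:ℂ) * I, p.2)) '' Icc 0 a ∪ W, ?_, Or.inr ?_, Or.inl ?_, ?_⟩
  · refine union_subset ?_ hWD
    rintro _ ⟨s, hs, rfl⟩
    exact hD p hp s hs.1 (by linarith [hs.2])
  · refine ⟨?_, ?_, ?_⟩
    · simp
      linarith
    · simp
      linarith
    · simpa using hB.R_pos
  · exact ⟨0, ⟨le_rfl, ha0⟩, by simp⟩
  · refine IsPreconnected.union (p.1 - (a:ℂ) * I, p.2) ⟨a, ⟨ha0, le_rfl⟩, rfl⟩ ?_
      (isPreconnected_Icc.image _ hf.continuousOn) hWc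
    refine ⟨?_, ?_, hp1⟩
    · rw [rg_im]
      linarith
    · rw [rg_im]
      linarith

/-- Proof. `hB.half`: `(t, ρ) ∈ DKU` as soon as `0 < Im t < h / 2`. From a point go down (or not at
all) to
the height `min (Im t) (h / 4)`; then along the segment to `((h / 4) I, 0)`, inside
`0 < Im t < h / 2`,
`‖ρ‖ < R`. -/
theorem DKU_conn (hB : Base Y h R C0 v G L) : IsPreconnected (DKU v h R) := by
  refine rg_conn hB Subset.rfl (fun p hp s hs h0 => ⟨hp.1, ?_, ?_⟩) fun p hp => ⟨hp.1, hp.2.1⟩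
  · rw [rg_im]
    exact h0
  · rw [rg_im]
    have := hp.2.2
    linarith

/-- `DFU` is closed downwards, as long as `0 < Im t` -/
theorem DFU_down {p : ℂ × ℂ} (hp : p ∈ DFU v h R) {s : ℂ} (hs : s.im ≤ 0)
    (h0 : 0 < p.1.im + s.im) : (p.1 + s, p.2) ∈ DFU v h R := by
  refine ⟨hp.1, ?_, ?_⟩
  · rw [add_im]
    exact h0
  · rw [add_im]
    have := hp.2.2
    linarith

theorem DKU_down {p : ℂ × ℂ} (hp : p ∈ DKU v h R) {s : ℂ} (hs : s.im ≤ 0)
    (h0 : 0 < p.1.im + s.im) : (p.1 + s, p.2) ∈ DKU v h R := by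
  refine ⟨hp.1, ?_, ?_⟩
  · rw [add_im]
    exact h0
  · rw [add_im]
    have := hp.2.2
    linarith

theorem DKU_sub_DFU : DKU v h R ⊆ DFU v h R := by
  rintro p ⟨h1, h2, h3⟩
  exact ⟨h1, h2, by linarith [abs_nonneg p.2.im]⟩

private theorem rg_DFU_conn (hB : Base Y h R C0 v G L) : IsPreconnected (DFU v h R) := by
  refine rg_conn hB DKU_sub_DFU (fun p hp s hs h0 => ⟨hp.1, ?_, ?_⟩) fun p hp => ⟨hp.1, hp.2.1⟩
  · rw [rg_im]
    exact h0
  · rw [rg_im]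
    have := hp.2.2
    linarith

/-- `y1 ∘ L` is not locally zero.

Proof. Otherwise it vanishes on the connected set `DKU`; at `(t, 0)`: `y1 t = 0` for
`0 < Im t < h`, so
`y1' = 0` there, which contradicts the Wronskian (`Sys.On`). -/
theorem y1L_ne (hB : Base Y h R C0 v G L) {p : ℂ × ℂ} (hp : p ∈ DKU v h R) :
    Den (fun q => Y.y1 (L q)) p := by
  have han : AnalyticOnNhd ℂ (fun q => Y.y1 (L q)) (DKU v h R) := fun q hq =>
    AnalyticAt.fun_comp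
      (Pool.Agent.MP_ae5b4e_an_NB2.Sys.an_y1 hB.on
        (Pool.Agent.MP_ae5b4e_an_NBT.isOpen_St (-h) h) _ (hB.maps q hq)) (hB.an q hq)
  refine ⟨han p hp, fun h1 => ?_⟩
  have h2 := han.eqOn_zero_of_preconnected_of_eventuallyEq_zero (DKU_conn hB) hp h1
  have hh := hB.h_pos
  have h3 : ∀ t : ℂ, 0 < t.im → t.im < h → Y.y1 t = 0 := by
    intro t ht1 ht2
    have h4 : (t, (0:ℂ)) ∈ DKU v h R := by
      refine ⟨by simpa using hB.R_pos, ht1, ?_⟩
      show t.im < h - v 0 - |(0:ℂ).im|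
      rw [hB.nv.zero, zero_im, abs_zero, sub_zero, sub_zero]
      exact ht2
    have h5 := h2 h4
    simp only [Pi.zero_apply] at h5
    rwa [hB.zero t ht1 ht2] at h5
  set t0 : ℂ := ((h / 2 : ℝ) : ℂ) * I with ht0
  have him : t0.im = h / 2 := by
    rw [ht0]
    simp
  have hS : t0 ∈ St (-h) h := by
    refine ⟨?_, ?_⟩ <;> rw [him] <;> linarith
  have h6 : Y.y1 =ᶠ[𝓝 t0] fun _ => (0:ℂ) := by
    have e1 : ∀ᶠ t : ℂ in 𝓝 t0, 0 < t.im :=
      (continuous_im.tendsto t0).eventually_const_lt (by rw [him]; linarith)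
    have e2 : ∀ᶠ t : ℂ in 𝓝 t0, t.im < h :=
      (continuous_im.tendsto t0).eventually_lt_const (by rw [him]; linarith)
    filter_upwards [e1, e2] with t a1 a2
    exact h3 t a1 a2
  have h7 : Y.y1' t0 = 0 := by
    have h8 := (hB.on.d1 t0 hS).congr_of_eventuallyEq h6.symm
    exact h8.unique (hasDerivAt_const t0 (0:ℂ))
  have h9 := hB.on.wr t0 hS
  rw [h7, h6.self_of_nhds] at h9
  simp at h9

/-- REGULARITY. `M` is analytic on the connected open set `B` with values in the strip, and equal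
to `L`
near some point of `DKU`. If every point `q` of `B' ∩ DFU` can be joined vertically, inside
`B ∩ DFU`, to a
point of `DKU` near which `M = L`, then `G` is regular at the points of `B'`.

Proof. `g q := y2 (M q) / y1 (M q)`, `N := B'`. `y1 ∘ M` is not locally zero at any point of `B`:
otherwise
it is zero on `B` (connected), which contradicts `y1L_ne` at the point where `M = L`. So `Mer g B`.
For
`q ∈ B' ∩ DFU` the segment `S` is preconnected, `g` and `G` are meromorphic on `S` (`hB.merG`), and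
`EqM g G` at its lower end point (`hB.eqG`): `Mer.eqM`. -/
theorem regF_of (hB : Base Y h R C0 v G L) {B B' : Set (ℂ × ℂ)} (hBo : IsOpen B)
    (hBc : IsPreconnected B) (hB' : IsOpen B') (hBB : B' ⊆ B) {M : ℂ × ℂ → ℂ}
    (hM : AnalyticOnNhd ℂ M B) (hm : MapsTo M B (St (-h) h))
    (hne : ∃ p ∈ B ∩ DKU v h R, M =ᶠ[𝓝 p] L)
    (hd : ∀ p ∈ B' ∩ DFU v h R, ∃ s : ℝ, 0 ≤ s ∧
      (∀ s' ∈ Icc 0 s, (p.1 - s' * I, p.2) ∈ B ∩ DFU v h R) ∧ (p.1 - s * I, p.2) ∈ DKU v h R ∧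
        M =ᶠ[𝓝 (p.1 - s * I, p.2)] L) : ∀ p ∈ B', RegF v h R G p := by
  have hSo := Pool.Agent.MP_ae5b4e_an_NBT.isOpen_St (-h) h
  have han1 : AnalyticOnNhd ℂ (fun q => Y.y1 (M q)) B := fun q hq =>
    AnalyticAt.fun_comp
      (Pool.Agent.MP_ae5b4e_an_NB2.Sys.an_y1 hB.on hSo _ (hm hq)) (hM q hq)
  have han2 : AnalyticOnNhd ℂ (fun q => Y.y2 (M q)) B := fun q hq =>
    AnalyticAt.fun_comp
      (Pool.Agent.MP_ae5b4e_an_NB2.Sys.an_y2 hB.on hSo _ (hm hq)) (hM q hq)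
  have hden : ∀ q ∈ B, Den (fun q => Y.y1 (M q)) q := by
    intro q hq
    refine ⟨han1 q hq, fun h1 => ?_⟩
    have h2 := han1.eqOn_zero_of_preconnected_of_eventuallyEq_zero hBc hq h1
    obtain ⟨p0, ⟨hp0, hp1⟩, hp2⟩ := hne
    apply (y1L_ne hB hp1).ne
    filter_upwards [hp2, hBo.mem_nhds hp0] with x hx1 hx2
    rw [← hx1]
    exact h2 hx2
  have hmer : Mer (fun q => Y.y2 (M q) / Y.y1 (M q)) B := fun q hq =>
    ⟨_, _, han2 q hq, hden q hq, Eventually.of_forall fun _ _ => rfl⟩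
  intro p hp
  refine ⟨B', hB'.mem_nhds hp, fun q => Y.y2 (M q) / Y.y1 (M q), hmer.mono hBB, ?_⟩
  rintro q ⟨hq1, hq2⟩
  obtain ⟨s, hs0, hs1, hs2, hs3⟩ := hd q ⟨hq1, hq2⟩
  have hf : Continuous (fun s : ℝ => (q.1 - (s:ℂ) * I, q.2)) := by fun_prop
  have hS : IsPreconnected ((fun s : ℝ => (q.1 - (s:ℂ) * I, q.2)) '' Icc 0 s) :=
    isPreconnected_Icc.image _ hf.continuousOn
  have hSsub : (fun s : ℝ => (q.1 - (s:ℂ) * I, q.2)) '' Icc 0 s ⊆ B ∩ DFU v h R := by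
    rintro _ ⟨s', hs', rfl⟩
    exact hs1 s' hs'
  have hlow : EqM (fun q => Y.y2 (M q) / Y.y1 (M q)) G (q.1 - (s:ℂ) * I, q.2) := by
    refine EqM.trans (EqM.of_eventuallyEq ?_) (hB.eqG _ hs2).symm
    filter_upwards [hs3] with x hx
    rw [hx]
  exact Mer.eqM hS (hmer.mono fun x hx => (hSsub hx).1) (hB.merG.mono fun x hx => (hSsub hx).2)
    ⟨s, ⟨hs0, le_rfl⟩, rfl⟩ hlow q ⟨0, ⟨le_rfl, hs0⟩, by simp⟩

/-- `(t, ρ) ↦ (t, -ρ)` -/
private def rgE : (ℂ × ℂ) ≃ₜ (ℂ × ℂ) where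
  toFun p := (p.1, -p.2)
  invFun p := (p.1, -p.2)
  left_inv p := by simp
  right_inv p := by simp
  continuous_toFun := by fun_prop
  continuous_invFun := by fun_prop

private theorem rgE_apply (p : ℂ × ℂ) : rgE p = (p.1, -p.2) := rfl

private theorem rgE_an (p : ℂ × ℂ) : AnalyticAt ℂ rgE p := by
  change AnalyticAt ℂ (fun p : ℂ × ℂ => (p.1, -p.2)) p
  exact AnalyticAt.prod analyticAt_fst analyticAt_snd.neg

private theorem rgE_DFU (hB : Base Y h R C0 v G L) {p : ℂ × ℂ} (hp : p ∈ DFU v h R) :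
    rgE p ∈ DFU v h R := by
  obtain ⟨h1, h2, h3⟩ := hp
  refine ⟨?_, h2, ?_⟩
  · show ‖-p.2‖ < R
    rwa [norm_neg]
  · show p.1.im < h - v (-p.2)
    rwa [hB.nv.even p.2 (by rwa [mem_ball_zero_iff])]

private theorem rg_even (hB : Base Y h R C0 v G L) :
    ∀ q ∈ DFU v h R, EqM (fun q => G (rgE q)) G q := by
  have hh := hB.h_pos
  have hp0 : ((((h / 4 : ℝ) : ℂ) * I, (0:ℂ)) : ℂ × ℂ) ∈ DKU v h R := by
    refine rg_low hB ?_ ?_ ?_
    · simp
      linarith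
    · simp
      linarith
    · simpa using hB.R_pos
  refine Mer.eqM (rg_DFU_conn hB) (fun q hq => MerAt.comp rgE (rgE_an q)
    (hB.merG _ (rgE_DFU hB hq))) hB.merG (DKU_sub_DFU hp0) ?_
  have h0 : rgE (((h / 4 : ℝ) : ℂ) * I, (0:ℂ)) = (((h / 4 : ℝ) : ℂ) * I, (0:ℂ)) := by
    rw [rgE_apply]
    simp
  have h1 : EqM (fun q => G (rgE q)) (fun q => Y.y2 (L (rgE q)) / Y.y1 (L (rgE q)))
      (((h / 4 : ℝ) : ℂ) * I, (0:ℂ)) := by
    refine EqM.comp (f := G) (g := fun q => Y.y2 (L q) / Y.y1 (L q)) rgE (rgE_an _) ?_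
    rw [h0]
    exact hB.eqG _ hp0
  refine h1.trans (EqM.trans (EqM.of_eventuallyEq ?_) (hB.eqG _ hp0).symm)
  filter_upwards [(isOpen_DKU hB).mem_nhds hp0] with x hx
  rw [rgE_apply, hB.even x hx]

/-- Evenness. Proof. `G (t, - ρ) = G (t, ρ)` as meromorphic functions on `DFU`: both are
`y2 / y1 ∘ L` on `DKU` (`hB.eqG`, `hB.even`), and `DFU` is connected (as `DKU_conn`). The domain
`DFU` is
symmetric (`hB.nv.even`). If `g` is the extension at `p`, then `g (t, - ρ)` is an extension at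
`(p.1, - p.2)`. -/
theorem regF_neg (hB : Base Y h R C0 v G L) {p : ℂ × ℂ} (hp : RegF v h R G p) :
    RegF v h R G (p.1, -p.2) := by
  obtain ⟨N, hN, g, hg, hgG⟩ := hp
  have he : rgE (p.1, -p.2) = p := by
    rw [rgE_apply]
    simp
  refine ⟨rgE ⁻¹' N, ?_, fun q => g (rgE q), fun q hq => MerAt.comp rgE (rgE_an q) (hg _ hq),
    ?_⟩
  · refine rgE.continuous.continuousAt.preimage_mem_nhds ?_
    rwa [he]
  · rintro q ⟨hq1, hq2⟩
    have h1 : EqM g G (rgE q) := hgG _ ⟨hq1, rgE_DFU hB hq2⟩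
    exact (EqM.comp rgE (rgE_an q) h1).trans (rg_even hB q hq2)

end Pool.Agent.MP_ae5b4e_an_MT
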