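import Pool.Agent.Lib.MP_ae5b4e_an_MT.Ls
import Pool.Agent.Lib.MP_ae5b4e_an_MT.Rg
import Pool.Agent.Lib.MP_ae5b4e_an_MT.Tub

/-! # MT: macro-regular points, the continued labels -/

noncomputable section

namespace Pool.Agent.MP_ae5b4e_an_MT

open Complex Set Filter Topology Metric
open Pool.Agent.MP_ae5b4e_an_NBT (St Mer EqM)
open Pool.Agent.MP_ae5b4e_an_NB2 (Sys)
open Pool.Agent.MP_ae5b4e_an_N5 (NV)
open Pool.Agent.MP_ae5b4e_an_PB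
open Pool.Agent.MP_ae5b4e_an_M
open PorTR (Hm)

variable {Y : Sys} {h R C0 : ℝ} {v : ℂ → ℝ} {G L : ℂ × ℂ → ℂ} {U : Ultrafilter ℕ} {β C1 : ℝ}
  {c V : ℕ → ℝ}

/-- macro-regular point (Im γ₀ > 0): the limit label has an analytic continuation `Λ`, with values in the
lower half plane, from a point of the limit domain along the segment in the direction of the
parameter -/
structure MR (LI : ℂ × ℂ → ℂ) (DI : Set (ℂ × ℂ)) (p₀ : ℂ × ℂ) (Λ : ℂ × ℂ → ℂ) (s₀ : ℝ)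
    (Ω : Set (ℂ × ℂ)) : Prop where
  im : 0 < p₀.2.im
  s_nonneg : 0 ≤ s₀
  op : IsOpen Ω
  an : AnalyticOnNhd ℂ Λ Ω
  neg : ∀ p ∈ Ω, (Λ p).im < 0
  seg : ∀ s ∈ Icc 0 s₀, Sh (-s) p₀ ∈ Ω
  mem : Sh (-s₀) p₀ ∈ DI
  eq : Λ =ᶠ[𝓝 (Sh (-s₀) p₀)] LI

/-- A tube about the segment. Proof. `p₁ := Sh (-s₀) p₀`. `Λ = LI` on a ball about `p₁`, which is in `DI`
(open); the set `{(s, p) | Sh s p ∈ Ω}` is open and contains `Icc 0 s₀ × {p₁}`: generalized tube lemma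
(`generalized_tube_lemma`). -/
theorem MR.exists_tube {LI : ℂ × ℂ → ℂ} {DI : Set (ℂ × ℂ)} {p₀ : ℂ × ℂ} {Λ : ℂ × ℂ → ℂ} {s₀ : ℝ}
    {Ω : Set (ℂ × ℂ)} (hm : MR LI DI p₀ Λ s₀ Ω) (hD : IsOpen DI) :
    ∃ ρ : ℝ, 0 < ρ ∧ ρ < p₀.2.im ∧ closedBall (Sh (-s₀) p₀) ρ ⊆ DI ∧
      (∀ p ∈ closedBall (Sh (-s₀) p₀) ρ, Λ =ᶠ[𝓝 p] LI) ∧
      ∀ p ∈ closedBall (Sh (-s₀) p₀) ρ, ∀ s ∈ Icc 0 s₀, Sh s p ∈ Ω := by
  set p₁ : ℂ × ℂ := Sh (-s₀) p₀ with hp₁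
  have hc : Continuous (fun x : ℝ × (ℂ × ℂ) => Sh x.1 x.2) := by
    unfold Sh
    fun_prop
  have hopen : IsOpen ((fun x : ℝ × (ℂ × ℂ) => Sh x.1 x.2) ⁻¹' Ω) := hm.op.preimage hc
  have hsub : Icc 0 s₀ ×ˢ {p₁} ⊆ (fun x : ℝ × (ℂ × ℂ) => Sh x.1 x.2) ⁻¹' Ω := by
    rintro ⟨s, p⟩ ⟨hs, hp⟩
    have hp' : p = p₁ := hp
    have hs' : s ∈ Icc 0 s₀ := hs
    have h1 := hm.seg (s₀ - s) ⟨by linarith [hs'.2], by linarith [hs'.1]⟩
    show Sh s p ∈ Ω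
    rw [hp', hp₁, Sh_Sh]
    have e : s + -s₀ = -(s₀ - s) := by ring
    rw [e]
    exact h1
  obtain ⟨A, B, -, hBo, hAs, hBs, hAB⟩ :=
    generalized_tube_lemma isCompact_Icc isCompact_singleton hopen hsub
  have h1 : B ∈ 𝓝 p₁ := hBo.mem_nhds (hBs rfl)
  have h2 : DI ∈ 𝓝 p₁ := hD.mem_nhds hm.mem
  have h3 : {p | Λ =ᶠ[𝓝 p] LI} ∈ 𝓝 p₁ := eventually_eventually_nhds.2 hm.eq
  obtain ⟨ρ, hρ, hρs⟩ := nhds_basis_closedBall.mem_iff.1 (inter_mem h1 (inter_mem h2 h3))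
  have him := hm.im
  refine ⟨min ρ (p₀.2.im / 2), lt_min hρ (by linarith), ?_, ?_, ?_, ?_⟩
  · exact lt_of_le_of_lt (min_le_right _ _) (by linarith)
  · exact fun p hp => (hρs (closedBall_subset_closedBall (min_le_left _ _) hp)).2.1
  · exact fun p hp => (hρs (closedBall_subset_closedBall (min_le_left _ _) hp)).2.2
  · intro p hp s hs
    have h4 := (hρs (closedBall_subset_closedBall (min_le_left _ _) hp)).1
    exact hAB (mk_mem_prod (hAs hs) h4)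

private theorem m9_dist {p₀ q : ℂ × ℂ} {s₀ t δ η : ℝ} (hs : 0 ≤ s₀) (hq : ‖q - p₀‖ ≤ δ)
    (ht : |t + s₀| ≤ η) :
    ‖Sh t q - Sh (-s₀) p₀‖ ≤ (1 + s₀) * δ + η * (‖p₀.2‖ + δ) := by
  have hη : 0 ≤ η := (abs_nonneg _).trans ht
  have h1 : ‖q.1 - p₀.1‖ ≤ δ := (norm_fst_le (q - p₀)).trans hq
  have h2 : ‖q.2 - p₀.2‖ ≤ δ := (norm_snd_le (q - p₀)).trans hq
  have hδ : 0 ≤ δ := (norm_nonneg _).trans h1
  have h3 : ‖q.2‖ ≤ ‖p₀.2‖ + δ := by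
    have := norm_add_le p₀.2 (q.2 - p₀.2)
    rw [add_sub_cancel] at this
    linarith
  have hp0 : 0 ≤ ‖p₀.2‖ := norm_nonneg _
  rw [Prod.norm_def]
  refine max_le ?_ ?_
  · have e : (Sh t q - Sh (-s₀) p₀).1 =
        (q.1 - p₀.1) - s₀ * (q.2 - p₀.2) + ((t + s₀ : ℝ) : ℂ) * q.2 := by
      rw [Prod.fst_sub, Sh_fst, Sh_fst]
      push_cast
      ring
    rw [e]
    have h4 : ‖(s₀ : ℂ) * (q.2 - p₀.2)‖ ≤ s₀ * δ := by
      rw [norm_mul, norm_real, Real.norm_eq_abs, abs_of_nonneg hs]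
      exact mul_le_mul_of_nonneg_left h2 hs
    have h5 : ‖((t + s₀ : ℝ) : ℂ) * q.2‖ ≤ η * (‖p₀.2‖ + δ) := by
      rw [norm_mul, norm_real, Real.norm_eq_abs]
      exact mul_le_mul ht h3 (norm_nonneg _) hη
    have h6 := norm_add_le ((q.1 - p₀.1) - s₀ * (q.2 - p₀.2)) (((t + s₀ : ℝ) : ℂ) * q.2)
    have h7 := norm_sub_le (q.1 - p₀.1) ((s₀ : ℂ) * (q.2 - p₀.2))
    linarith
  · have e : (Sh t q - Sh (-s₀) p₀).2 = q.2 - p₀.2 := by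
      rw [Prod.snd_sub, Sh_snd, Sh_snd]
    rw [e]
    nlinarith [mul_nonneg hs hδ, mul_nonneg hη (add_nonneg hp0 hδ)]

/-- (M9), first part: the continued label.

Proof. `4 ρ` from `MR.exists_tube`, `p₁ := Sh (-s₀) p₀`, `E := closedBall p₁ (4 ρ)`, `O := ball p₁ (4 ρ)`
(convex), `δ := ρ / (1 + s₀)`. `LS.run` (`ls_win`, `κ`), `Run.tube`: `M` with `M = Ln` on `O`. For
`q ∈ ball p₀ δ`, with `j = ⌊s₀ / ε⌋₊` (`j ε ≤ s₀ < j ε + ε`):
`‖Sh (-(j ε)) q - p₁‖ ≤ ‖Sh (-(j ε)) q - Sh (-(j ε)) p₀‖ + (s₀ - j ε) ‖p₀.2‖ ≤ (1 + s₀) δ + ε ‖p₀.2‖ ≤ 2 ρ` as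
soon as `ε ‖p₀.2‖ ≤ ρ`. So `M` is analytic at `q = Sh (j ε) (Sh (-(j ε)) q)` and `‖M q - Λ q‖ ≤ κ`;
`ball p₀ δ ⊆ Ω`: `q = Sh s₀ (Sh (-s₀) q)`.

`M = Ln` at the points `q ∈ ball p₀ δ` of `Dn`: `tube_eq` with `L' = Ln`, `p = Sh (-(j ε)) q`: the points
`Sh s p`, `0 ≤ s ≤ j ε`, are `Sh (-(j ε - s)) q`, not above `q` (`Im q.2 > 0` because `δ < Im p₀.2`), so they are
in `Dn` (`DKU_down`; `0 < h + V n Im` holds for almost all `n` on the bounded set), `Ln_an_at`; `Sh θ p ∈ O` for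
`0 ≤ θ ≤ ε` if `ε (‖p₀.2‖ + 4 ρ) ≤ ρ`. -/
theorem mreg_tube (hB : Base Y h R C0 v G L) (HW : Win v U β C1 c V) (x : ℕ → ℝ) {p₀ : ℂ × ℂ}
    {Λ : ℂ × ℂ → ℂ} {s₀ : ℝ} {Ω : Set (ℂ × ℂ)}
    (hm : MR (LI L h U x c V) (DI v U c V) p₀ Λ s₀ Ω) :
    ∃ δ : ℝ, 0 < δ ∧ δ < p₀.2.im ∧ ball p₀ δ ⊆ Ω ∧
      ∀ κ : ℝ, 0 < κ → ∀ᶠ n in (U : Filter ℕ), ∃ M : ℂ × ℂ → ℂ,
      AnalyticOnNhd ℂ M (ball p₀ δ) ∧ (∀ p ∈ ball p₀ δ, ‖M p - Λ p‖ ≤ κ) ∧
      ∀ p ∈ ball p₀ δ, p ∈ Dn v h R x c V n → M p = Ln L h x c V n p := by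
  have hls := ls_win hB HW x
  obtain ⟨ρ', hρ', hρim, hρD, hρΛ, hρΩ⟩ := hm.exists_tube hls.DI_open
  have hs0 := hm.s_nonneg
  set p₁ : ℂ × ℂ := Sh (-s₀) p₀ with hp₁
  set ρ : ℝ := ρ' / 4 with hρdef
  have hρ : 0 < ρ := by positivity
  set δ : ℝ := ρ / (1 + s₀) with hδdef
  have hs1 : 0 < 1 + s₀ := by linarith
  have hδ : 0 < δ := div_pos hρ hs1
  have hδe : (1 + s₀) * δ = ρ := mul_div_cancel₀ _ hs1.ne'
  have hδρ : δ ≤ ρ := by nlinarith [mul_nonneg hs0 hδ.le]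
  have hδim : δ < p₀.2.im := by linarith
  have hp0 : 0 ≤ ‖p₀.2‖ := norm_nonneg _
  have hnear : ∀ q ∈ ball p₀ δ, ‖q - p₀‖ ≤ δ := fun q hq => by
    rw [← dist_eq_norm]
    exact (mem_ball.1 hq).le
  refine ⟨δ, hδ, hδim, ?_, fun κ hκ => ?_⟩
  · intro q hq
    have h1 := m9_dist (t := -s₀) (η := 0) hs0 (hnear q hq) (by simp)
    rw [zero_mul, add_zero, hδe, ← hp₁] at h1
    have h2 : Sh (-s₀) q ∈ closedBall p₁ ρ' := by
      rw [mem_closedBall, dist_eq_norm]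
      linarith
    have h3 := hρΩ _ h2 s₀ ⟨hs0, le_rfl⟩
    rwa [Sh_Sh, add_neg_cancel, Sh_zero] at h3
  obtain ⟨d, R', A, r, C, hd, hr, hC, hrun⟩ :=
    hls.run (isCompact_closedBall p₁ ρ') (convex_closedBall p₁ ρ').isPreconnected hρD hs0
      hm.op hm.an hm.neg hρΩ hρΛ
  have hε1 : ∀ᶠ n in (U : Filter ℕ), c n / V n < ρ / (2 * (‖p₀.2‖ + δ)) :=
    hls.ε_lim.eventually (gt_mem_nhds (by positivity))
  have hV1 : ∀ᶠ n in (U : Filter ℕ), V n < h / ((‖p₀‖ + δ) * (1 + s₀)) :=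
    HW.V_lim.eventually (gt_mem_nhds (by have := hB.h_pos; positivity))
  filter_upwards [hrun κ hκ, hε1, hV1] with n hn hε1 hV1
  obtain ⟨ξ, hξ⟩ := hn
  have hε : 0 < c n / V n := hls.ε_pos n
  set ε : ℝ := c n / V n with hεdef
  obtain ⟨M, hM1, hM2⟩ := hξ.tube hε isOpen_ball (convex_ball p₁ ρ') ball_subset_closedBall
  set j : ℕ := ⌊s₀ / ε⌋₊ with hj
  have hj1 : j * ε ≤ s₀ := by
    have h2 := Nat.floor_le (div_nonneg hs0 hε.le)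
    rwa [le_div_iff₀ hε] at h2
  have hj2 : s₀ < (j + 1) * ε := by
    have h3 := Nat.lt_floor_add_one (s₀ / ε)
    rwa [div_lt_iff₀ hε] at h3
  have hj0 : 0 ≤ j * ε := by positivity
  have hO : ∀ q ∈ ball p₀ δ, ∀ θ ∈ Icc (0:ℝ) ε, Sh θ (Sh (-(j * ε)) q) ∈ ball p₁ ρ' := by
    intro q hq θ hθ
    have h1 : |θ + -(j * ε) + s₀| ≤ 2 * ε := by
      rw [abs_le]
      constructor <;> linarith [hθ.1, hθ.2]
    have h2 := m9_dist hs0 (hnear q hq) h1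
    have h3 : 2 * ε * (‖p₀.2‖ + δ) ≤ ρ := by
      have h4 := (lt_div_iff₀ (by positivity)).1 hε1
      linarith
    rw [Sh_Sh, mem_ball, dist_eq_norm]
    rw [hδe, ← hp₁] at h2
    linarith
  have hO0 : ∀ q ∈ ball p₀ δ, Sh (-(j * ε)) q ∈ ball p₁ ρ' := by
    intro q hq
    have h1 := hO q hq 0 ⟨le_rfl, hε.le⟩
    rwa [Sh_zero] at h1
  have hback : ∀ q : ℂ × ℂ, Sh (j * ε) (Sh (-(j * ε)) q) = q := by
    intro q
    rw [Sh_Sh, add_neg_cancel, Sh_zero]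
  refine ⟨M, fun q hq => ?_, fun q hq => ?_, fun q hq hqD => ?_⟩
  · have h1 := (hM2 _ (hO0 q hq) j hj1).1
    rwa [hback] at h1
  · have h1 := (hM2 _ (hO0 q hq) j hj1).2
    rwa [hback] at h1
  · have h1 := tube_eq (M := M) (L' := Ln L h x c V n) (p := Sh (-(j * ε)) q) (j := j) hε
      (fun p hp j hj => (hM2 p hp j hj).1) isOpen_ball (hO q hq) hj1
      (fun p hp => hM1 p hp hs0) ?_
    · rwa [hback] at h1
    · intro s hs
      refine hls.an n _ ?_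
      rw [Sh_Sh]
      set t : ℝ := -(s + -(j * ε)) with ht
      have ht0 : 0 ≤ t := by linarith [hs.2]
      have ht1 : t ≤ s₀ := by linarith [hs.1]
      have ht2 : s + -(j * ε) = -t := by rw [ht]; ring
      rw [ht2]
      have hV := HW.V_pos n
      have h2 : ‖q.2 - p₀.2‖ ≤ δ := (norm_snd_le (q - p₀)).trans (hnear q hq)
      have h3 : ‖q‖ ≤ ‖p₀‖ + δ := by
        have := norm_add_le p₀ (q - p₀)
        rw [add_sub_cancel] at this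
        linarith [hnear q hq]
      have h4 : 0 ≤ q.2.im := by
        have h5 := (abs_im_le_norm (q.2 - p₀.2)).trans h2
        rw [sub_im, abs_le] at h5
        linarith [h5.1]
      have e : wp h x c V n (Sh (-t) q) =
          ((wp h x c V n q).1 + ((V n * -t : ℝ) : ℂ) * q.2, (wp h x c V n q).2) := by
        refine Prod.ext ?_ ?_
        · simp only [wp, Sh_fst, pt]
          push_cast
          ring
        · simp only [wp, Sh_snd]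
      show wp h x c V n (Sh (-t) q) ∈ DKU v h R
      rw [e]
      have e1 : (((V n * -t : ℝ) : ℂ) * q.2).im = -(V n * (t * q.2.im)) := by
        rw [im_ofReal_mul]
        ring
      refine DKU_down hqD ?_ ?_
      · rw [e1]
        have := mul_nonneg hV.le (mul_nonneg ht0 h4)
        linarith
      · have e2 : (wp h x c V n q).1.im = h + V n * q.1.im := by
          simp [wp, pt]
        rw [e1, e2]
        have h6 : ‖q‖ * (1 + s₀) * V n < h := by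
          have hp00 : 0 ≤ ‖p₀‖ := norm_nonneg _
          have h7 := (lt_div_iff₀ (by positivity)).1 hV1
          have h8 : ‖q‖ * (1 + s₀) ≤ (‖p₀‖ + δ) * (1 + s₀) :=
            mul_le_mul_of_nonneg_right h3 hs1.le
          have h9 := mul_le_mul_of_nonneg_left h8 hV.le
          linarith
        have h7 : -q.1.im ≤ ‖q‖ := by
          have h8 := abs_im_le_norm q.1
          have h9 := neg_le_abs q.1.im
          have h10 := norm_fst_le q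
          linarith
        have h8 : q.2.im ≤ ‖q‖ := by
          have h8 := abs_im_le_norm q.2
          have h9 := le_abs_self q.2.im
          have h10 := norm_snd_le q
          linarith
        have h9 : t * q.2.im ≤ s₀ * ‖q‖ := mul_le_mul ht1 h8 h4 hs0
        have h10 : V n * (t * q.2.im - q.1.im) ≤ V n * (‖q‖ * (1 + s₀)) :=
          mul_le_mul_of_nonneg_left (by linarith) hV.le
        linarith

end Pool.Agent.MP_ae5b4e_an_MT
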