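import Pool.Agent.Lib.MP_ae5b4e_an_MT.M9

/-! # MT: (M9) on a ball of prescribed radius, with one meromorphic function -/

noncomputable section

namespace Pool.Agent.MP_ae5b4e_an_MT

open Complex Set Filter Topology Metric
open Pool.Agent.MP_ae5b4e_an_NBT (St Mer EqM MerAt Den)
open Pool.Agent.MP_ae5b4e_an_NB2 (Sys)
open Pool.Agent.MP_ae5b4e_an_N5 (NV)
open Pool.Agent.MP_ae5b4e_an_PB
open Pool.Agent.MP_ae5b4e_an_M
open PorTR (Hm)

variable {Y : Sys} {h R C0 : ℝ} {v : ℂ → ℝ} {G L : ℂ × ℂ → ℂ} {U : Ultrafilter ℕ} {β C1 : ℝ}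
  {c V : ℕ → ℝ}

/-- as `regF_of`, with one meromorphic function -/
theorem merG_of (hB : Base Y h R C0 v G L) {B B' : Set (ℂ × ℂ)} (hBo : IsOpen B)
    (hBc : IsPreconnected B) (hBB : B' ⊆ B) {M : ℂ × ℂ → ℂ}
    (hM : AnalyticOnNhd ℂ M B) (hm : MapsTo M B (St (-h) h))
    (hne : ∃ p ∈ B ∩ DKU v h R, M =ᶠ[𝓝 p] L)
    (hd : ∀ p ∈ B' ∩ DFU v h R, ∃ s : ℝ, 0 ≤ s ∧
      (∀ s' ∈ Icc 0 s, (p.1 - s' * I, p.2) ∈ B ∩ DFU v h R) ∧ (p.1 - s * I, p.2) ∈ DKU v h R ∧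
        M =ᶠ[𝓝 (p.1 - s * I, p.2)] L) :
    Mer (fun q => Y.y2 (M q) / Y.y1 (M q)) B' ∧
      ∀ q ∈ B' ∩ DFU v h R, EqM (fun q => Y.y2 (M q) / Y.y1 (M q)) G q := by
  have hSo := Pool.Agent.MP_ae5b4e_an_NBT.isOpen_St (-h) h
  have han1 : AnalyticOnNhd ℂ (fun q => Y.y1 (M q)) B := fun q hq =>
    AnalyticAt.fun_comp
      (Pool.Agent.MP_ae5b4e_an_NB2.Sys.an_y1 hB.on hSo _ (hm hq)) (hM q hq)
  have han2 : AnalyticOnNhd ℂ (fun q => Y.y2 (M q)) B := fun q hq =>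
    AnalyticAt.fun_comp
      (Pool.Agent.MP_ae5b4e_an_NB2.Sys.an_y2 hB.on hSo _ (hm hq)) (hM q hq)
  have hden : ∀ q ∈ B, Den (fun q => Y.y1 (M q)) q := by
    intro q hq
    refine ⟨han1 q hq, fun h1 => ?_⟩
    have h2 := han1.eqOn_zero_of_preconnected_of_eventuallyEq_zero hBc hq h1
    obtain ⟨p0, ⟨hp0, hp1⟩, hp2⟩ := hne
    apply (y1L_ne hB hp1).ne
    filter_upwards [hp2, hBo.mem_nhds hp0] with x hx1 hx2
    rw [← hx1]
    exact h2 hx2
  have hmer : Mer (fun q => Y.y2 (M q) / Y.y1 (M q)) B := fun q hq =>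
    ⟨_, _, han2 q hq, hden q hq, Eventually.of_forall fun _ _ => rfl⟩
  refine ⟨hmer.mono hBB, ?_⟩
  rintro q ⟨hq1, hq2⟩
  obtain ⟨s, hs0, hs1, hs2, hs3⟩ := hd q ⟨hq1, hq2⟩
  have hf : Continuous (fun s : ℝ => (q.1 - (s:ℂ) * I, q.2)) := by fun_prop
  have hS : IsPreconnected ((fun s : ℝ => (q.1 - (s:ℂ) * I, q.2)) '' Icc 0 s) :=
    isPreconnected_Icc.image _ hf.continuousOn
  have hSsub : (fun s : ℝ => (q.1 - (s:ℂ) * I, q.2)) '' Icc 0 s ⊆ B ∩ DFU v h R := by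
    rintro _ ⟨s', hs', rfl⟩
    exact hs1 s' hs'
  have hlow : EqM (fun q => Y.y2 (M q) / Y.y1 (M q)) G (q.1 - (s:ℂ) * I, q.2) := by
    refine EqM.trans (EqM.of_eventuallyEq ?_) (hB.eqG _ hs2).symm
    filter_upwards [hs3] with x hx
    rw [hx]
  exact Mer.eqM hS (hmer.mono fun x hx => (hSsub hx).1) (hB.merG.mono fun x hx => (hSsub hx).2)
    ⟨s, ⟨hs0, le_rfl⟩, rfl⟩ hlow q ⟨0, ⟨le_rfl, hs0⟩, by simp⟩

/-- as `regF_win`, with one meromorphic function on the image -/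
theorem merG_win (hB : Base Y h R C0 v G L) (HW : Win v U β C1 c V) (x : ℕ → ℝ) (n : ℕ)
    {B B' : Set (ℂ × ℂ)} (hBo : IsOpen B) (hBc : IsPreconnected B)
    (hBB : B' ⊆ B) {M : ℂ × ℂ → ℂ} (hM : AnalyticOnNhd ℂ M B)
    (hm : ∀ p ∈ B, pt h x V n (M p) ∈ St (-h) h)
    (hd : ∀ p ∈ B', wp h x c V n p ∈ DFU v h R → ∃ s : ℝ, 0 ≤ s ∧
      (∀ s' ∈ Icc 0 s, (p.1 - s' * I, p.2) ∈ B ∧ 0 < h + V n * (p.1.im - s')) ∧
        (p.1 - s * I, p.2) ∈ Dn v h R x c V n ∧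
        M =ᶠ[𝓝 (p.1 - s * I, p.2)] Ln L h x c V n) :
    ∃ g : ℂ × ℂ → ℂ, Mer g (wp h x c V n '' B') ∧
      ∀ q ∈ wp h x c V n '' B' ∩ DFU v h R, EqM g G q := by
  have hV := HW.V_pos n
  have hcq := m9_wq_cont h x c V n
  have hcp := m9_wp_cont h x c V n
  have hpre : ∀ B : Set (ℂ × ℂ), wq h x c V n ⁻¹' B = wp h x c V n '' B := by
    intro B
    ext q
    constructor
    · intro hq
      exact ⟨_, hq, wp_wq HW h x n q⟩
    · rintro ⟨p, hp, rfl⟩
      show wq h x c V n (wp h x c V n p) ∈ B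
      rw [wq_wp HW]
      exact hp
  by_cases hex : ∃ p ∈ B', wp h x c V n p ∈ DFU v h R
  · have key := merG_of hB (B := wq h x c V n ⁻¹' B) (B' := wq h x c V n ⁻¹' B')
      (M := fun q => pt h x V n (M (wq h x c V n q))) (hBo.preimage hcq)
      (by rw [hpre]; exact hBc.image _ hcp.continuousOn)
      (preimage_mono hBB) ?_ ?_ ?_ ?_
    · rw [← hpre]
      exact ⟨_, key⟩
    · intro q hq
      have h1 : AnalyticAt ℂ (fun q => M (wq h x c V n q)) q :=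
        AnalyticAt.comp (g := M) (f := wq h x c V n) (hM _ hq) (m9_wq_an h x c V n q)
      unfold pt
      exact analyticAt_const.add (analyticAt_const.mul h1)
    · intro q hq
      exact hm _ hq
    · obtain ⟨p, hp1, hp2⟩ := hex
      obtain ⟨s, hs, h1, h2, h3⟩ := hd p hp1 hp2
      refine ⟨wp h x c V n (p.1 - s * I, p.2), ⟨?_, h2⟩, ?_⟩
      · show wq h x c V n (wp h x c V n _) ∈ B
        rw [wq_wp HW]
        exact (h1 s ⟨hs, le_rfl⟩).1
      · apply m9_eq HW h x n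
        rw [wq_wp HW]
        exact h3
    · rintro q ⟨hq1, hq2⟩
      have e1 := wp_wq HW h x n q
      obtain ⟨s, hs, h1, h2, h3⟩ := hd (wq h x c V n q) hq1 (by rw [e1]; exact hq2)
      have e2 : ∀ s' : ℝ, ((q.1 - ((V n * s' : ℝ) : ℂ) * I, q.2) : ℂ × ℂ) =
          wp h x c V n ((wq h x c V n q).1 - s' * I, (wq h x c V n q).2) := by
        intro s'
        rw [m9_wp_down, e1]
        ext
        · push_cast; ring
        · rfl
      refine ⟨V n * s, by positivity, ?_, ?_, ?_⟩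
      · intro s' hs'
        have hs2 : s' / V n ∈ Icc 0 s := by
          constructor
          · exact div_nonneg hs'.1 hV.le
          · rw [div_le_iff₀ hV, mul_comm]
            exact hs'.2
        have hs3 : V n * (s' / V n) = s' := by field_simp
        obtain ⟨h4, h5⟩ := h1 _ hs2
        constructor
        · show wq h x c V n (q.1 - s' * I, q.2) ∈ B
          have h6 := e2 (s' / V n)
          rw [hs3] at h6
          rw [h6, wq_wp HW]
          exact h4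
        · have h6 : ((q.1 - s' * I, q.2) : ℂ × ℂ) = (q.1 + (-(s' * I)), q.2) := by
            rw [sub_eq_add_neg]
          rw [h6]
          apply DFU_down hq2
          · simp
            exact hs'.1
          · have h7 : q.1.im = h + V n * (wq h x c V n q).1.im := by
              conv_lhs => rw [← e1]
              exact pt_im h x V n _
            have h8 : (-((s':ℂ) * I)).im = -s' := by simp
            rw [h7, h8]
            have h9 : V n * ((wq h x c V n q).1.im - s' / V n) =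
                V n * (wq h x c V n q).1.im - s' := by
              rw [mul_sub, hs3]
            rw [h9] at h5
            linarith
      · rw [e2]
        exact h2
      · rw [e2]
        apply m9_eq HW h x n
        rw [wq_wp HW]
        exact h3
  · push Not at hex
    refine ⟨fun _ => 0, ?_, ?_⟩
    · intro q _
      exact Pool.Agent.MP_ae5b4e_an_NBT.merAt_of_analyticAt analyticAt_const
    · rintro q ⟨⟨p, hp, rfl⟩, hq2⟩
      exact absurd hq2 (hex p hp)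

private theorem re_ofReal_mul_im (a : ℝ) (z : ℂ) : ((a : ℂ) * z).im = a * z.im := by
  simp

/-- the continued label on a ball of prescribed radius -/
theorem mreg_ball (hB : Base Y h R C0 v G L) (HW : Win v U β C1 c V) (x : ℕ → ℝ) {p₀ : ℂ × ℂ}
    {Λ : ℂ × ℂ → ℂ} {s₀ r₁ r : ℝ} {Ω : Set (ℂ × ℂ)} (hi : r₁ < p₀.2.im) (hs : 0 ≤ s₀)
    (hr0 : 0 < r) (hr : r < r₁) (hΩ : IsOpen Ω) (hΛ : AnalyticOnNhd ℂ Λ Ω)
    (hneg : ∀ p ∈ Ω, (Λ p).im < 0)
    (htube : ∀ p ∈ closedBall p₀ r₁, ∀ s ∈ Icc 0 s₀, Sh (-s) p ∈ Ω)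
    (hDI : ∀ p ∈ closedBall p₀ r₁, Sh (-s₀) p ∈ DI v U c V)
    (heq : ∀ p ∈ closedBall p₀ r₁, Λ =ᶠ[𝓝 (Sh (-s₀) p)] LI L h U x c V) {κ : ℝ} (hκ : 0 < κ) :
    ∀ᶠ n in (U : Filter ℕ), ∃ M : ℂ × ℂ → ℂ,
      AnalyticOnNhd ℂ M (ball p₀ r) ∧ (∀ p ∈ ball p₀ r, ‖M p - Λ p‖ ≤ κ) ∧
      ∀ p ∈ ball p₀ r, p ∈ Dn v h R x c V n → M p = Ln L h x c V n p := by
  set E : Set (ℂ × ℂ) := Sh (-s₀) '' closedBall p₀ r₁ with hEd
  set O : Set (ℂ × ℂ) := Sh s₀ ⁻¹' ball p₀ r₁ with hOd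
  have hSS : ∀ p : ℂ × ℂ, Sh (-s₀) (Sh s₀ p) = p := by
    intro p; rw [Sh_Sh]; simp [Sh_zero]
  have hEK : IsCompact E := (isCompact_closedBall p₀ r₁).image (continuous_Sh _)
  have hEc : IsPreconnected E :=
    (convex_closedBall p₀ r₁).isPreconnected.image _ (continuous_Sh _).continuousOn
  have hOo : IsOpen O := isOpen_ball.preimage (continuous_Sh _)
  have hOc : Convex ℝ O := by
    intro p hp q hq a b ha hb hab
    show Sh s₀ (a • p + b • q) ∈ ball p₀ r₁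
    have h1 : Sh s₀ (a • p + b • q) = a • Sh s₀ p + b • Sh s₀ q := by
      ext
      · simp [Sh]; ring
      · simp [Sh]
    rw [h1]
    exact convex_ball p₀ r₁ hp hq ha hb hab
  have hOE : O ⊆ E := fun p hp => ⟨Sh s₀ p, ball_subset_closedBall hp, hSS p⟩
  have hED : E ⊆ DI v U c V := by
    rintro _ ⟨q, hq, rfl⟩
    exact hDI q hq
  have hEΩ : ∀ p ∈ E, ∀ s ∈ Icc 0 s₀, Sh s p ∈ Ω := by
    rintro _ ⟨q, hq, rfl⟩ s hs'
    rw [Sh_Sh]
    have h1 := htube q hq (s₀ - s) ⟨by linarith [hs'.2], by linarith [hs'.1]⟩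
    have h2 : s + -s₀ = -(s₀ - s) := by ring
    rwa [h2]
  have hEeq : ∀ p ∈ E, Λ =ᶠ[𝓝 p] LI L h U x c V := by
    rintro _ ⟨q, hq, rfl⟩
    exact heq q hq
  obtain ⟨d, R', A, r', C, hd, hr', hC, hrun⟩ := (ls_win hB HW x).run hEK hEc hED hs hΩ hΛ hneg
    hEΩ hEeq
  have hh := hB.h_pos
  have hev1 : ∀ᶠ n in (U : Filter ℕ), V n * ((‖p₀‖ + r) * (1 + s₀)) < h :=
    lim_lt HW.V_lim _ hh
  have hev2 : ∀ᶠ n in (U : Filter ℕ), c n / V n * (2 * (‖p₀‖ + r)) < r₁ - r :=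
    lim_lt (cV_lim HW) _ (by linarith)
  filter_upwards [hrun κ hκ, hev1, hev2] with n hn hn1 hn2
  obtain ⟨ξ, hξ⟩ := hn
  have hV := HW.V_pos n
  have hcn := HW.c_pos n
  set ε := c n / V n with hεd
  have hε : 0 < ε := div_pos hcn hV
  obtain ⟨M, hM1, hM2⟩ := hξ.tube hε hOo hOc hOE
  -- the number of steps
  set j := ⌊s₀ / ε⌋₊ with hj
  have hj1 : (j:ℝ) * ε ≤ s₀ := by
    have := Nat.floor_le (div_nonneg hs hε.le)
    rwa [le_div_iff₀ hε] at this
  have hj2 : s₀ < (j:ℝ) * ε + ε := by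
    have := Nat.lt_floor_add_one (s₀ / ε)
    rw [div_lt_iff₀ hε] at this
    linarith
  have hq2 : ∀ q ∈ ball p₀ r, ‖q‖ < ‖p₀‖ + r := by
    intro q hq
    rw [mem_ball, dist_eq_norm] at hq
    have := norm_le_norm_add_norm_sub' q p₀
    linarith
  have hmov : ∀ q ∈ ball p₀ r, ∀ t : ℝ, 0 ≤ t → t ≤ 2 * ε → Sh t q ∈ ball p₀ r₁ := by
    intro q hq t ht0 ht
    have h1 : dist (Sh t q) q ≤ t * ‖q‖ := by
      rw [Prod.dist_eq]
      simp only [Sh_fst, Sh_snd, dist_self, dist_eq_norm, add_sub_cancel_left, norm_mul,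
        Complex.norm_real, Real.norm_eq_abs, abs_of_nonneg ht0]
      apply max_le
      · exact mul_le_mul_of_nonneg_left (norm_snd_le q) ht0
      · positivity
    have h2 := dist_triangle (Sh t q) q p₀
    have h3 : dist q p₀ < r := hq
    have h4 := hq2 q hq
    have h5 : t * ‖q‖ ≤ 2 * ε * (‖p₀‖ + r) := mul_le_mul ht h4.le (norm_nonneg _) (by positivity)
    rw [mem_ball]
    nlinarith
  have hO1 : ∀ q ∈ ball p₀ r, ∀ θ ∈ Icc (0:ℝ) ε, Sh θ (Sh (-(j * ε)) q) ∈ O := by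
    intro q hq θ hθ
    show Sh s₀ (Sh θ (Sh (-(j * ε)) q)) ∈ ball p₀ r₁
    rw [Sh_Sh, Sh_Sh]
    apply hmov q hq
    · linarith [hθ.1]
    · linarith [hθ.2]
  have hO0 : ∀ q ∈ ball p₀ r, Sh (-(j * ε)) q ∈ O := by
    intro q hq
    have := hO1 q hq 0 ⟨le_rfl, hε.le⟩
    rwa [Sh_zero] at this
  have hback : ∀ q : ℂ × ℂ, Sh (j * ε) (Sh (-(j * ε)) q) = q := by
    intro q; rw [Sh_Sh]; simp [Sh_zero]
  refine ⟨M, fun q hq => ?_, fun q hq => ?_, fun q hq hqD => ?_⟩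
  · have := (hM2 _ (hO0 q hq) j hj1).1
    rwa [hback] at this
  · have := (hM2 _ (hO0 q hq) j hj1).2
    rwa [hback] at this
  · have hqi : 0 < q.2.im := by
      have h1 : ‖(q - p₀).2‖ ≤ ‖q - p₀‖ := norm_snd_le _
      have h2 := (abs_im_le_norm (q - p₀).2).trans h1
      rw [mem_ball, dist_eq_norm] at hq
      have h3 := (abs_le.1 h2).1
      simp only [Prod.snd_sub, sub_im] at h3
      linarith
    have key := tube_eq (s₀ := s₀) (M := M) (L' := Ln L h x c V n) (p := Sh (-(j * ε)) q) (j := j)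
      hε (fun p hp j hj => (hM2 p hp j hj).1) hOo (hO1 q hq) hj1 (fun p hp => hM1 p hp hs) ?_
    · rwa [hback] at key
    · intro s hs'
      apply Ln_an_at hB HW
      show wp h x c V n _ ∈ DKU v h R
      rw [Sh_Sh]
      have h1 : wp h x c V n (Sh (s + -(j * ε)) q) =
          ((wp h x c V n q).1 + V n * ((s + -(j * ε) : ℝ) * q.2), (wp h x c V n q).2) := by
        ext
        · simp [wp, pt, Sh]; ring
        · rfl
      have h2 : ((V n : ℂ) * (((s + -(j * ε) : ℝ) : ℂ) * q.2)).im =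
          V n * ((s + -(j * ε)) * q.2.im) := by
        rw [re_ofReal_mul_im, re_ofReal_mul_im]
      rw [h1]
      have h3 : (s + -(j * ε)) * q.2.im ≤ 0 := by
        apply mul_nonpos_of_nonpos_of_nonneg _ hqi.le
        linarith [hs'.2]
      have h4 : -(s₀ * (‖p₀‖ + r)) ≤ (s + -(j * ε)) * q.2.im := by
        have h5 : q.2.im ≤ ‖p₀‖ + r :=
          ((abs_le.1 (abs_im_le_norm q.2)).2.trans (norm_snd_le q)).trans (hq2 q hq).le
        have h6 : (j * ε - s) * q.2.im ≤ s₀ * (‖p₀‖ + r) := by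
          apply mul_le_mul _ h5 hqi.le hs
          linarith [hs'.1]
        linarith
      have h7 : -(‖p₀‖ + r) ≤ q.1.im := by
        have := ((abs_im_le_norm q.1).trans (norm_fst_le q)).trans (hq2 q hq).le
        exact (abs_le.1 this).1
      apply DKU_down hqD
      · rw [h2]
        exact mul_nonpos_of_nonneg_of_nonpos hV.le h3
      · rw [h2]
        have h8 : (wp h x c V n q).1.im = h + V n * q.1.im := pt_im h x V n _
        rw [h8]
        have h9 : V n * (-(‖p₀‖ + r)) ≤ V n * q.1.im := mul_le_mul_of_nonneg_left h7 hV.le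
        have h10 : V n * (-(s₀ * (‖p₀‖ + r))) ≤ V n * ((s + -(j * ε)) * q.2.im) :=
          mul_le_mul_of_nonneg_left h4 hV.le
        nlinarith

/-- (M9) on a ball of prescribed radius: one meromorphic function on the image -/
theorem mreg_ball_mer (hB : Base Y h R C0 v G L) (HW : Win v U β C1 c V) (x : ℕ → ℝ)
    {p₀ : ℂ × ℂ}
    {Λ : ℂ × ℂ → ℂ} {s₀ r₁ r : ℝ} {Ω : Set (ℂ × ℂ)} (hi : r₁ < p₀.2.im) (hs : 0 ≤ s₀)
    (hr0 : 0 < r) (hr : r < r₁) (hΩ : IsOpen Ω) (hΛ : AnalyticOnNhd ℂ Λ Ω)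
    (hneg : ∀ p ∈ Ω, (Λ p).im < 0)
    (htube : ∀ p ∈ closedBall p₀ r₁, ∀ s ∈ Icc 0 s₀, Sh (-s) p ∈ Ω)
    (hDI : ∀ p ∈ closedBall p₀ r₁, Sh (-s₀) p ∈ DI v U c V)
    (heq : ∀ p ∈ closedBall p₀ r₁, Λ =ᶠ[𝓝 (Sh (-s₀) p)] LI L h U x c V) :
    ∀ᶠ n in (U : Filter ℕ), ∃ g : ℂ × ℂ → ℂ, Mer g (wp h x c V n '' ball p₀ r) ∧
      ∀ q ∈ wp h x c V n '' ball p₀ r ∩ DFU v h R, EqM g G q := by
  set r' := (r + r₁) / 2 with hr'd
  have hr1 : r < r' := by rw [hr'd]; linarith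
  have hr2 : r' < r₁ := by rw [hr'd]; linarith
  have hK : IsCompact (closedBall p₀ r₁) := isCompact_closedBall _ _
  have hKΩ : closedBall p₀ r₁ ⊆ Ω := by
    intro p hp
    have := htube p hp 0 ⟨le_rfl, hs⟩
    rwa [neg_zero, Sh_zero] at this
  have hcΛ : ContinuousOn Λ (closedBall p₀ r₁) := hΛ.continuousOn.mono hKΩ
  have hp0 : p₀ ∈ closedBall p₀ r₁ := mem_closedBall_self (by linarith)
  obtain ⟨B₀, hB₀⟩ := hK.exists_bound_of_continuousOn hcΛ
  obtain ⟨z, hz, hzm⟩ := hK.exists_isMaxOn ⟨p₀, hp0⟩ (continuous_im.comp_continuousOn hcΛ)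
  have hz0 : (Λ z).im < 0 := hneg z (hKΩ hz)
  set κ₀ := -(Λ z).im / 2 with hκd
  have hκ₀ : 0 < κ₀ := by rw [hκd]; linarith
  have hh := hB.h_pos
  have hV1 : ∀ᶠ n in (U : Filter ℕ), V n * (B₀ + κ₀ + ‖p₀‖ + 2 * r₁ + 1) < h :=
    lim_lt HW.V_lim _ hh
  have hV2 : ∀ᶠ n in (U : Filter ℕ), c n / V n * (2 * (‖p₀‖ + r₁)) < r' - r :=
    lim_lt (cV_lim HW) _ (by linarith)
  filter_upwards [mreg_ball hB HW x hi hs (hr0.trans hr1) hr2 hΩ hΛ hneg htube hDI heq hκ₀, hV1,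
    hV2] with n hn hn1 hn2
  obtain ⟨M, hMan, hMe, hML⟩ := hn
  have hB0 : 0 ≤ B₀ := (norm_nonneg _).trans (hB₀ p₀ hp0)
  have hV := HW.V_pos n
  have hcn := HW.c_pos n
  have hDo : IsOpen (Dn v h R x c V n) := (isOpen_DKU hB).preimage (m9_wp_cont h x c V n)
  have hr'0 : 0 < r' := hr0.trans hr1
  apply merG_win hB HW x n (B := ball p₀ r') (B' := ball p₀ r) isOpen_ball
    (convex_ball _ _).isPreconnected (ball_subset_ball hr1.le) hMan
  · intro p hp
    have hp' : p ∈ closedBall p₀ r₁ := closedBall_subset_closedBall hr2.le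
      (ball_subset_closedBall hp)
    have h1 := hMe p hp
    have h2 : (Λ p).im ≤ (Λ z).im := hzm hp'
    have h3 : |(M p - Λ p).im| ≤ κ₀ := (abs_im_le_norm _).trans h1
    rw [sub_im, abs_le] at h3
    have h4 : (M p).im ≤ -κ₀ := by rw [hκd] at h3 ⊢; linarith [h3.2]
    have h5 : ‖M p‖ ≤ B₀ + κ₀ := by
      have := norm_le_norm_add_norm_sub' (M p) (Λ p)
      linarith [hB₀ p hp']
    have h6 := (abs_le.1 ((abs_im_le_norm (M p)).trans h5)).1
    have h7 : (pt h x V n (M p)).im = h + V n * (M p).im := pt_im h x V n _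
    have hn0 := norm_nonneg p₀
    constructor
    · rw [h7]
      nlinarith
    · rw [h7]
      nlinarith
  · intro p hp hpF
    have hd1 : dist p p₀ < r := hp
    have hp2 : ‖p‖ < ‖p₀‖ + r := by
      have := norm_le_norm_add_norm_sub' p p₀
      rw [dist_eq_norm] at hd1
      linarith
    have hp2i : 0 < p.2.im := by
      have h1 : ‖(p - p₀).2‖ ≤ ‖p - p₀‖ := norm_snd_le _
      have h2 := (abs_im_le_norm (p - p₀).2).trans h1
      rw [dist_eq_norm] at hd1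
      have h3 := (abs_le.1 h2).1
      simp only [Prod.snd_sub, sub_im] at h3
      linarith
    have hp2n : p.2.im ≤ ‖p₀‖ + r₁ := by
      have h1 : ‖p.2‖ ≤ ‖p‖ := norm_snd_le _
      have h2 := (abs_le.1 (abs_im_le_norm p.2)).2
      linarith
    have hp1n : -(‖p₀‖ + r₁) ≤ p.1.im := by
      have h1 : ‖p.1‖ ≤ ‖p‖ := norm_fst_le _
      have h2 := (abs_le.1 (abs_im_le_norm p.1)).1
      linarith
    have hcV : 0 < c n / V n := div_pos hcn hV
    have hs0 : 0 ≤ 2 * p.2.im * (c n / V n) := by positivity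
    have hs1 : 2 * p.2.im * (c n / V n) < r' - r := by
      refine lt_of_le_of_lt ?_ hn2
      nlinarith
    have hVs : V n * (2 * p.2.im * (c n / V n)) = 2 * (c n * p.2.im) := by
      field_simp
    have hball : ∀ s' ∈ Icc 0 (2 * p.2.im * (c n / V n)), (p.1 - s' * I, p.2) ∈
        ball p₀ r' := by
      intro s' hs'
      rw [mem_ball]
      have h1 : dist ((p.1 - s' * I, p.2) : ℂ × ℂ) p ≤ s' := by
        rw [Prod.dist_eq, dist_self, dist_eq_norm]
        have : (p.1 - s' * I - p.1 : ℂ) = -(s' * I) := by ring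
        rw [this, norm_neg, norm_mul, norm_I, mul_one, Complex.norm_real, Real.norm_eq_abs,
          abs_of_nonneg hs'.1]
        exact max_le le_rfl hs'.1
      have h2 := dist_triangle ((p.1 - s' * I, p.2) : ℂ × ℂ) p p₀
      linarith [hs'.2]
    have hpos : ∀ s' ∈ Icc 0 (2 * p.2.im * (c n / V n)), 0 < h + V n * (p.1.im - s') := by
      intro s' hs'
      have h1 : V n * s' ≤ V n * r₁ :=
        mul_le_mul_of_nonneg_left (by linarith [hs'.2]) hV.le
      have h2 : V n * (-(‖p₀‖ + r₁)) ≤ V n * p.1.im := mul_le_mul_of_nonneg_left hp1n hV.le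
      have h3 : 0 ≤ V n * (B₀ + κ₀ + 1) := by positivity
      have h5 : V n * (B₀ + κ₀ + ‖p₀‖ + 2 * r₁ + 1) =
          V n * (B₀ + κ₀ + 1) - V n * (-(‖p₀‖ + r₁)) + V n * r₁ := by ring
      rw [h5] at hn1
      rw [mul_sub]
      linarith
    refine ⟨2 * p.2.im * (c n / V n), hs0, fun s' hs' => ⟨hball s' hs', hpos s' hs'⟩, ?_⟩
    have hmemD : ((p.1 - ((2 * p.2.im * (c n / V n) : ℝ) : ℂ) * I, p.2) : ℂ × ℂ) ∈
        Dn v h R x c V n := by
      show wp h x c V n _ ∈ DKU v h R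
      obtain ⟨h1, h2, h3⟩ := hpF
      have h4 : (wp h x c V n p).1.im = h + V n * p.1.im := pt_im h x V n _
      have h5 := hpos _ ⟨hs0, le_rfl⟩
      rw [mul_sub, hVs] at h5
      have h6 : ((wp h x c V n (p.1 - ((2 * p.2.im * (c n / V n) : ℝ) : ℂ) * I, p.2))).1.im =
          h + V n * p.1.im - 2 * (c n * p.2.im) := by
        show (pt h x V n _).im = _
        rw [pt_im, sub_im]
        simp only [mul_im, ofReal_re, I_im, mul_one, ofReal_im, I_re, mul_zero, add_zero]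
        rw [mul_sub, hVs]
        ring
      have h7 : (wp h x c V n p).2.im = c n * p.2.im := by simp [wp]
      refine ⟨h1, ?_, ?_⟩
      · rw [h6]; linarith
      · rw [h6]
        have h8 : (wp h x c V n (p.1 - ((2 * p.2.im * (c n / V n) : ℝ) : ℂ) * I, p.2)).2 =
            (wp h x c V n p).2 := rfl
        rw [h8, h7, abs_of_pos (by positivity)]
        rw [h4] at h3
        have h9 : 0 < c n * p.2.im := by positivity
        linarith
    refine ⟨hmemD, ?_⟩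
    filter_upwards [hDo.mem_nhds hmemD, isOpen_ball.mem_nhds (hball _ ⟨hs0, le_rfl⟩)]
      with q hq1 hq2
    exact hML q hq2 hq1

end Pool.Agent.MP_ae5b4e_an_MT
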