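import Pool.Agent.Lib.MP_ae5b4e_an_MT.Defs
import Pool.Agent.Lib.MP_ae5b4e_an_NB5.StA

/-! # MT: the reflection estimate -/

noncomputable section

namespace Pool.Agent.MP_ae5b4e_an_MT

open Complex Set Filter Topology Metric
open Pool.Agent.MP_ae5b4e_an_NB2 (Sys)
open Pool.Agent.MP_ae5b4e_an_NB5 (ode_cmp)

/-- Bounds for the kernel with pole `0`, and the reflection estimate.

Proof. Let `ρ := A + 2`, `K := ρ exp ((1 + M) ρ)`. `Sys.hasDerivAt_s`, `Sys.hasDerivAt_sd`,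
`Sys.hasDerivAt_c`, `Sys.hasDerivAt_cd` (`l = 0`), `s_self`, `sd_self`, `c_self`, `cd_self`.
* `y = s - ζ`, `y' = sd - 1`: `y'' = - Q y - Q ζ`, zero initial values: `ode_cmp` (NB5/StA) with
  `p = Q`, `g = - Q ζ`, `G = M ρ`: `‖s‖ ≤ ρ + M ρ K`, `‖sd‖ ≤ 1 + M ρ K`.
* `y = c - 1`: `g = - Q`, `G = M`: `‖c‖ ≤ 1 + M K`, `‖cd‖ ≤ M K`.
* `y ζ = s ζ + s (-ζ)`, `y' ζ = sd ζ - sd (-ζ)`: `y'' = - Q ζ s ζ - Q (-ζ) s (-ζ) =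
  - Q ζ y ζ + (Q ζ - Q (-ζ)) s (-ζ)`, zero initial values, `G = ω (ρ + M ρ K)`.
* `y ζ = c ζ - c (-ζ)`, `y' ζ = cd ζ + cd (-ζ)`: `y'' = - Q ζ y ζ - (Q ζ - Q (-ζ)) c (-ζ)`,
  `G = ω (1 + M K)`.
`E` is the maximum of the constants (and `1`). -/
theorem refl_est {A M : ℝ} (hA : 0 ≤ A) (hM : 0 ≤ M) : ∃ E : ℝ, 1 ≤ E ∧ ∀ (Y : Sys) (ω : ℝ),
    0 ≤ ω → Y.On (ball 0 (A + 2)) → (∀ ζ ∈ ball (0:ℂ) (A + 2), ‖Y.Q ζ‖ ≤ M) →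
    (∀ ζ ∈ ball (0:ℂ) (A + 2), ‖Y.Q ζ - Y.Q (-ζ)‖ ≤ ω) → ∀ ζ ∈ ball (0:ℂ) (A + 2),
      ‖Y.s ζ 0‖ ≤ E ∧ ‖Y.c ζ 0‖ ≤ E ∧ ‖Y.sd ζ 0‖ ≤ E ∧ ‖Y.cd ζ 0‖ ≤ E ∧
      ‖Y.s ζ 0 + Y.s (-ζ) 0‖ ≤ E * ω ∧ ‖Y.c ζ 0 - Y.c (-ζ) 0‖ ≤ E * ω := by
  set ρ : ℝ := A + 2 with hρdef
  have hρ : 0 < ρ := by linarith
  obtain ⟨K, hK⟩ : ∃ K : ℝ, K = ρ * Real.exp ((1 + M) * ρ) := ⟨_, rfl⟩
  have hK0 : 0 ≤ K := by rw [hK]; positivity
  have hGK : ∀ G : ℝ, G * ρ * Real.exp ((1 + M) * ρ) = G * K := fun G => by rw [hK]; ring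
  refine ⟨1 + ρ + M * ρ * K + M * K + (ρ + M * ρ * K) * K + (1 + M * K) * K, ?_, ?_⟩
  · have h1 : 0 ≤ M * ρ * K := by positivity
    have h2 : 0 ≤ M * K := by positivity
    have h3 : 0 ≤ (ρ + M * ρ * K) * K := by positivity
    have h4 : 0 ≤ (1 + M * K) * K := by positivity
    linarith
  intro Y ω hω hY hQ hQ2
  have h0m : (0 : ℂ) ∈ ball (0 : ℂ) ρ := mem_ball_self hρ
  have hneg : ∀ ζ ∈ ball (0 : ℂ) ρ, -ζ ∈ ball (0 : ℂ) ρ := by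
    intro ζ hζ
    rw [mem_ball_zero_iff] at hζ ⊢
    rwa [norm_neg]
  -- the four estimates
  have e1 : ∀ ζ ∈ ball (0 : ℂ) ρ, ‖Y.s ζ 0 - ζ‖ ≤ M * ρ * K ∧ ‖Y.sd ζ 0 - 1‖ ≤ M * ρ * K := by
    have := ode_cmp (p := Y.Q) (g := fun ζ => -(Y.Q ζ * ζ)) (y := fun ζ => Y.s ζ 0 - ζ)
      (y' := fun ζ => Y.sd ζ 0 - 1) (G := M * ρ) hρ hM (by positivity)
      (fun ζ hζ => (Sys.hasDerivAt_s hY hζ).sub (hasDerivAt_id ζ))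
      (fun ζ hζ => ?_) (by simp [Sys.s_self]) (by simp [Sys.sd_self hY h0m]) hQ
      (fun ζ hζ => ?_)
    · intro ζ hζ
      rw [← hGK]
      exact this ζ hζ
    · have h1 := (Sys.hasDerivAt_sd (l := 0) hY hζ).sub_const (1 : ℂ)
      convert! h1 using 1
      ring
    · rw [norm_neg, norm_mul]
      rw [mem_ball_zero_iff] at hζ
      exact mul_le_mul (hQ ζ (by rwa [mem_ball_zero_iff])) hζ.le (norm_nonneg _) hM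
  have e2 : ∀ ζ ∈ ball (0 : ℂ) ρ, ‖Y.c ζ 0 - 1‖ ≤ M * K ∧ ‖Y.cd ζ 0‖ ≤ M * K := by
    have := ode_cmp (p := Y.Q) (g := fun ζ => -Y.Q ζ) (y := fun ζ => Y.c ζ 0 - 1)
      (y' := fun ζ => Y.cd ζ 0) (G := M) hρ hM hM
      (fun ζ hζ => (Sys.hasDerivAt_c hY hζ).sub_const _)
      (fun ζ hζ => ?_) (by simp [Sys.c_self hY h0m]) (by simp [Sys.cd_self]) hQ
      (fun ζ hζ => ?_)
    · intro ζ hζ
      rw [← hGK]
      exact this ζ hζ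
    · have h1 := Sys.hasDerivAt_cd (l := 0) hY hζ
      convert! h1 using 1
      ring
    · rw [norm_neg]
      exact hQ ζ hζ
  have hs : ∀ ζ ∈ ball (0 : ℂ) ρ, ‖Y.s ζ 0‖ ≤ ρ + M * ρ * K := by
    intro ζ hζ
    have h1 := (e1 ζ hζ).1
    have h2 : ‖Y.s ζ 0‖ ≤ ‖Y.s ζ 0 - ζ‖ + ‖ζ‖ := by
      simpa using norm_add_le (Y.s ζ 0 - ζ) ζ
    rw [mem_ball_zero_iff] at hζ
    linarith
  have hc : ∀ ζ ∈ ball (0 : ℂ) ρ, ‖Y.c ζ 0‖ ≤ 1 + M * K := by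
    intro ζ hζ
    have h1 := (e2 ζ hζ).1
    have h2 : ‖Y.c ζ 0‖ ≤ ‖Y.c ζ 0 - 1‖ + ‖(1 : ℂ)‖ := by
      simpa using norm_add_le (Y.c ζ 0 - 1) 1
    rw [norm_one] at h2
    linarith
  have hsd : ∀ ζ ∈ ball (0 : ℂ) ρ, ‖Y.sd ζ 0‖ ≤ 1 + M * ρ * K := by
    intro ζ hζ
    have h1 := (e1 ζ hζ).2
    have h2 : ‖Y.sd ζ 0‖ ≤ ‖Y.sd ζ 0 - 1‖ + ‖(1 : ℂ)‖ := by
      simpa using norm_add_le (Y.sd ζ 0 - 1) 1
    rw [norm_one] at h2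
    linarith
  have dneg : ∀ {f f' : ℂ → ℂ} {ζ : ℂ}, HasDerivAt f (f' (-ζ)) (-ζ) →
      HasDerivAt (fun ζ => f (-ζ)) (-f' (-ζ)) ζ := by
    intro f f' ζ h
    have h1 : HasDerivAt (fun ζ => f (-ζ)) (f' (-ζ) * -1) ζ := h.comp ζ (hasDerivAt_neg ζ)
    rwa [mul_neg_one] at h1
  have e3 : ∀ ζ ∈ ball (0 : ℂ) ρ, ‖Y.s ζ 0 + Y.s (-ζ) 0‖ ≤ ω * (ρ + M * ρ * K) * K := by
    have := ode_cmp (p := Y.Q) (g := fun ζ => (Y.Q ζ - Y.Q (-ζ)) * Y.s (-ζ) 0)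
      (y := fun ζ => Y.s ζ 0 + Y.s (-ζ) 0)
      (y' := fun ζ => Y.sd ζ 0 - Y.sd (-ζ) 0) (G := ω * (ρ + M * ρ * K)) hρ hM (by positivity)
      (fun ζ hζ => ?_) (fun ζ hζ => ?_) (by simp [Sys.s_self]) (by simp) hQ
      (fun ζ hζ => ?_)
    · intro ζ hζ
      rw [← hGK]
      exact (this ζ hζ).1
    · have h1 := (Sys.hasDerivAt_s (l := 0) hY hζ).add
        (dneg (f := fun w => Y.s w 0) (f' := fun w => Y.sd w 0)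
          (Sys.hasDerivAt_s (l := 0) hY (hneg ζ hζ)))
      convert! h1 using 1
    · have h1 := (Sys.hasDerivAt_sd (l := 0) hY hζ).sub
        (dneg (f := fun w => Y.sd w 0) (f' := fun w => -(Y.Q w * Y.s w 0))
          (Sys.hasDerivAt_sd (l := 0) hY (hneg ζ hζ)))
      convert! h1 using 1
      ring
    · rw [norm_mul]
      exact mul_le_mul (hQ2 ζ hζ) (hs _ (hneg ζ hζ)) (norm_nonneg _) hω
  have e4 : ∀ ζ ∈ ball (0 : ℂ) ρ, ‖Y.c ζ 0 - Y.c (-ζ) 0‖ ≤ ω * (1 + M * K) * K := by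
    have := ode_cmp (p := Y.Q) (g := fun ζ => -((Y.Q ζ - Y.Q (-ζ)) * Y.c (-ζ) 0))
      (y := fun ζ => Y.c ζ 0 - Y.c (-ζ) 0)
      (y' := fun ζ => Y.cd ζ 0 + Y.cd (-ζ) 0) (G := ω * (1 + M * K)) hρ hM (by positivity)
      (fun ζ hζ => ?_) (fun ζ hζ => ?_) (by simp) (by simp [Sys.cd_self]) hQ
      (fun ζ hζ => ?_)
    · intro ζ hζ
      rw [← hGK]
      exact (this ζ hζ).1
    · have h1 := (Sys.hasDerivAt_c (l := 0) hY hζ).sub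
        (dneg (f := fun w => Y.c w 0) (f' := fun w => Y.cd w 0)
          (Sys.hasDerivAt_c (l := 0) hY (hneg ζ hζ)))
      convert! h1 using 1
      ring
    · have h1 := (Sys.hasDerivAt_cd (l := 0) hY hζ).add
        (dneg (f := fun w => Y.cd w 0) (f' := fun w => -(Y.Q w * Y.c w 0))
          (Sys.hasDerivAt_cd (l := 0) hY (hneg ζ hζ)))
      convert! h1 using 1
      ring
    · rw [norm_neg, norm_mul]
      exact mul_le_mul (hQ2 ζ hζ) (hc _ (hneg ζ hζ)) (norm_nonneg _) hω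
  intro ζ hζ
  have n1 : 0 ≤ M * ρ * K := by positivity
  have n2 : 0 ≤ M * K := by positivity
  have n3 : 0 ≤ (ρ + M * ρ * K) * K := by positivity
  have n4 : 0 ≤ (1 + M * K) * K := by positivity
  have f1 := hs ζ hζ
  have f2 := hc ζ hζ
  have f3 := hsd ζ hζ
  have f4 := (e2 ζ hζ).2
  have f5 := e3 ζ hζ
  have f6 := e4 ζ hζ
  refine ⟨by linarith, by linarith, by linarith, by linarith, f5.trans ?_, f6.trans ?_⟩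
  · have h1 : (ρ + M * ρ * K) * K ≤
        1 + ρ + M * ρ * K + M * K + (ρ + M * ρ * K) * K + (1 + M * K) * K := by linarith
    calc ω * (ρ + M * ρ * K) * K = ((ρ + M * ρ * K) * K) * ω := by ring
      _ ≤ _ := mul_le_mul_of_nonneg_right h1 hω
  · have h1 : (1 + M * K) * K ≤
        1 + ρ + M * ρ * K + M * K + (ρ + M * ρ * K) * K + (1 + M * K) * K := by linarith
    calc ω * (1 + M * K) * K = ((1 + M * K) * K) * ω := by ring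
      _ ≤ _ := mul_le_mul_of_nonneg_right h1 hω

end Pool.Agent.MP_ae5b4e_an_MT
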