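import Pool.Agent.Lib.MP_ae5b4e_an_MT.Ref

/-! # MT: the step is well defined (unit inner scale, node at the origin) -/

noncomputable section

namespace Pool.Agent.MP_ae5b4e_an_MT

open Complex Set Filter Topology Metric
open Pool.Agent.MP_ae5b4e_an_NB2 (Sys)
open Pool.Agent.MP_ae5b4e_an_NB5 (Pn Pn')

/-- The step at the node `0` with old neighbour `- α`.

Proof. `E` from `refl_est`. `Pn Y 0 (-α) x = c x s (-α) + c (-α) s x`,
`Pn' Y 0 (-α) x = cd x s (-α) + c (-α) sd x` (all kernels with second argument `0`; `0 + x = x`).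
(1) `Pn α = c α (s (-α) + s α) - (c α - c (-α)) s α`, so `‖Pn α‖ ≤ 2 E² ω`; `C := 2 E²`.
(2) `Pn' α - 1 = cd α (s (-α) + s α) - (c α - c (-α)) sd α + (c α sd α - cd α s α - 1)` and the last
bracket is `0` (`Sys.wr_s`), so `‖Pn' α - 1‖ ≤ 2 E² ω`.
(3) `x ↦ Pn' x` has derivative `- Q x Pn x` (`hasDerivAt_cd`, `hasDerivAt_sd`), of norm `≤ 2 M E²` on
the convex ball `ball 0 (A + 2)`; so on `closedBall α r`, `r ≤ 1`: `‖Pn' x - Pn' α‖ ≤ 2 M E² r`.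
`r := min 1 (1 / (8 M E² + 1))`, `ω₀ := r / (8 E²)`: `2 E² ω ≤ r / 4`, `‖Pn' x - 1‖ ≤ 1/4 + 1/4`. -/
theorem step_rok {A M : ℝ} (hA : 0 ≤ A) (hM : 0 ≤ M) : ∃ r C ω₀ : ℝ, 0 < r ∧ r ≤ 1 ∧ 0 ≤ C ∧
    0 < ω₀ ∧ ∀ (Y : Sys) (ω : ℝ), 0 ≤ ω → ω ≤ ω₀ → Y.On (ball 0 (A + 2)) →
    (∀ ζ ∈ ball (0:ℂ) (A + 2), ‖Y.Q ζ‖ ≤ M) →
    (∀ ζ ∈ ball (0:ℂ) (A + 2), ‖Y.Q ζ - Y.Q (-ζ)‖ ≤ ω) → ∀ α : ℂ, ‖α‖ ≤ A →
      (∀ x ∈ closedBall α r, HasDerivAt (fun x => Pn Y 0 (-α) x) (Pn' Y 0 (-α) x) x ∧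
        ‖Pn' Y 0 (-α) x - 1‖ ≤ 1 / 2) ∧ ‖Pn Y 0 (-α) α‖ ≤ C * ω ∧ C * ω < r / 2 := by
  obtain ⟨E, hE1, hE⟩ := refl_est hA hM
  have hE0 : 0 < E := lt_of_lt_of_le one_pos hE1
  set r : ℝ := min 1 (1 / (8 * M * E ^ 2 + 1)) with hr
  have hden : 0 < 8 * M * E ^ 2 + 1 := by positivity
  have hr0 : 0 < r := lt_min one_pos (by positivity)
  have hr1 : r ≤ 1 := min_le_left _ _
  have hr2 : r * (8 * M * E ^ 2 + 1) ≤ 1 := by
    have := min_le_right 1 (1 / (8 * M * E ^ 2 + 1))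
    calc r * (8 * M * E ^ 2 + 1) ≤ 1 / (8 * M * E ^ 2 + 1) * (8 * M * E ^ 2 + 1) :=
          mul_le_mul_of_nonneg_right this hden.le
      _ = 1 := by field_simp
  refine ⟨r, 2 * E ^ 2, r / (8 * E ^ 2), hr0, hr1, by positivity, by positivity, ?_⟩
  intro Y ω hω hωle hon hQ hQr α hα
  have hωE : 2 * E ^ 2 * ω ≤ r / 4 := by
    calc 2 * E ^ 2 * ω ≤ 2 * E ^ 2 * (r / (8 * E ^ 2)) :=
          mul_le_mul_of_nonneg_left hωle (by positivity)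
      _ = r / 4 := by field_simp; ring
  have hαB : α ∈ ball (0 : ℂ) (A + 2) := by
    rw [mem_ball_zero_iff]; linarith
  have hnB : -α ∈ ball (0 : ℂ) (A + 2) := by
    rw [mem_ball_zero_iff, norm_neg]; linarith
  have hsub : closedBall α r ⊆ ball (0 : ℂ) (A + 2) := by
    intro x hx
    rw [mem_closedBall, dist_eq_norm] at hx
    rw [mem_ball_zero_iff]
    have h1 : x = (x - α) + α := by ring
    rw [h1]
    have := norm_add_le (x - α) α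
    linarith
  have h0B : (0 : ℂ) ∈ ball (0 : ℂ) (A + 2) := by
    rw [mem_ball_zero_iff, norm_zero]; linarith
  obtain ⟨a1, a2, a3, a4, a5, a6⟩ := hE Y ω hω hon hQ hQr α hαB
  obtain ⟨b1, b2, -, -, -, -⟩ := hE Y ω hω hon hQ hQr (-α) hnB
  have eP : ∀ x, Pn Y 0 (-α) x = Y.c x 0 * Y.s (-α) 0 + Y.c (-α) 0 * Y.s x 0 := by
    intro x; simp [Pn]
  have eP' : ∀ x, Pn' Y 0 (-α) x = Y.cd x 0 * Y.s (-α) 0 + Y.c (-α) 0 * Y.sd x 0 := by
    intro x; simp [Pn']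
  have hP1 : ‖Pn' Y 0 (-α) α - 1‖ ≤ 2 * E ^ 2 * ω := by
    have hw := Sys.wr_s hon h0B hαB
    have e : Pn' Y 0 (-α) α - 1 = Y.cd α 0 * (Y.s α 0 + Y.s (-α) 0)
        - (Y.c α 0 - Y.c (-α) 0) * Y.sd α 0 := by
      rw [eP']
      linear_combination hw
    rw [e]
    have h1 : ‖Y.cd α 0 * (Y.s α 0 + Y.s (-α) 0)‖ ≤ E * (E * ω) := by
      rw [norm_mul]
      exact mul_le_mul a4 a5 (norm_nonneg _) hE0.le
    have h2 : ‖(Y.c α 0 - Y.c (-α) 0) * Y.sd α 0‖ ≤ (E * ω) * E := by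
      rw [norm_mul]
      exact mul_le_mul a6 a3 (norm_nonneg _) (by positivity)
    have h3 := norm_sub_le (Y.cd α 0 * (Y.s α 0 + Y.s (-α) 0))
      ((Y.c α 0 - Y.c (-α) 0) * Y.sd α 0)
    nlinarith
  have hP0 : ‖Pn Y 0 (-α) α‖ ≤ 2 * E ^ 2 * ω := by
    have e : Pn Y 0 (-α) α = Y.c α 0 * (Y.s α 0 + Y.s (-α) 0)
        - (Y.c α 0 - Y.c (-α) 0) * Y.s α 0 := by
      rw [eP]
      ring
    rw [e]
    have h1 : ‖Y.c α 0 * (Y.s α 0 + Y.s (-α) 0)‖ ≤ E * (E * ω) := by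
      rw [norm_mul]
      exact mul_le_mul a2 a5 (norm_nonneg _) hE0.le
    have h2 : ‖(Y.c α 0 - Y.c (-α) 0) * Y.s α 0‖ ≤ (E * ω) * E := by
      rw [norm_mul]
      exact mul_le_mul a6 a1 (norm_nonneg _) (by positivity)
    have h3 := norm_sub_le (Y.c α 0 * (Y.s α 0 + Y.s (-α) 0))
      ((Y.c α 0 - Y.c (-α) 0) * Y.s α 0)
    nlinarith
  refine ⟨fun x hx => ⟨?_, ?_⟩, hP0, by linarith⟩
  · have e : (fun x => Pn Y 0 (-α) x) =
        fun x => Y.c x 0 * Y.s (-α) 0 + Y.c (-α) 0 * Y.s x 0 := funext eP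
    rw [e, eP']
    exact ((Sys.hasDerivAt_c hon (hsub hx)).mul_const _).add
      ((Sys.hasDerivAt_s hon (hsub hx)).const_mul _)
  · have hd : ∀ y ∈ closedBall α r, HasDerivWithinAt (fun x => Pn' Y 0 (-α) x)
        (-(Y.Q y * Y.c y 0) * Y.s (-α) 0 + Y.c (-α) 0 * -(Y.Q y * Y.s y 0))
        (closedBall α r) y := by
      intro y hy
      have e : (fun x => Pn' Y 0 (-α) x) =
          fun x => Y.cd x 0 * Y.s (-α) 0 + Y.c (-α) 0 * Y.sd x 0 := funext eP'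
      rw [e]
      exact (((Sys.hasDerivAt_cd hon (hsub hy)).mul_const _).add
        ((Sys.hasDerivAt_sd hon (hsub hy)).const_mul _)).hasDerivWithinAt
    have hb : ∀ y ∈ closedBall α r,
        ‖-(Y.Q y * Y.c y 0) * Y.s (-α) 0 + Y.c (-α) 0 * -(Y.Q y * Y.s y 0)‖ ≤
          2 * M * E ^ 2 := by
      intro y hy
      obtain ⟨c1, c2, -, -, -, -⟩ := hE Y ω hω hon hQ hQr y (hsub hy)
      have hq := hQ y (hsub hy)
      have h1 : ‖-(Y.Q y * Y.c y 0) * Y.s (-α) 0‖ ≤ (M * E) * E := by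
        rw [norm_mul, norm_neg, norm_mul]
        exact mul_le_mul (mul_le_mul hq c2 (norm_nonneg _) hM) b1 (norm_nonneg _)
          (by positivity)
      have h2 : ‖Y.c (-α) 0 * -(Y.Q y * Y.s y 0)‖ ≤ E * (M * E) := by
        rw [norm_mul, norm_neg, norm_mul]
        exact mul_le_mul b2 (mul_le_mul hq c1 (norm_nonneg _) hM) (by positivity) hE0.le
      have h3 := norm_add_le (-(Y.Q y * Y.c y 0) * Y.s (-α) 0)
        (Y.c (-α) 0 * -(Y.Q y * Y.s y 0))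
      nlinarith
    have h4 := (convex_closedBall α r).norm_image_sub_le_of_norm_hasDerivWithin_le hd hb
      (mem_closedBall_self hr0.le) hx
    have h5 : ‖x - α‖ ≤ r := by
      rw [mem_closedBall, dist_eq_norm] at hx
      exact hx
    have h6 : 2 * M * E ^ 2 * ‖x - α‖ ≤ 1 / 4 := by
      have h7 : 2 * M * E ^ 2 * ‖x - α‖ ≤ 2 * M * E ^ 2 * r :=
        mul_le_mul_of_nonneg_left h5 (by positivity)
      nlinarith
    have h8 : Pn' Y 0 (-α) x - 1 = (Pn' Y 0 (-α) x - Pn' Y 0 (-α) α)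
        + (Pn' Y 0 (-α) α - 1) := by ring
    rw [h8]
    have h9 := norm_add_le (Pn' Y 0 (-α) x - Pn' Y 0 (-α) α) (Pn' Y 0 (-α) α - 1)
    have h10 : ‖Pn' Y 0 (-α) x - Pn' Y 0 (-α) α‖ ≤ 2 * M * E ^ 2 * ‖x - α‖ := h4
    linarith

end Pool.Agent.MP_ae5b4e_an_MT
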