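import Pool.Agent.Lib.MP_ae5b4e_an_MT.App
import Pool.Agent.Lib.MP_ae5b4e_an_MT.Stp

/-! # MT: the transport theorem -/

noncomputable section

namespace Pool.Agent.MP_ae5b4e_an_MT

open Complex Set Filter Topology Metric
open Pool.Agent.MP_ae5b4e_an_NB2 (Sys)

/-- The chains of the system `Z` which start from the states of `L` at the points of `E` follow the
function `Λ` up to the time `s₀`. -/
structure Run (Z : Sys) (ε : ℝ) (L Λ : ℂ × ℂ → ℂ) (E : Set (ℂ × ℂ)) (s₀ κ d R A r C : ℝ)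
    (ξ : ℂ × ℂ → ℂ) : Prop where
  stp : Stp Z ε d R A r C ξ
  an : ∀ p ∈ E, AnalyticAt ℂ L p ∧ AnalyticAt ℂ L (Sh ε p)
  chain : ∀ p ∈ E, stt L ε (Sh ε p) = Ph ε ξ (stt L ε p)
  mem : ∀ p ∈ E, ∀ j : ℕ, j * ε ≤ s₀ → (Ph ε ξ)^[j] (stt L ε p) ∈ GG d R A
  close : ∀ p ∈ E, ∀ j : ℕ, j * ε ≤ s₀ →
    ‖(Ph ε ξ)^[j] (stt L ε p) - stt Λ ε (Sh (j * ε) p)‖ ≤ κ

variable {U : Ultrafilter ℕ} {Z : ℕ → Sys} {ε : ℕ → ℝ} {D : ℕ → Set (ℂ × ℂ)}
  {L : ℕ → ℂ × ℂ → ℂ} {DI : Set (ℂ × ℂ)} {LI : ℂ × ℂ → ℂ}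

private theorem run_sh_cont : Continuous (fun x : (ℂ × ℂ) × ℝ => Sh x.2 x.1) := by
  unfold Sh
  fun_prop

private theorem run_dist {ε : ℝ} (hε : 0 ≤ ε) (p : ℂ × ℂ) : dist (Sh ε p) p = ε * ‖p.2‖ := by
  rw [dist_eq_norm, Prod.norm_def]
  simp [Sh, abs_of_nonneg hε]
  positivity

private theorem run_Ph {Λ : ℂ × ℂ → ℂ} {ε : ℝ} (hε : 0 < ε) (ξ : ℂ × ℂ → ℂ) (q : ℂ × ℂ) :
    Ph ε ξ (stt Λ ε q) - stt Λ ε (Sh ε q) = (0, ξ (stt Λ ε q) - dq ε Λ (Sh ε q)) := by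
  have hε' : (ε : ℂ) ≠ 0 := by exact_mod_cast hε.ne'
  refine Prod.ext ?_ ?_
  · simp only [Ph, stt, Prod.fst_sub]
    field_simp
    ring
  · simp only [Ph, stt, Prod.snd_sub, dq]

private theorem run_mem {d R A δ : ℝ} {x y : ℂ × ℂ} (hδ : 0 < δ)
    (hx : x ∈ GG (d + δ) (R - δ) (A - δ)) (hxy : ‖y - x‖ ≤ δ / 8) : y ∈ GG d R A := by
  obtain ⟨h1, h2, h3⟩ := hx
  have e1 : ‖y.1 - x.1‖ ≤ δ / 8 := (norm_fst_le (y - x)).trans hxy
  have e2 : ‖y.2 - x.2‖ ≤ δ / 8 := (norm_snd_le (y - x)).trans hxy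
  refine ⟨?_, ?_, ?_⟩
  · have h4 := (abs_im_le_norm (y.1 - x.1)).trans e1
    rw [sub_im, abs_le] at h4
    linarith [h4.2]
  · have h4 : ‖y.1‖ ≤ ‖x.1‖ + ‖y.1 - x.1‖ := by
      have := norm_add_le x.1 (y.1 - x.1)
      rwa [add_sub_cancel] at this
    linarith
  · have h4 : ‖y.2‖ ≤ ‖x.2‖ + ‖y.2 - x.2‖ := by
      have := norm_add_le x.2 (y.2 - x.2)
      rwa [add_sub_cancel] at this
    linarith

/-- TRANSPORT. `E` compact, connected, in `DI`; `Λ` is analytic with negative imaginary part on a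
neighbourhood `Ω` of the points `Sh s p`, `p ∈ E`, `0 ≤ s ≤ s₀`, and equal to the limit label near `E`.
Then the chains from `E` follow `Λ`.

Proof. `E` empty: trivial (any box; `exists_stp`). `W := {Sh s p | p ∈ E, 0 ≤ s ≤ s₀}` is compact and
preconnected (image of `E ×ˢ Icc 0 s₀`). `W ⊆ Ω`: `ρ₀` with `cthickening ρ₀ W ⊆ Ω`; `exists_box` for the
compact set `cthickening ρ₀ W`: `d, R, A, δ` with `δ ≤ 1`; `r, C` and `ξ n` from `exists_stp` (choice).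
Near `E` we have `Λ = LI`, so `stt Λ ε p = stt LI ε p` for `p ∈ E` and `ε` small (`Λ = LI` on a
thickening of the compact `E`); so `LS.chain` applies with `K = E`. Let `κ > 0`, wlog `κ ≤ δ / 8`;
choose `κ' > 0` with `κ' (1 + s₀) exp (L₀ s₀) ≤ κ`, `L₀ := max 1 (4 C / δ)`.
For almost all `n`: `LS.near` (`κ'`, `K = E`), `LS.app` (`κ'`). `gron` with `x j := stt Λ ε (Sh (j ε) p)`,
`y j := (Ph ε ξ)^[j] (stt L ε p)`, `ρ = δ / 8`, `J` = the number `j`: `Ph (x j) - x (j + 1)` has first component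
`0` (`Λ p + ε dq Λ p = Λ (Sh ε p)`) and second component the defect at `Sh (j ε) p ∈ W`; `hΦ` is
`Stp.lip'`; `y (j + 1) = Ph (y j)` always (`Function.iterate_succ_apply'`). `mem`: `‖y j - x j‖ ≤ κ ≤ δ / 8`
and `x j ∈ GG (d + δ) (R - δ) (A - δ)`. -/
theorem LS.run (h : LS U Z ε D L DI LI) {E : Set (ℂ × ℂ)} (hE : IsCompact E)
    (hEc : IsPreconnected E) (hED : E ⊆ DI) {s₀ : ℝ} (hs : 0 ≤ s₀) {Ω : Set (ℂ × ℂ)}
    (hΩ : IsOpen Ω) {Λ : ℂ × ℂ → ℂ} (hΛ : AnalyticOnNhd ℂ Λ Ω) (hm : ∀ p ∈ Ω, (Λ p).im < 0)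
    (hEΩ : ∀ p ∈ E, ∀ s ∈ Icc 0 s₀, Sh s p ∈ Ω) (heq : ∀ p ∈ E, Λ =ᶠ[𝓝 p] LI) :
    ∃ d R A r C : ℝ, 0 < d ∧ 0 < r ∧ 0 ≤ C ∧ ∀ κ : ℝ, 0 < κ → ∀ᶠ n in (U : Filter ℕ), ∃ ξ,
      Run (Z n) (ε n) (L n) Λ E s₀ κ d R A r C ξ := by
  classical
  rcases E.eq_empty_or_nonempty with rfl | ⟨p₀, hp₀⟩
  · obtain ⟨r, C, hr, hC, hst⟩ := h.exists_stp (d := 1) one_pos 0 0
    refine ⟨1, 0, 0, r, C, one_pos, hr, hC, fun κ _ => ?_⟩
    filter_upwards [hst] with n hn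
    obtain ⟨ξ, hξ⟩ := hn
    exact ⟨ξ, hξ, fun p hp => hp.elim, fun p hp => hp.elim, fun p hp => hp.elim,
      fun p hp => hp.elim⟩
  set W : Set (ℂ × ℂ) := (fun x : (ℂ × ℂ) × ℝ => Sh x.2 x.1) '' (E ×ˢ Icc 0 s₀) with hWdef
  have hWmem : ∀ p ∈ E, ∀ s : ℝ, 0 ≤ s → s ≤ s₀ → Sh s p ∈ W := fun p hp s h1 h2 =>
    ⟨(p, s), ⟨hp, h1, h2⟩, rfl⟩
  have hW : IsCompact W := (hE.prod isCompact_Icc).image run_sh_cont
  have hWc : IsPreconnected W := (hEc.prod isPreconnected_Icc).image _ run_sh_cont.continuousOn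
  have hWΩ : W ⊆ Ω := by
    rintro _ ⟨⟨p, s⟩, ⟨hp, hs1⟩, rfl⟩
    exact hEΩ p hp s hs1
  have hEW : E ⊆ W := fun p hp => by
    have h1 := hWmem p hp 0 le_rfl hs
    rwa [Sh_zero] at h1
  obtain ⟨ρ₀, hρ₀, hρΩ⟩ := hW.exists_cthickening_subset_open hΩ hWΩ
  have hK' : IsCompact (cthickening ρ₀ W) := hW.cthickening
  obtain ⟨d, R, A, δ, C₁, hd, hδ, -, hbox⟩ :=
    exists_box h.ε_pos h.ε_lim hΩ hΛ hm hK' hρΩ
  obtain ⟨r, C, hr, hC, hst⟩ := h.exists_stp hd R A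
  set ξ : ℕ → ℂ × ℂ → ℂ := fun n =>
    if hn : ∃ ξ, Stp (Z n) (ε n) d R A r C ξ then hn.choose else fun _ => 0 with hξdef
  have hξ : ∀ᶠ n in (U : Filter ℕ), Stp (Z n) (ε n) d R A r C (ξ n) := by
    filter_upwards [hst] with n hn
    have e : ξ n = hn.choose := by
      rw [hξdef]
      exact dif_pos hn
    rw [e]
    exact hn.choose_spec
  have hG' : ∀ᶠ n in (U : Filter ℕ), ∀ p ∈ cthickening ρ₀ W,
      stt Λ (ε n) p ∈ GG (d + δ) (R - δ) (A - δ) := by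
    filter_upwards [hbox] with n hn p hp
    exact (hn p hp).1
  have hWK : W ⊆ cthickening ρ₀ W := self_subset_cthickening W
  -- near `E` the function is the limit label
  have hopen : IsOpen {p : ℂ × ℂ | ∀ᶠ q in 𝓝 p, Λ q = LI q} := isOpen_setOfPred_eventually_nhds
  obtain ⟨ρ, hρ, hρE⟩ := hE.exists_thickening_subset_open hopen (fun p hp => heq p hp)
  obtain ⟨B, hB⟩ := hE.isBounded.exists_norm_le
  have hB0 : 0 ≤ B := (norm_nonneg _).trans (hB p₀ hp₀)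
  have hsteq : ∀ᶠ n in (U : Filter ℕ), ∀ p ∈ E, stt Λ (ε n) p = stt LI (ε n) p := by
    have h1 : ∀ᶠ n in (U : Filter ℕ), ε n < ρ / (B + 1) :=
      h.ε_lim.eventually (gt_mem_nhds (by positivity))
    filter_upwards [h1] with n hn p hp
    rw [lt_div_iff₀ (by positivity)] at hn
    have e1 : Λ p = LI p := (heq p hp).self_of_nhds
    have e2 : Λ (Sh (ε n) p) = LI (Sh (ε n) p) := by
      have h2 : Sh (ε n) p ∈ thickening ρ E := by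
        rw [mem_thickening_iff]
        refine ⟨p, hp, ?_⟩
        rw [run_dist (h.ε_pos n).le]
        have h3 : ‖p.2‖ ≤ B := (norm_snd_le p).trans (hB p hp)
        nlinarith [mul_le_mul_of_nonneg_left h3 (h.ε_pos n).le, h.ε_pos n]
      exact (hρE h2).self_of_nhds
    unfold stt
    rw [e1, e2]
  have hGE : ∀ᶠ n in (U : Filter ℕ), ∀ p ∈ E,
      stt LI (ε n) p ∈ GG (d + δ) (R - δ) (A - δ) := by
    filter_upwards [hG', hsteq] with n h1 h2 p hp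
    rw [← h2 p hp]
    exact h1 p (hWK (hEW hp))
  have hchain := h.chain hE hED hδ hr hGE
  refine ⟨d, R, A, r, C, hd, hr, hC, fun κ hκ => ?_⟩
  set L₀ : ℝ := max 1 (4 * C / δ) with hL₀
  have hL₀0 : 0 ≤ L₀ := zero_le_one.trans (le_max_left _ _)
  have hκ₂ : 0 < min κ (δ / 8) := lt_min hκ (by positivity)
  have hfac : 0 < (1 + s₀) * Real.exp (L₀ * s₀) := by positivity
  set κ' : ℝ := min κ (δ / 8) / ((1 + s₀) * Real.exp (L₀ * s₀)) with hκ'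
  have hκ'0 : 0 < κ' := div_pos hκ₂ hfac
  have hprod : κ' * (1 + s₀) * Real.exp (L₀ * s₀) = min κ (δ / 8) := by
    rw [mul_assoc, hκ']
    exact div_mul_cancel₀ _ hfac.ne'
  have happ := h.app hΩ hΛ hm hW hWc (hEW hp₀) (hED hp₀) (heq p₀ hp₀) hδ hr hC hρ₀ hρΩ hξ hG'
    hκ'0
  filter_upwards [hξ, h.near hE hED hκ'0, happ, hchain, hG', hsteq] with n h1 h2 h3 h4 h5 h6
  have hε := h.ε_pos n
  have hmem : ∀ p ∈ E, ∀ i : ℕ, (i : ℝ) * ε n ≤ s₀ → Sh (i * ε n) p ∈ W := fun p hp i hi =>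
    hWmem p hp _ (by positivity) hi
  have hcl : ∀ p ∈ E, ∀ j : ℕ, (j : ℝ) * ε n ≤ s₀ →
      ‖(Ph (ε n) (ξ n))^[j] (stt (L n) (ε n) p) - stt Λ (ε n) (Sh (j * ε n) p)‖ ≤
        min κ (δ / 8) := by
    intro p hp j hj
    have hij : ∀ i : ℕ, i < j → (i : ℝ) * ε n ≤ s₀ := by
      intro i hi
      refine le_trans (mul_le_mul_of_nonneg_right ?_ hε.le) hj
      exact_mod_cast hi.le
    have key := gron (Φ := Ph (ε n) (ξ n)) (x := fun i : ℕ => stt Λ (ε n) (Sh (i * ε n) p))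
      (y := fun i : ℕ => (Ph (ε n) (ξ n))^[i] (stt (L n) (ε n) p)) (ρ := δ / 8) (J := j)
      hε hL₀0 hκ'0.le hj ?_ ?_ ?_ ?_ ?_ j le_rfl
    · rw [hprod] at key
      exact key
    · intro i hi
      have e1 : Sh (((i + 1 : ℕ) : ℝ) * ε n) p = Sh (ε n) (Sh (i * ε n) p) := by
        rw [Sh_Sh]
        congr 1
        push_cast
        ring
      rw [e1, run_Ph hε, Prod.norm_def]
      simp only [norm_zero]
      exact max_le (by positivity) (h3 _ (hmem p hp i (hij i hi)))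
    · intro i hi u hu
      refine h1.lip' hε hC hδ (h5 _ (hWK (hmem p hp i (hij i hi)))) ?_
      refine lt_of_le_of_lt hu ?_
      linarith
    · rw [Function.iterate_zero, id_eq, Nat.cast_zero, zero_mul, Sh_zero, h6 p hp]
      exact (h2 p hp).2.2.2.1
    · intro i _ _
      exact Function.iterate_succ_apply' _ _ _
    · rw [hprod]
      exact min_le_right _ _
  refine ⟨ξ n, h1, fun p hp => ⟨h.an n p (h2 p hp).1, h.an n _ (h2 p hp).2.1⟩,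
    fun p hp => (h4 p hp).2 C (ξ n) h1, fun p hp j hj => ?_, fun p hp j hj => ?_⟩
  · exact run_mem hδ (h5 _ (hWK (hmem p hp j hj))) ((hcl p hp j hj).trans (min_le_right _ _))
  · exact (hcl p hp j hj).trans (min_le_left _ _)

end Pool.Agent.MP_ae5b4e_an_MT
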