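import Pool.Agent.Lib.MP_ae5b4e_an_MT.SatA
import Pool.Agent.Lib.MP_ae5b4e_an_LL.Rad

/-! # MT, SAT: the Hartogs extension -/

noncomputable section

namespace Pool.Agent.MP_ae5b4e_an_MT

open Complex Set Filter Topology Metric
open Pool.Agent.Lib.MP_ae5b4e_an_LL

private theorem SatB_mono {R R' d d' X X' : ℝ} (hR : R ≤ R') (hd : d' ≤ d) (hX : X ≤ X') :
    Rc R d X ⊆ Rc R' d' X' :=
  fun _ hz => ⟨hz.1.trans_le hR, hd.trans_lt hz.2.1, hz.2.2.trans_le hX⟩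

/-- an extension by a function that agrees with `Φ` on a thin tube -/
private theorem SatB_ext {W : Set ℂ} (hW : IsOpen W) {p₀ : ℂ} {Ω : Set ℂ} {Φ G : ℂ × ℂ → ℂ}
    {s a : ℝ} (ha : 0 < a) (hG : AnalyticOnNhd ℂ G (W ×ˢ ball p₀ s))
    (hG' : MapsTo G (W ×ˢ ball p₀ s) Ω) (he : ∀ p ∈ W ×ˢ ball p₀ a, G p = Φ p) {t : ℂ}
    (ht : t ∈ W) : ExtH Φ p₀ Ω s t := by
  obtain ⟨ε, hε, hb⟩ := Metric.isOpen_iff.1 hW t ht
  have hsub : ball t ε ×ˢ ball p₀ s ⊆ W ×ˢ ball p₀ s := prod_mono hb le_rfl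
  refine ⟨ε, hε, G, hG.mono hsub, hG'.mono_left hsub, fun t' ht' => ?_⟩
  have hmem : W ×ˢ ball p₀ a ∈ 𝓝 (t', p₀) :=
    (hW.prod isOpen_ball).mem_nhds ⟨hb ht', mem_ball_self ha⟩
  filter_upwards [hmem] with p hp
  exact he p hp

/-- the choice of the radius -/
private theorem SatB_exists_e {η θ : ℝ} (hη : 0 < η) (hη1 : η ≤ 1) (hθ : 0 < θ) (hθ1 : θ < 1) :
    ∃ e : ℝ, 0 < e ∧ e ≤ 1 ∧
      Real.log (2 * e) < (1 - θ) * Real.log (η * e) + θ * Real.log 2 := by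
  have hl : Real.log η - Real.log 2 < 0 := by
    have h1 : Real.log η ≤ 0 := Real.log_nonpos hη.le hη1
    have h2 : 0 < Real.log 2 := Real.log_pos (by norm_num)
    linarith
  refine ⟨Real.exp ((1 - θ) * (Real.log η - Real.log 2) / θ - 1), Real.exp_pos _, ?_, ?_⟩
  · rw [Real.exp_le_one_iff]
    have h1 : (1 - θ) * (Real.log η - Real.log 2) / θ ≤ 0 := by
      apply div_nonpos_of_nonpos_of_nonneg _ hθ.le
      exact mul_nonpos_of_nonneg_of_nonpos (by linarith) hl.le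
    linarith
  · rw [Real.log_mul two_ne_zero (Real.exp_pos _).ne', Real.log_mul hη.ne' (Real.exp_pos _).ne',
      Real.log_exp]
    have h1 : θ * ((1 - θ) * (Real.log η - Real.log 2) / θ - 1) =
        (1 - θ) * (Real.log η - Real.log 2) - θ := by
      field_simp
    nlinarith

/-- HARTOGS. A function on a thin tube about the line `{p₀}` (`M`), which extends to a thick tube in the
deep part (`L'`), extends to a tube which is thicker than `2 e`.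

Proof. `rect_two` for `d, y, X + σ / 2` (its `X`), with `σ / 4` (its `σ`): `R, θ`. `R₁ := R`. `e ∈ (0, 1]` so
small that `2 e < (η e) ^ (1 - θ) 2 ^ θ` (logarithm: `(1 - θ) log η + θ log 2 - log 2 > θ log e`).
`V := Rc R d (X + σ)`, `f t := - log (hrad M p₀ Ω 2 t)`. Every `t ∈ V` has `ExtH M p₀ Ω (η e) t` (`G = M`), so
`hrad ≥ η e` (`le_hrad`, `η e ≤ 2`), `f ≤ A := - log (η e)`; if `X < - Im t`: `ExtH M p₀ Ω 2 t` (`G = L'`,
`L' = M` near `(t', p₀)`), `f ≤ - log 2 =: - B`. `subH_neg_log_hrad`: `SubH f V`. So for `|Re t| < 1`,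
`y < - Im t < X + σ`: `2 e < hrad t` (if `- Im t > X` then `hrad ≥ 2`), `ExtH M p₀ Ω (2 e) t` (`extH_of_lt`).
`exists_hext`: `F` on `hdom`, which contains `(t, γ)`, `‖γ - p₀‖ < 2 e`. `F = M` near `(t, p₀)`; on the convex
sets `Rc 1 y (X + σ) ×ˢ ball p₀ (η e)` and `Rc 1 X (X + σ) ×ˢ ball p₀ (2 e)` the identity theorem gives
`F = M` and `F = L'`. -/
theorem hart_ext {d y X σ η : ℝ} (hdy : d < y) (hyX : y < X) (hσ : 0 < σ) (hη : 0 < η)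
    (hη1 : η ≤ 1) : ∃ R₁ e : ℝ, 1 < R₁ ∧ 0 < e ∧ e ≤ 1 ∧ ∀ (p₀ : ℂ) (Ω : Set ℂ)
      (M L' : ℂ × ℂ → ℂ), AnalyticOnNhd ℂ M (Rc R₁ d (X + σ) ×ˢ ball p₀ (η * e)) →
      MapsTo M (Rc R₁ d (X + σ) ×ˢ ball p₀ (η * e)) Ω →
      AnalyticOnNhd ℂ L' (Rc R₁ X (X + σ) ×ˢ ball p₀ 2) →
      MapsTo L' (Rc R₁ X (X + σ) ×ˢ ball p₀ 2) Ω →
      (∀ p ∈ Rc R₁ X (X + σ) ×ˢ ball p₀ (η * e), M p = L' p) →
      ∃ F : ℂ × ℂ → ℂ, AnalyticOnNhd ℂ F (Rc 1 y (X + σ) ×ˢ ball p₀ (2 * e)) ∧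
        MapsTo F (Rc 1 y (X + σ) ×ˢ ball p₀ (2 * e)) Ω ∧
        (∀ p ∈ Rc 1 y (X + σ) ×ˢ ball p₀ (η * e), F p = M p) ∧
        ∀ p ∈ Rc 1 X (X + σ) ×ˢ ball p₀ (2 * e), F p = L' p := by
  obtain ⟨R, θ, hR, hθ, hθ1, htwo⟩ := rect_two (d := d) (y := y) (X := X + σ / 2) hdy
    (by linarith)
  obtain ⟨e, he, he1, hlog⟩ := SatB_exists_e hη hη1 hθ hθ1
  refine ⟨R, e, hR, he, he1, ?_⟩
  intro p₀ Ω M L' hM hM' hL hL' hML
  have hηe : 0 < η * e := mul_pos hη he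
  have hηe1 : η * e ≤ 1 := mul_le_one₀ hη1 he.le he1
  have hηe2 : η * e ≤ 2 * e := mul_le_mul_of_nonneg_right (by linarith) he.le
  -- extensions
  have hext1 : ∀ t ∈ Rc R d (X + σ), ExtH M p₀ Ω (η * e) t := fun t ht =>
    SatB_ext (isOpen_Rc R d (X + σ)) hηe hM hM' (fun _ _ => rfl) ht
  have hext2 : ∀ t ∈ Rc R X (X + σ), ExtH M p₀ Ω 2 t := fun t ht =>
    SatB_ext (isOpen_Rc R X (X + σ)) hηe hL hL' (fun p hp => (hML p hp).symm) ht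
  have hV : ∀ t ∈ Rc R d (X + σ / 2 + σ / 4), t ∈ Rc R d (X + σ) := fun t ht =>
    SatB_mono le_rfl le_rfl (by linarith) ht
  have hsub : SubH (fun t => -Real.log (hrad M p₀ Ω 2 t)) (Rc R d (X + σ / 2 + σ / 4)) :=
    subH_neg_log_hrad (isOpen_Rc _ _ _) two_pos fun t ht => ⟨η * e, hηe, hext1 t (hV t ht)⟩
  have hAB : 0 ≤ -Real.log (η * e) + Real.log 2 := by
    have h1 : Real.log (η * e) ≤ 0 := Real.log_nonpos hηe.le hηe1
    have h2 : 0 < Real.log 2 := Real.log_pos (by norm_num)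
    linarith
  have hkey := htwo (σ / 4) (fun t => -Real.log (hrad M p₀ Ω 2 t)) (-Real.log (η * e))
    (Real.log 2) (by linarith) hAB hsub
    (fun t ht => by
      have h1 : η * e ≤ hrad M p₀ Ω 2 t := le_hrad hηe (by linarith) (hext1 t (hV t ht))
      have h2 := Real.log_le_log hηe h1
      exact neg_le_neg h2)
    (fun t ht hX => by
      have ht' : t ∈ Rc R X (X + σ) := ⟨ht.1, by linarith, by linarith [ht.2.2]⟩
      have h1 : 2 ≤ hrad M p₀ Ω 2 t := le_hrad two_pos le_rfl (hext2 t ht')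
      have h2 := Real.log_le_log two_pos h1
      exact neg_le_neg h2)
  have hext : ∀ t ∈ Rc 1 y (X + σ), ExtH M p₀ Ω (2 * e) t := by
    intro t ht
    rcases lt_or_ge X (-t.im) with h | h
    · have ht' : t ∈ Rc R X (X + σ) := ⟨ht.1.trans hR, h, ht.2.2⟩
      exact (hext2 t ht').mono (by linarith)
    · have ht' : t ∈ Rc R d (X + σ / 2 + σ / 4) :=
        ⟨ht.1.trans hR, hdy.trans ht.2.1, by linarith⟩
      have h1 := hkey t ht' ht.1.le ht.2.1.le (by linarith)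
      have h2 : Real.log (2 * e) < Real.log (hrad M p₀ Ω 2 t) := by linarith
      have h3 : 0 < hrad M p₀ Ω 2 t := hrad_pos two_pos ⟨η * e, hηe, hext1 t (hV t ht')⟩
      exact extH_of_lt (Y := 2) (by positivity)
        ((Real.log_lt_log_iff (by positivity) h3).1 h2)
  obtain ⟨F, hF, hFΩ, hFM⟩ := exists_hext M p₀ Ω
  have hdom : Rc 1 y (X + σ) ×ˢ ball p₀ (2 * e) ⊆ hdom M p₀ Ω := fun p hp =>
    ⟨2 * e, hp.2, hext p.1 hp.1⟩
  have h2e : 0 < 2 * e := by positivity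
  have hnear : ∀ t ∈ Rc 1 y (X + σ), ∀ᶠ p in 𝓝 (t, p₀), F p = M p := fun t ht =>
    hFM t (hdom ⟨ht, mem_ball_self h2e⟩)
  refine ⟨F, hF.mono hdom, hFΩ.mono_left hdom, ?_, ?_⟩
  · intro p hp
    have hs1 : Rc 1 y (X + σ) ×ˢ ball p₀ (η * e) ⊆ Rc 1 y (X + σ) ×ˢ ball p₀ (2 * e) :=
      prod_mono le_rfl (ball_subset_ball hηe2)
    have hs2 : Rc 1 y (X + σ) ×ˢ ball p₀ (η * e) ⊆ Rc R d (X + σ) ×ˢ ball p₀ (η * e) :=
      prod_mono (SatB_mono hR.le hdy.le le_rfl) le_rfl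
    have hc : IsPreconnected (Rc 1 y (X + σ) ×ˢ ball p₀ (η * e)) :=
      ((convex_Rc _ _ _).prod (convex_ball _ _)).isPreconnected
    exact (hF.mono (hs1.trans hdom)).eqOn_of_preconnected_of_eventuallyEq (hM.mono hs2) hc
      (z₀ := (p.1, p₀)) ⟨hp.1, mem_ball_self hηe⟩ (hnear p.1 hp.1) hp
  · intro p hp
    have hs0 : Rc 1 X (X + σ) ⊆ Rc 1 y (X + σ) := SatB_mono le_rfl hyX.le le_rfl
    have hs1 : Rc 1 X (X + σ) ×ˢ ball p₀ (2 * e) ⊆ Rc 1 y (X + σ) ×ˢ ball p₀ (2 * e) :=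
      prod_mono hs0 le_rfl
    have hs2 : Rc 1 X (X + σ) ×ˢ ball p₀ (2 * e) ⊆ Rc R X (X + σ) ×ˢ ball p₀ 2 :=
      prod_mono (SatB_mono hR.le le_rfl le_rfl) (ball_subset_ball (by linarith))
    have hc : IsPreconnected (Rc 1 X (X + σ) ×ˢ ball p₀ (2 * e)) :=
      ((convex_Rc _ _ _).prod (convex_ball _ _)).isPreconnected
    have hmem : Rc R X (X + σ) ×ˢ ball p₀ (η * e) ∈ 𝓝 (p.1, p₀) :=
      ((isOpen_Rc _ _ _).prod isOpen_ball).mem_nhds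
        ⟨SatB_mono hR.le le_rfl le_rfl hp.1, mem_ball_self hηe⟩
    have hev : F =ᶠ[𝓝 (p.1, p₀)] L' := by
      filter_upwards [hnear p.1 (hs0 hp.1), hmem] with q hq1 hq2
      rw [hq1, hML q hq2]
    exact (hF.mono (hs1.trans hdom)).eqOn_of_preconnected_of_eventuallyEq (hL.mono hs2) hc
      (z₀ := (p.1, p₀)) ⟨hp.1, mem_ball_self h2e⟩ hev hp

end Pool.Agent.MP_ae5b4e_an_MT
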